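import Mathlib
import Pool.Agent.H75.Perc.Cross
import Pool.Agent.H7.UC.Defs

set_option autoImplicit false
open Finset

/-! Triangular lattice: steps, paths in a set, crossing lemma. -/

namespace Pool.Agent.H52.Tri

open Pool.Agent.H75.Perc

/-- The six lattice vectors. -/
def U6 (d : ℤ × ℤ) : Prop :=
  d = (1, 0) ∨ d = (0, 1) ∨ d = (-1, 1) ∨ d = (-1, 0) ∨ d = (0, -1) ∨ d = (1, -1)

instance (d : ℤ × ℤ) : Decidable (U6 d) := by unfold U6; infer_instance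

lemma U6.cases {d : ℤ × ℤ} (h : U6 d) : (d.1 = 1 ∧ d.2 = 0) ∨ (d.1 = 0 ∧ d.2 = 1) ∨
    (d.1 = -1 ∧ d.2 = 1) ∨ (d.1 = -1 ∧ d.2 = 0) ∨ (d.1 = 0 ∧ d.2 = -1) ∨ (d.1 = 1 ∧ d.2 = -1) := by
  rcases h with h | h | h | h | h | h <;> subst h <;> simp

lemma U6.of_cases {d : ℤ × ℤ} (h : (d.1 = 1 ∧ d.2 = 0) ∨ (d.1 = 0 ∧ d.2 = 1) ∨
    (d.1 = -1 ∧ d.2 = 1) ∨ (d.1 = -1 ∧ d.2 = 0) ∨ (d.1 = 0 ∧ d.2 = -1) ∨ (d.1 = 1 ∧ d.2 = -1)) :
    U6 d := by
  obtain ⟨x, y⟩ := d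
  simp only at h
  rcases h with ⟨h1, h2⟩ | ⟨h1, h2⟩ | ⟨h1, h2⟩ | ⟨h1, h2⟩ | ⟨h1, h2⟩ | ⟨h1, h2⟩ <;>
    subst h1 <;> subst h2 <;> simp [U6]

lemma U6.neg {d : ℤ × ℤ} (h : U6 d) : U6 (-d) := by
  rcases h with h | h | h | h | h | h <;> subst h <;> simp [U6]

lemma U6.king {d : ℤ × ℤ} (h : U6 d) : King d := by
  rcases h with h | h | h | h | h | h <;> subst h <;> unfold King <;> norm_num

lemma U6.ne_zero {d : ℤ × ℤ} (h : U6 d) : d ≠ 0 := by
  rcases h with h | h | h | h | h | h <;> subst h <;> decide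

/-- Adjacency of the triangular lattice. -/
def TA (u v : ℤ × ℤ) : Prop := U6 (v - u)

instance (u v : ℤ × ℤ) : Decidable (TA u v) := by unfold TA; infer_instance

lemma TA.symm {u v : ℤ × ℤ} (h : TA u v) : TA v u := by
  have := h.neg
  rw [neg_sub] at this
  exact this

lemma TA_comm {u v : ℤ × ℤ} : TA u v ↔ TA v u := ⟨TA.symm, TA.symm⟩

lemma TA.cases {u v : ℤ × ℤ} (h : TA u v) : (v.1 = u.1 + 1 ∧ v.2 = u.2) ∨
    (v.1 = u.1 ∧ v.2 = u.2 + 1) ∨ (v.1 = u.1 - 1 ∧ v.2 = u.2 + 1) ∨ (v.1 = u.1 - 1 ∧ v.2 = u.2) ∨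
    (v.1 = u.1 ∧ v.2 = u.2 - 1) ∨ (v.1 = u.1 + 1 ∧ v.2 = u.2 - 1) := by
  have := U6.cases h
  simp only [Prod.fst_sub, Prod.snd_sub] at this
  omega

lemma TA.of_cases {u v : ℤ × ℤ} (h : (v.1 = u.1 + 1 ∧ v.2 = u.2) ∨
    (v.1 = u.1 ∧ v.2 = u.2 + 1) ∨ (v.1 = u.1 - 1 ∧ v.2 = u.2 + 1) ∨ (v.1 = u.1 - 1 ∧ v.2 = u.2) ∨
    (v.1 = u.1 ∧ v.2 = u.2 - 1) ∨ (v.1 = u.1 + 1 ∧ v.2 = u.2 - 1)) : TA u v := by
  apply U6.of_cases
  simp only [Prod.fst_sub, Prod.snd_sub]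
  omega

lemma TA_iff_adjF {u v : ℤ × ℤ} : TA u v ↔ Pool.Agent.H7.UC.adjF u v := by
  constructor
  · intro h
    have h' := h.cases
    obtain ⟨x, y⟩ := u
    obtain ⟨x', y'⟩ := v
    simp only at h'
    unfold Pool.Agent.H7.UC.adjF
    rcases h' with ⟨h1, h2⟩ | ⟨h1, h2⟩ | ⟨h1, h2⟩ | ⟨h1, h2⟩ | ⟨h1, h2⟩ | ⟨h1, h2⟩
    · refine ⟨(x, y, 0), Or.inl ?_⟩
      simp [Pool.Agent.H7.UC.lf, Pool.Agent.H7.UC.rf, Pool.Agent.H7.UC.fc, h1, h2]
    · refine ⟨(x, y, 2), Or.inr ?_⟩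
      simp [Pool.Agent.H7.UC.lf, Pool.Agent.H7.UC.rf, Pool.Agent.H7.UC.fc, h1, h2]
    · refine ⟨(x - 1, y, 1), Or.inl ?_⟩
      simp [Pool.Agent.H7.UC.lf, Pool.Agent.H7.UC.rf, Pool.Agent.H7.UC.fc, h1, h2]
    · refine ⟨(x - 1, y, 0), Or.inr ?_⟩
      simp [Pool.Agent.H7.UC.lf, Pool.Agent.H7.UC.rf, Pool.Agent.H7.UC.fc, h1, h2]
    · refine ⟨(x, y - 1, 2), Or.inl ?_⟩
      simp [Pool.Agent.H7.UC.lf, Pool.Agent.H7.UC.rf, Pool.Agent.H7.UC.fc, h1, h2]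
    · refine ⟨(x, y - 1, 1), Or.inr ?_⟩
      simp [Pool.Agent.H7.UC.lf, Pool.Agent.H7.UC.rf, Pool.Agent.H7.UC.fc, h1, h2]
  · rintro ⟨⟨x, y, k⟩, h⟩
    fin_cases k <;>
      simp only [Pool.Agent.H7.UC.lf, Pool.Agent.H7.UC.rf, Pool.Agent.H7.UC.fc] at h <;>
      apply TA.of_cases <;>
      rcases h with ⟨h1, h2⟩ | ⟨h1, h2⟩ <;> subst h1 <;> subst h2 <;>
      simp

/-- Paths in a set. -/
def Pa (S : ℤ × ℤ → Prop) (u v : ℤ × ℤ) : Prop :=
  S u ∧ Relation.ReflTransGen (fun a b => TA a b ∧ S b) u v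

lemma Pa.left {S : ℤ × ℤ → Prop} {u v : ℤ × ℤ} (h : Pa S u v) : S u := h.1

lemma Pa.right {S : ℤ × ℤ → Prop} {u v : ℤ × ℤ} (h : Pa S u v) : S v := by
  obtain ⟨h1, h2⟩ := h
  rcases Relation.ReflTransGen.cases_tail h2 with h3 | ⟨w, _, h3⟩
  · rwa [h3]
  · exact h3.2

lemma Pa.refl {S : ℤ × ℤ → Prop} {u : ℤ × ℤ} (h : S u) : Pa S u u :=
  ⟨h, Relation.ReflTransGen.refl⟩

lemma Pa.trans {S : ℤ × ℤ → Prop} {u v w : ℤ × ℤ} (h1 : Pa S u v) (h2 : Pa S v w) : Pa S u w :=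
  ⟨h1.1, h1.2.trans h2.2⟩

lemma Pa.tail {S : ℤ × ℤ → Prop} {u v w : ℤ × ℤ} (h1 : Pa S u v) (h2 : TA v w) (h3 : S w) :
    Pa S u w := ⟨h1.1, h1.2.tail ⟨h2, h3⟩⟩

lemma Pa.head {S : ℤ × ℤ → Prop} {u v w : ℤ × ℤ} (h1 : S u) (h2 : TA u v) (h3 : Pa S v w) :
    Pa S u w := ⟨h1, Relation.ReflTransGen.head ⟨h2, h3.1⟩ h3.2⟩

lemma Pa.symm {S : ℤ × ℤ → Prop} {u v : ℤ × ℤ} (h : Pa S u v) : Pa S v u := by
  obtain ⟨h1, h2⟩ := h
  induction h2 with
  | refl => exact Pa.refl h1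
  | @tail b c hb hc ih => exact Pa.head hc.2 hc.1.symm ih

lemma Pa.mono {S S' : ℤ × ℤ → Prop} (hS : ∀ z, S z → S' z) {u v : ℤ × ℤ} (h : Pa S u v) :
    Pa S' u v :=
  ⟨hS _ h.1, Relation.ReflTransGen.mono (fun _ _ hab => ⟨hab.1, hS _ hab.2⟩) _ _ h.2⟩

/-- the path stays in a subset closed along it -/
lemma Pa.restrict {S S' : ℤ × ℤ → Prop} {u v : ℤ × ℤ} (h : Pa S u v) (hu : S' u)
    (hstep : ∀ a b, S' a → TA a b → S b → S' b) : Pa S' u v := by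
  obtain ⟨h1, h2⟩ := h
  refine ⟨hu, ?_⟩
  have : ∀ w, Relation.ReflTransGen (fun a b => TA a b ∧ S b) u w →
      Pa S' u w := by
    intro w hw
    induction hw with
    | refl => exact Pa.refl hu
    | @tail b c hb hc ih => exact ih.tail hc.1 (hstep _ _ ih.right hc.1 hc.2)
  exact (this v h2).2

lemma pa_map {S S' : ℤ × ℤ → Prop} (f : ℤ × ℤ → ℤ × ℤ) (hf : ∀ a b, TA a b → TA (f a) (f b))
    (hS : ∀ z, S z → S' (f z)) {u v : ℤ × ℤ} (h : Pa S u v) : Pa S' (f u) (f v) := by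
  obtain ⟨h1, h2⟩ := h
  refine ⟨hS _ h1, ?_⟩
  exact Relation.ReflTransGen.lift f (fun a b hab => ⟨hf _ _ hab.1, hS _ hab.2⟩) _ _ h2

/-- Last visit to `K` : a path ending outside `K` is in `S \ K` after some point. -/
lemma Pa.last {S K : ℤ × ℤ → Prop} {u v : ℤ × ℤ} (h : Pa S u v) (hv : ¬ K v) :
    Pa (fun z => S z ∧ ¬ K z) u v ∨ ∃ z w, Pa S u z ∧ K z ∧ TA z w ∧ Pa (fun z => S z ∧ ¬ K z) w v := by
  classical
  obtain ⟨h1, h2⟩ := h
  induction h2 with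
  | refl => exact Or.inl (Pa.refl ⟨h1, hv⟩)
  | @tail b c hb hc ih =>
    by_cases hKb : K b
    · exact Or.inr ⟨b, c, ⟨h1, hb⟩, hKb, hc.1, Pa.refl ⟨hc.2, hv⟩⟩
    · rcases ih hKb with ih | ⟨z, w, h3, h4, h5, h6⟩
      · exact Or.inl (ih.tail hc.1 ⟨hc.2, hv⟩)
      · exact Or.inr ⟨z, w, h3, h4, h5, h6.tail hc.1 ⟨hc.2, hv⟩⟩

/-- First visit to `K`. -/
lemma Pa.first {S K : ℤ × ℤ → Prop} {u v : ℤ × ℤ} (h : Pa S u v) (hu : ¬ K u) :
    Pa (fun z => S z ∧ ¬ K z) u v ∨ ∃ z w, Pa (fun z => S z ∧ ¬ K z) u z ∧ TA z w ∧ K w ∧ Pa S w v := by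
  rcases h.symm.last hu with h' | ⟨z, w, h3, h4, h5, h6⟩
  · exact Or.inl h'.symm
  · exact Or.inr ⟨w, z, h6.symm, h5.symm, h4, h3.symm⟩

/-! Crossing lemma. -/

lemma DK_two {z z' : ℤ × ℤ} (hu : U6 (z' - z)) (hz : z ≠ 0) (hz' : z' ≠ 0) :
    (DK z z' = 2 → (z = (1, 0) ∧ z' = (0, 1)) ∨ (z = (-1, 0) ∧ z' = (0, -1))) ∧
    (DK z z' = -2 → (z = (0, 1) ∧ z' = (1, 0)) ∨ (z = (0, -1) ∧ z' = (-1, 0))) := by
  have hc := hu.cases
  simp only [Prod.fst_sub, Prod.snd_sub] at hc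
  have c1 := cl_cases z hz
  have c2 := cl_cases z' hz'
  obtain ⟨x, y⟩ := z
  obtain ⟨x', y'⟩ := z'
  simp only [Prod.mk.injEq] at *
  unfold DK
  constructor
  · intro h
    split_ifs at h with g1 g2 <;>
    rcases c1 with c1 | c1 | c1 | c1 | c1 | c1 | c1 | c1 <;>
    rcases c2 with c2 | c2 | c2 | c2 | c2 | c2 | c2 | c2 <;> omega
  · intro h
    split_ifs at h with g1 g2 <;>
    rcases c1 with c1 | c1 | c1 | c1 | c1 | c1 | c1 | c1 <;>
    rcases c2 with c2 | c2 | c2 | c2 | c2 | c2 | c2 | c2 <;> omega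

/-- The square relation for triangular steps. -/
lemma squareT (a b c d : ℤ × ℤ) (ha : a ≠ 0) (hb : b ≠ 0) (hc : c ≠ 0) (hd : d ≠ 0)
    (hab : U6 (b - a)) (hbd : U6 (d - b)) (hac : U6 (c - a))
    (hcd : U6 (d - c)) : DK a b + DK b d = DK a c + DK c d := by
  obtain ⟨h1, m1, e1⟩ := DK_spec a b hab.king ha hb
  obtain ⟨h2, m2, e2⟩ := DK_spec b d hbd.king hb hd
  obtain ⟨h3, m3, e3⟩ := DK_spec a c hac.king ha hc
  obtain ⟨h4, m4, e4⟩ := DK_spec c d hcd.king hc hd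
  by_contra hne
  have hm : DK a b + DK b d - (DK a c + DK c d) = 8 * (m1 + m2 - m3 - m4) := by linarith
  have h5 : (DK a b = 2 ∧ DK b d = 2) ∨ (DK a b = -2 ∧ DK b d = -2) := by omega
  have t1 := DK_two hab ha hb
  have t2 := DK_two hbd hb hd
  rcases h5 with ⟨g1, g2⟩ | ⟨g1, g2⟩
  · rcases t1.1 g1 with ⟨_, s1⟩ | ⟨_, s1⟩ <;> rcases t2.1 g2 with ⟨s2, _⟩ | ⟨s2, _⟩ <;>
      rw [s1] at s2 <;> simp at s2
  · rcases t1.2 g1 with ⟨_, s1⟩ | ⟨_, s1⟩ <;> rcases t2.2 g2 with ⟨s2, _⟩ | ⟨s2, _⟩ <;>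
      rw [s1] at s2 <;> simp at s2

/-- Crossing lemma for sequences. -/
theorem cross_seqT (P Q : ℕ → ℤ × ℤ) (m l : ℕ) (a b c d : ℤ)
    (hP : ∀ i < m, U6 (P (i + 1) - P i)) (hQ : ∀ j < l, U6 (Q (j + 1) - Q j))
    (hP0 : (P 0).1 = a) (hPm : (P m).1 = b) (hQ0 : (Q 0).2 = c) (hQl : (Q l).2 = d)
    (hPb : ∀ i ≤ m, c ≤ (P i).2 ∧ (P i).2 ≤ d) (hQb : ∀ j ≤ l, a ≤ (Q j).1 ∧ (Q j).1 ≤ b) :
    ∃ i ≤ m, ∃ j ≤ l, P i = Q j := by
  by_contra hcon
  push Not at hcon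
  have hne : ∀ i ≤ m, ∀ j ≤ l, Q j - P i ≠ 0 := by
    intro i hi j hj h
    exact hcon i hi j hj (sub_eq_zero.1 h).symm
  have hKP : ∀ j, ∀ i < m, U6 ((Q j - P (i + 1)) - (Q j - P i)) := by
    intro j i hi
    have := (hP i hi).neg
    have e : (Q j - P (i + 1)) - (Q j - P i) = -(P (i + 1) - P i) := by abel
    rw [e]
    exact this
  have hUQ : ∀ i, ∀ j < l, U6 ((Q (j + 1) - P i) - (Q j - P i)) := by
    intro i j hj
    have e : (Q (j + 1) - P i) - (Q j - P i) = Q (j + 1) - Q j := by abel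
    rw [e]; exact hQ j hj
  have row : ∀ i < m, ∀ n ≤ l,
      ∑ j ∈ range n, DK (Q j - P (i + 1)) (Q (j + 1) - P (i + 1)) -
        ∑ j ∈ range n, DK (Q j - P i) (Q (j + 1) - P i) =
      DK (Q n - P i) (Q n - P (i + 1)) - DK (Q 0 - P i) (Q 0 - P (i + 1)) := by
    intro i hi n
    induction n with
    | zero => intro _; simp
    | succ n ih =>
      intro hn
      have ih' := ih (by omega)
      rw [Finset.sum_range_succ, Finset.sum_range_succ]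
      have sq := squareT (Q n - P i) (Q (n + 1) - P i) (Q n - P (i + 1)) (Q (n + 1) - P (i + 1))
        (hne i (by omega) n (by omega)) (hne i (by omega) (n + 1) hn)
        (hne (i + 1) (by omega) n (by omega)) (hne (i + 1) (by omega) (n + 1) hn)
        (hUQ i n (by omega)) (hKP (n + 1) i hi) (hKP n i hi) (hUQ (i + 1) n (by omega))
      linarith
  have tot : ∀ k ≤ m, ∑ j ∈ range l, DK (Q j - P k) (Q (j + 1) - P k) -
        ∑ j ∈ range l, DK (Q j - P 0) (Q (j + 1) - P 0) =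
      ∑ i ∈ range k, DK (Q l - P i) (Q l - P (i + 1)) -
        ∑ i ∈ range k, DK (Q 0 - P i) (Q 0 - P (i + 1)) := by
    intro k
    induction k with
    | zero => intro _; simp
    | succ k ih =>
      intro hk
      have ih' := ih (by omega)
      have r := row k (by omega) l le_rfl
      rw [Finset.sum_range_succ, Finset.sum_range_succ]
      linarith
  have T := tot m le_rfl
  have s1 := win_sum winK_E (fun j => Q j - P 0) l (fun j hj => hne 0 (by omega) j hj)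
    (fun j hj => (hUQ 0 j hj).king) (fun j hj => by
      simp only [Prod.fst_sub]; have := hQb j hj; omega)
  have s2 := win_sum winK_W (fun j => Q j - P m) l (fun j hj => hne m le_rfl j hj)
    (fun j hj => (hUQ m j hj).king) (fun j hj => by
      simp only [Prod.fst_sub]; have := hQb j hj; omega)
  have s3 := win_sum winK_N (fun i => Q l - P i) m (fun i hi => hne i hi l le_rfl)
    (fun i hi => (hKP l i hi).king) (fun i hi => by
      simp only [Prod.snd_sub]; have := hPb i hi; omega)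
  have s4 := win_sum winK_S (fun i => Q 0 - P i) m (fun i hi => hne i hi 0 (by omega))
    (fun i hi => (hKP 0 i hi).king) (fun i hi => by
      simp only [Prod.snd_sub]; have := hPb i hi; omega)
  rw [s1, s2, s3, s4] at T
  have c00 := cl_cases _ (hne 0 (by omega) 0 (by omega))
  have c0l := cl_cases _ (hne 0 (by omega) l le_rfl)
  have cm0 := cl_cases _ (hne m le_rfl 0 (by omega))
  simp only [Prod.fst_sub, Prod.snd_sub] at c00 c0l cm0
  have b1 := hPb 0 (by omega)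
  have b2 := hPb m le_rfl
  have b3 := hQb 0 (by omega)
  have b4 := hQb l le_rfl
  have e1 : lamE (Q l - P 0) = cl (Q l - P 0) := by
    unfold lamE; rw [if_neg]; omega
  have e2 : lamS (Q 0 - P m) = cl (Q 0 - P m) - 8 := by
    unfold lamS; rw [if_pos]; omega
  have e3 : lamE (Q 0 - P 0) = lamS (Q 0 - P 0) := by
    unfold lamE lamS; split_ifs <;> omega
  omega

lemma Pa.seq {S : ℤ × ℤ → Prop} {u v : ℤ × ℤ} (h : Pa S u v) :
    ∃ (m : ℕ) (f : ℕ → ℤ × ℤ), f 0 = u ∧ f m = v ∧ (∀ i < m, U6 (f (i + 1) - f i)) ∧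
      ∀ i ≤ m, S (f i) := by
  obtain ⟨m, P, hP0, hPm, hPs⟩ := exists_seq h.2
  refine ⟨m, P, hP0, hPm, fun i hi => (hPs i hi).1, ?_⟩
  intro i hi
  rcases Nat.eq_zero_or_pos i with h' | h'
  · rw [h', hP0]; exact h.1
  · have := (hPs (i - 1) (by omega)).2
    rwa [show i - 1 + 1 = i by omega] at this

/-- straight horizontal path -/
lemma pa_row {S : ℤ × ℤ → Prop} {x y : ℤ} (k : ℕ) (h : ∀ i : ℕ, i ≤ k → S (x + i, y)) :
    Pa S (x, y) (x + k, y) := by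
  induction k with
  | zero =>
    have := h 0 le_rfl
    simp only [Nat.cast_zero, add_zero] at this ⊢
    exact Pa.refl this
  | succ k ih =>
    refine (ih fun i hi => h i (by omega)).tail ?_ ?_
    · exact TA.of_cases (Or.inl ⟨by push_cast; ring, rfl⟩)
    · exact h (k + 1) le_rfl

/-- Crossing lemma: `P` from `p` to `q` in `A`, `A` in the rows `c..d`; `Q` in `B` from row `c` to
row `d`; no point of `B` is in the row of `p` to the left of `p`, nor in the row of `q` to the right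
of `q`. -/
theorem cross {A B : ℤ × ℤ → Prop} {c d : ℤ} {p q r s : ℤ × ℤ}
    (hP : Pa A p q) (hA : ∀ z, A z → c ≤ z.2 ∧ z.2 ≤ d) (hQ : Pa B r s)
    (hr : r.2 = c) (hs : s.2 = d)
    (hp : ∀ z, B z → z.2 = p.2 → p.1 ≤ z.1) (hq : ∀ z, B z → z.2 = q.2 → z.1 ≤ q.1) :
    ∃ z, A z ∧ B z := by
  obtain ⟨l, Q, hQ0, hQl, hQs, hQB⟩ := hQ.seq
  -- bound of the first coordinates of Q
  have hbd : ∃ M : ℕ, ∀ j ≤ l, |(Q j).1| ≤ M := by
    refine ⟨∑ j ∈ range (l + 1), (Q j).1.natAbs, ?_⟩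
    intro j hj
    have h1 : (Q j).1.natAbs ≤ ∑ j ∈ range (l + 1), (Q j).1.natAbs :=
      Finset.single_le_sum (f := fun j => (Q j).1.natAbs) (fun i _ => Nat.zero_le _)
        (mem_range.2 (by omega))
    rw [Int.abs_eq_natAbs]
    exact_mod_cast h1
  obtain ⟨M, hM⟩ := hbd
  set N : ℤ := (M : ℤ) + |p.1| + |q.1| with hN
  have hM0 : (0 : ℤ) ≤ M := Int.natCast_nonneg M
  have n1 := le_abs_self p.1
  have n2 := neg_abs_le p.1
  have n3 := le_abs_self q.1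
  have n4 := neg_abs_le q.1
  have n5 := abs_nonneg p.1
  have n6 := abs_nonneg q.1
  set A' : ℤ × ℤ → Prop := fun z => A z ∨ (z.2 = p.2 ∧ z.1 < p.1) ∨ (z.2 = q.2 ∧ q.1 < z.1) with hA'
  have hPA : Pa A' p q := hP.mono fun z hz => Or.inl hz
  have hAp := hA p hP.left
  have hAq := hA q hP.right
  have hL : Pa A' (-N, p.2) p := by
    have := pa_row (S := A') (x := -N) (y := p.2) (p.1 + N).toNat (by
      intro i hi
      rw [hA']
      by_cases hlt : -N + (i : ℤ) < p.1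
      · right; left; exact ⟨rfl, hlt⟩
      · left
        have e : ((-N + (i : ℤ), p.2) : ℤ × ℤ) = p := by
          refine Prod.ext ?_ rfl
          simp only
          have : (i : ℤ) ≤ (p.1 + N) := by
            have : (i : ℤ) ≤ ((p.1 + N).toNat : ℤ) := by exact_mod_cast hi
            rw [Int.toNat_of_nonneg (by omega)] at this
            exact this
          omega
        rw [e]; exact hP.left)
    rw [Int.toNat_of_nonneg (by omega)] at this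
    have e : ((-N + (p.1 + N), p.2) : ℤ × ℤ) = p := Prod.ext (by simp) rfl
    rw [e] at this
    exact this
  have hR : Pa A' q (N, q.2) := by
    have := pa_row (S := A') (x := q.1) (y := q.2) (N - q.1).toNat (by
      intro i hi
      rw [hA']
      by_cases hlt : q.1 < q.1 + (i : ℤ)
      · right; right; exact ⟨rfl, hlt⟩
      · left
        have e : ((q.1 + (i : ℤ), q.2) : ℤ × ℤ) = q := by
          refine Prod.ext ?_ rfl
          simp only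
          omega
        rw [e]; exact hP.right)
    rw [Int.toNat_of_nonneg (by omega)] at this
    have e : ((q.1 + (N - q.1), q.2) : ℤ × ℤ) = (N, q.2) := Prod.ext (by simp) rfl
    rw [e] at this
    exact this
  obtain ⟨m, P, hP0, hPm, hPs, hPA'⟩ := ((hL.trans hPA).trans hR).seq
  obtain ⟨i, hi, j, hj, hij⟩ := cross_seqT P Q m l (-N) N c d hPs hQs (by rw [hP0]) (by rw [hPm])
    (by rw [hQ0, hr]) (by rw [hQl, hs]) (by
      intro i hi
      rcases hPA' i hi with h | h | h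
      · exact hA _ h
      · rw [h.1]; exact hAp
      · rw [h.1]; exact hAq) (by
      intro j hj
      have := abs_le.1 (hM j hj)
      omega)
  have hB := hQB j hj
  rw [← hij] at hB
  rcases hPA' i hi with h | h | h
  · exact ⟨P i, h, hB⟩
  · exact absurd (hp _ hB h.1) (by omega)
  · exact absurd (hq _ hB h.1) (by omega)

end Pool.Agent.H52.Tri
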