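import Mathlib
import Pool.Agent.H52.Tri.Base

set_option autoImplicit false
open Finset

/-! Exploration (interface) on the triangular lattice. A state is `(l, d)`: the site `l` on the left is
not in the set `B`, the site `l + d` on the right is in `B`. -/

namespace Pool.Agent.H52.Tri

/-- rotation by 60 degrees and its inverse -/
def rot (d : ℤ × ℤ) : ℤ × ℤ := (-d.2, d.1 + d.2)
def rotI (d : ℤ × ℤ) : ℤ × ℤ := (d.1 + d.2, -d.1)

lemma rot_rotI (d : ℤ × ℤ) : rot (rotI d) = d := by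
  unfold rot rotI; refine Prod.ext ?_ ?_ <;> simp
lemma rotI_rot (d : ℤ × ℤ) : rotI (rot d) = d := by
  unfold rot rotI; refine Prod.ext ?_ ?_ <;> simp
lemma rot_add_rotI (d : ℤ × ℤ) : rot d + rotI d = d := by
  unfold rot rotI; refine Prod.ext ?_ ?_ <;> simp
lemma rot_add_rotI2 (d : ℤ × ℤ) : rot d + rotI (rotI d) = 0 := by
  unfold rot rotI; refine Prod.ext ?_ ?_ <;> simp
lemma U6.rot {d : ℤ × ℤ} (h : U6 d) : U6 (rot d) := by
  rcases h with h | h | h | h | h | h <;> subst h <;> simp [U6, Tri.rot]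
lemma U6.rotI {d : ℤ × ℤ} (h : U6 d) : U6 (rotI d) := by
  rcases h with h | h | h | h | h | h <;> subst h <;> simp [U6, Tri.rotI]

variable (B : ℤ × ℤ → Prop)

/-- valid states -/
def Val (s : (ℤ × ℤ) × (ℤ × ℤ)) : Prop := U6 s.2 ∧ ¬ B s.1 ∧ B (s.1 + s.2)

open Classical in
/-- one step of the exploration -/
noncomputable def nxt (s : (ℤ × ℤ) × (ℤ × ℤ)) : (ℤ × ℤ) × (ℤ × ℤ) :=
  if B (s.1 + rot s.2) then (s.1, rot s.2) else (s.1 + rot s.2, rotI s.2)

open Classical in
/-- one step back -/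
noncomputable def prv (s : (ℤ × ℤ) × (ℤ × ℤ)) : (ℤ × ℤ) × (ℤ × ℤ) :=
  if B (s.1 + rotI s.2) then (s.1, rotI s.2) else (s.1 + rotI s.2, rot s.2)

variable {B}

lemma Val.nxt {s : (ℤ × ℤ) × (ℤ × ℤ)} (h : Val B s) : Val B (nxt B s) := by
  obtain ⟨h1, h2, h3⟩ := h
  unfold Tri.nxt
  split_ifs with hc
  · exact ⟨h1.rot, h2, hc⟩
  · refine ⟨h1.rotI, hc, ?_⟩
    simp only
    rw [add_assoc, rot_add_rotI]
    exact h3

lemma prv_nxt {s : (ℤ × ℤ) × (ℤ × ℤ)} (h : Val B s) : prv B (nxt B s) = s := by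
  obtain ⟨h1, h2, h3⟩ := h
  obtain ⟨l, d⟩ := s
  simp only at h1 h2 h3
  unfold Tri.nxt
  simp only
  split_ifs with hc
  · unfold prv
    simp only
    rw [rotI_rot, if_pos h3]
  · unfold prv
    simp only
    rw [add_assoc, rot_add_rotI2, add_zero, if_neg h2, rot_rotI]

variable (B)

/-- iterates -/
noncomputable def it (s : (ℤ × ℤ) × (ℤ × ℤ)) (i : ℕ) : (ℤ × ℤ) × (ℤ × ℤ) := (nxt B)^[i] s
noncomputable def LL (s : (ℤ × ℤ) × (ℤ × ℤ)) (i : ℕ) : ℤ × ℤ := (it B s i).1
noncomputable def RR (s : (ℤ × ℤ) × (ℤ × ℤ)) (i : ℕ) : ℤ × ℤ := (it B s i).1 + (it B s i).2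
/-- the site queried in step `i` -/
noncomputable def CC (s : (ℤ × ℤ) × (ℤ × ℤ)) (i : ℕ) : ℤ × ℤ := (it B s i).1 + rot (it B s i).2

variable {B}

@[simp] lemma it_zero (s : (ℤ × ℤ) × (ℤ × ℤ)) : it B s 0 = s := rfl

lemma it_succ (s : (ℤ × ℤ) × (ℤ × ℤ)) (i : ℕ) : it B s (i + 1) = nxt B (it B s i) := by
  unfold it; rw [Function.iterate_succ_apply']

lemma val_it {s : (ℤ × ℤ) × (ℤ × ℤ)} (h : Val B s) (i : ℕ) : Val B (it B s i) := by
  induction i with
  | zero => exact h
  | succ i ih => rw [it_succ]; exact ih.nxt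

lemma it_inj {s : (ℤ × ℤ) × (ℤ × ℤ)} (h : Val B s) (i j : ℕ) (hij : it B s (i + j) = it B s i) :
    it B s j = s := by
  induction i with
  | zero => rw [zero_add, it_zero] at hij; exact hij
  | succ i ih =>
    apply ih
    rw [show i + 1 + j = (i + j) + 1 by ring, it_succ, it_succ] at hij
    have := congrArg (prv B) hij
    rwa [prv_nxt (val_it h _), prv_nxt (val_it h _)] at this

lemma notB_LL {s : (ℤ × ℤ) × (ℤ × ℤ)} (h : Val B s) (i : ℕ) : ¬ B (LL B s i) := (val_it h i).2.1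
lemma B_RR {s : (ℤ × ℤ) × (ℤ × ℤ)} (h : Val B s) (i : ℕ) : B (RR B s i) := (val_it h i).2.2

lemma TA_LR {s : (ℤ × ℤ) × (ℤ × ℤ)} (h : Val B s) (i : ℕ) : TA (LL B s i) (RR B s i) := by
  unfold TA LL RR
  rw [add_sub_cancel_left]
  exact (val_it h i).1

/-- one step: either the left site stays and the queried site is the new right site, or the
other way round. -/
lemma step_cases {s : (ℤ × ℤ) × (ℤ × ℤ)} (h : Val B s) (i : ℕ) :
    (B (CC B s i) ∧ LL B s (i + 1) = LL B s i ∧ RR B s (i + 1) = CC B s i ∧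
      TA (RR B s i) (RR B s (i + 1))) ∨
    (¬ B (CC B s i) ∧ LL B s (i + 1) = CC B s i ∧ RR B s (i + 1) = RR B s i ∧
      TA (LL B s i) (LL B s (i + 1))) := by
  have hv := val_it h i
  unfold LL RR CC
  rw [it_succ]
  generalize it B s i = p at hv ⊢
  obtain ⟨l, d⟩ := p
  have hd : U6 d := hv.1
  simp only
  unfold nxt
  simp only
  by_cases hc : B (l + rot d)
  · left
    rw [if_pos hc]
    refine ⟨hc, rfl, rfl, ?_⟩
    unfold TA
    have : l + rot d - (l + d) = -(rotI d) := by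
      have := rot_add_rotI d
      calc l + rot d - (l + d) = rot d - (rot d + rotI d) := by rw [this]; abel
        _ = -(rotI d) := by abel
    rw [this]
    exact hd.rotI.neg
  · right
    rw [if_neg hc]
    refine ⟨hc, rfl, ?_, ?_⟩
    · simp only
      rw [add_assoc, rot_add_rotI]
    · unfold TA
      simp only
      rw [add_sub_cancel_left]
      exact hd.rot

lemma pa_LL {s : (ℤ × ℤ) × (ℤ × ℤ)} (h : Val B s) (a k : ℕ) :
    Pa (fun z => ∃ j, a ≤ j ∧ j ≤ a + k ∧ z = LL B s j) (LL B s a) (LL B s (a + k)) := by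
  induction k with
  | zero => exact Pa.refl ⟨a, le_rfl, le_rfl, rfl⟩
  | succ k ih =>
    have ih' := ih.mono (S' := fun z => ∃ j, a ≤ j ∧ j ≤ a + (k + 1) ∧ z = LL B s j)
      (fun z ⟨j, h1, h2, h3⟩ => ⟨j, h1, by omega, h3⟩)
    rcases step_cases h (a + k) with ⟨_, h2, _, _⟩ | ⟨_, _, _, h4⟩
    · rw [show a + (k + 1) = a + k + 1 by ring, h2]; exact ih'
    · exact ih'.tail h4 ⟨a + (k + 1), by omega, le_rfl, rfl⟩

lemma pa_RR {s : (ℤ × ℤ) × (ℤ × ℤ)} (h : Val B s) (a k : ℕ) :
    Pa (fun z => ∃ j, a ≤ j ∧ j ≤ a + k ∧ z = RR B s j) (RR B s a) (RR B s (a + k)) := by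
  induction k with
  | zero => exact Pa.refl ⟨a, le_rfl, le_rfl, rfl⟩
  | succ k ih =>
    have ih' := ih.mono (S' := fun z => ∃ j, a ≤ j ∧ j ≤ a + (k + 1) ∧ z = RR B s j)
      (fun z ⟨j, h1, h2, h3⟩ => ⟨j, h1, by omega, h3⟩)
    rcases step_cases h (a + k) with ⟨_, _, _, h4⟩ | ⟨_, _, h2, _⟩
    · exact ih'.tail h4 ⟨a + (k + 1), by omega, le_rfl, rfl⟩
    · rw [show a + (k + 1) = a + k + 1 by ring, h2]; exact ih'

/-- Locality. -/
lemma it_local {B' : ℤ × ℤ → Prop} (s : (ℤ × ℤ) × (ℤ × ℤ)) (k : ℕ)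
    (hagree : ∀ i < k, (B' (CC B s i) ↔ B (CC B s i))) : ∀ i ≤ k, it B' s i = it B s i := by
  intro i
  induction i with
  | zero => intro _; rfl
  | succ i ih =>
    intro hi
    have e := ih (by omega)
    have ha := hagree i (by omega)
    rw [it_succ, it_succ, e]
    unfold CC at ha
    unfold nxt
    by_cases hb : B ((it B s i).1 + rot (it B s i).2)
    · rw [if_pos hb, if_pos (ha.2 hb)]
    · rw [if_neg hb, if_neg fun h' => hb (ha.1 h')]

/-! Strips -/

/-- black outside the rows `0..n` -/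
def ext (n : ℤ) (B : ℤ × ℤ → Prop) (z : ℤ × ℤ) : Prop := B z ∨ z.2 < 0 ∨ n < z.2

/-- start in column `x`, in the bottom row -/
def st (x : ℤ) : (ℤ × ℤ) × (ℤ × ℤ) := ((x, 0), (0, -1))

lemma val_st {n : ℤ} (hn : 0 ≤ n) {B : ℤ × ℤ → Prop} {x : ℤ} (hx : ¬ B (x, 0)) :
    Val (ext n B) (st x) := by
  refine ⟨?_, ?_, ?_⟩
  · simp [st, U6]
  · unfold ext st
    simp only
    rintro (h | h | h)
    · exact hx h
    · omega
    · omega
  · unfold ext st
    right; left; simp

lemma LL_rows {n : ℤ} {B : ℤ × ℤ → Prop} {s : (ℤ × ℤ) × (ℤ × ℤ)} (h : Val (ext n B) s) (i : ℕ) :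
    ¬ B (LL (ext n B) s i) ∧ 0 ≤ (LL (ext n B) s i).2 ∧ (LL (ext n B) s i).2 ≤ n := by
  have := notB_LL h i
  unfold ext at this
  push Not at this
  exact this

/-- If the exploration which starts far to the left never reaches row `n+1`, it goes to the far right. -/
lemma far_right {n : ℤ} (hn : 0 ≤ n) {B : ℤ × ℤ → Prop} {x : ℤ}
    (hM : ∀ z : ℤ × ℤ, 0 ≤ z.2 → z.2 ≤ n → z.1 ≤ x + 1 → ¬ B z)
    (hR : ∀ i, (RR (ext n B) (st x) i).2 ≤ n) (K : ℤ) (hK : x < K) :
    ∃ i, (LL (ext n B) (st x) i).1 = K ∧ ∀ j < i, (LL (ext n B) (st x) j).1 < K := by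
  have hv : Val (ext n B) (st x) := val_st hn (hM _ le_rfl hn (by simp))
  by_contra hcon
  push Not at hcon
  -- the left site never leaves the columns x .. K-1
  have key : ∀ i, x ≤ (LL (ext n B) (st x) i).1 ∧ (LL (ext n B) (st x) i).1 < K := by
    intro i
    induction i using Nat.strong_induction_on with
    | _ i ih =>
      rcases Nat.eq_zero_or_pos i with h0 | h0
      · subst h0
        unfold LL
        rw [it_zero]
        unfold st
        simp only
        omega
      · obtain ⟨i, rfl⟩ : ∃ k, i = k + 1 := ⟨i - 1, by omega⟩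
        have hi := ih i (by omega)
        rcases step_cases hv i with ⟨_, h2, _, _⟩ | ⟨h1, h2, h3, h4⟩
        · rw [h2]; exact hi
        · have hta := h4.cases
          have hle : (LL (ext n B) (st x) (i + 1)).1 ≤ K := by omega
          have hne : (LL (ext n B) (st x) (i + 1)).1 ≠ K := by
            intro he
            obtain ⟨j, hj, hj'⟩ := hcon (i + 1) he
            have := (ih j hj).2
            omega
          refine ⟨?_, by omega⟩
          by_contra hlt
          push Not at hlt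
          -- left exit
          have hrow := LL_rows hv i
          have hrow' := LL_rows hv (i + 1)
          have hB := B_RR hv i
          have hlr := (TA_LR hv i).cases
          have hRn := hR i
          have hl1 : (LL (ext n B) (st x) i).1 = x := by omega
          have hr1 : (RR (ext n B) (st x) i).1 ≤ x + 1 := by omega
          rcases (show B (RR (ext n B) (st x) i) ∨ (RR (ext n B) (st x) i).2 < 0 ∨
            n < (RR (ext n B) (st x) i).2 from hB) with hB | hB | hB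
          · by_cases hr2 : 0 ≤ (RR (ext n B) (st x) i).2
            · exact hM _ hr2 hRn hr1 hB
            · -- row -1
              exfalso
              have e1 : LL (ext n B) (st x) (i + 1) = LL (ext n B) (st x) i +
                  rot (RR (ext n B) (st x) i - LL (ext n B) (st x) i) := by
                rw [h2]
                unfold CC RR LL
                rw [add_sub_cancel_left]
              have e2 := congrArg Prod.fst e1
              have e3 := congrArg Prod.snd e1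
              unfold rot at e2 e3
              simp only [Prod.fst_add, Prod.snd_add, Prod.fst_sub, Prod.snd_sub] at e2 e3
              omega
          · exfalso
            have e1 : LL (ext n B) (st x) (i + 1) = LL (ext n B) (st x) i +
                rot (RR (ext n B) (st x) i - LL (ext n B) (st x) i) := by
              rw [h2]
              unfold CC RR LL
              rw [add_sub_cancel_left]
            have e2 := congrArg Prod.fst e1
            have e3 := congrArg Prod.snd e1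
            unfold rot at e2 e3
            simp only [Prod.fst_add, Prod.snd_add, Prod.fst_sub, Prod.snd_sub] at e2 e3
            omega
          · omega
  -- finiteness
  have hfin : ∀ i, it (ext n B) (st x) i ∈ ((Icc x K) ×ˢ (Icc 0 n)) ×ˢ
      ((Icc (-1 : ℤ) 1) ×ˢ (Icc (-1 : ℤ) 1)) := by
    intro i
    have h1 := key i
    have h2 := LL_rows hv i
    have h3 := (val_it hv i).1.cases
    unfold LL at h1 h2
    rw [mem_product, mem_product, mem_product, mem_Icc, mem_Icc, mem_Icc, mem_Icc]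
    omega
  obtain ⟨i, j, hij, he⟩ : ∃ i j : ℕ, i ≠ j ∧ it (ext n B) (st x) i = it (ext n B) (st x) j := by
    obtain ⟨i, j, hij, he⟩ := Finite.exists_ne_map_eq_of_infinite
      (fun i : ℕ => (⟨it (ext n B) (st x) i, hfin i⟩ :
        {y // y ∈ ((Icc x K) ×ˢ (Icc 0 n)) ×ˢ ((Icc (-1 : ℤ) 1) ×ˢ (Icc (-1 : ℤ) 1))}))
    exact ⟨i, j, hij, by simpa using he⟩
  have hper : ∃ k, 0 < k ∧ it (ext n B) (st x) k = st x := by
    rcases Nat.lt_or_gt_of_ne hij with h | h
    · refine ⟨j - i, by omega, it_inj hv i (j - i) ?_⟩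
      rw [show i + (j - i) = j by omega]; exact he.symm
    · refine ⟨i - j, by omega, it_inj hv j (i - j) ?_⟩
      rw [show j + (i - j) = i by omega]; exact he
  obtain ⟨k, hk, hk'⟩ := hper
  obtain ⟨k, rfl⟩ : ∃ m, k = m + 1 := ⟨k - 1, by omega⟩
  rw [it_succ] at hk'
  have h1 := congrArg (prv (ext n B)) hk'
  rw [prv_nxt (val_it hv k)] at h1
  have h2 := (key k).1
  unfold LL at h2
  rw [h1] at h2
  have h3 : ¬ ext n B ((x, 0) + rotI (0, -1)) := by
    unfold ext rotI
    simp only [Prod.mk_add_mk]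
    rintro (h | h | h)
    · exact hM _ (by simp) (by simp [hn]) (by simp) h
    · norm_num at h
    · simp at h; omega
  unfold prv st at h2
  simp only at h2
  rw [if_neg h3] at h2
  unfold rotI at h2
  simp at h2

/-- Extraction of a crossing from row `0` to row `n`. -/
lemma extract {n : ℤ} (hn : 0 ≤ n) {S : ℤ × ℤ → Prop} {u v : ℤ × ℤ} (h : Pa S u v) (hu : u.2 < 0)
    (hv : n < v.2) : ∃ p q, p.2 = 0 ∧ q.2 = n ∧ Pa (fun z => S z ∧ 0 ≤ z.2 ∧ z.2 ≤ n) p q := by
  rcases h.last (K := fun z => z.2 < 0) (by omega) with h1 | ⟨z, w, _, h2, h3, h4⟩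
  · exact absurd h1.left.2 (by simpa using hu)
  · have hw : ¬ w.2 < 0 := h4.left.2
    have hta := h3.cases
    rcases h4.first (K := fun z => n < z.2) (by omega) with h5 | ⟨z', w', h6, h7, h8, _⟩
    · exact absurd h5.right.2 (by simpa using hv)
    · have hz' : ¬ n < z'.2 := h6.right.2
      have hta' := h7.cases
      refine ⟨w, z', by omega, by omega, h6.mono fun y hy => ⟨hy.1.1, ?_, ?_⟩⟩
      · have := hy.1.2; omega
      · have := hy.2; omega

/-- Duality in a strip. -/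
theorem dual_strip {n : ℤ} (hn : 0 ≤ n) {B : ℤ × ℤ → Prop} {x K : ℤ} (hxK : x < K)
    (hM : ∀ z : ℤ × ℤ, 0 ≤ z.2 → z.2 ≤ n → z.1 ≤ x + 1 → ¬ B z) :
    (∃ p q, p.2 = 0 ∧ q.2 = n ∧ Pa (fun z => B z ∧ 0 ≤ z.2 ∧ z.2 ≤ n) p q) ∨
    (∃ q : ℤ × ℤ, q.1 = K ∧ Pa (fun z => ¬ B z ∧ 0 ≤ z.2 ∧ z.2 ≤ n) (x, 0) q) := by
  have hv : Val (ext n B) (st x) := val_st hn (hM _ le_rfl hn (by simp))
  by_cases hR : ∀ i, (RR (ext n B) (st x) i).2 ≤ n
  · right
    obtain ⟨i, hi, _⟩ := far_right hn hM hR K hxK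
    refine ⟨_, hi, ?_⟩
    have := pa_LL hv 0 i
    rw [zero_add] at this
    refine this.mono ?_
    rintro z ⟨j, _, _, rfl⟩
    exact LL_rows hv j
  · left
    push Not at hR
    obtain ⟨i, hi⟩ := hR
    have h1 := pa_RR hv 0 i
    rw [zero_add] at h1
    have h2 : Pa (ext n B) (RR (ext n B) (st x) 0) (RR (ext n B) (st x) i) := by
      refine h1.mono ?_
      rintro z ⟨j, _, _, rfl⟩
      exact B_RR hv j
    obtain ⟨p, q, hp, hq, hpq⟩ := extract hn h2 (by unfold RR st; simp) hi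
    refine ⟨p, q, hp, hq, hpq.mono ?_⟩
    rintro z ⟨h3, h4, h5⟩
    unfold ext at h3
    rcases h3 with h3 | h3 | h3
    · exact ⟨h3, h4, h5⟩
    · omega
    · omega

end Pool.Agent.H52.Tri
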