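import Mathlib
import Pool.Agent.H52.Tri.Orbit
import Pool.Agent.H75.Perc.Prob

set_option autoImplicit false
open Finset

/-! Rectangles on the triangular lattice. `X z = 2 z.1 + z.2` is twice the horizontal coordinate of the
centre of `z`. -/

namespace Pool.Agent.H52.Tri

open Pool.Agent.H75.Perc

/-- twice the horizontal coordinate -/
def X (z : ℤ × ℤ) : ℤ := 2 * z.1 + z.2

/-- The rectangle `0 ≤ X ≤ W`, rows `0..n`. -/
noncomputable def Rct (W n : ℤ) : Finset (ℤ × ℤ) :=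
  ((Icc (-n) W) ×ˢ (Icc 0 n)).filter (fun z => 0 ≤ X z ∧ X z ≤ W)

lemma mem_Rct {W n : ℤ} {z : ℤ × ℤ} :
    z ∈ Rct W n ↔ 0 ≤ X z ∧ X z ≤ W ∧ 0 ≤ z.2 ∧ z.2 ≤ n := by
  unfold Rct X
  rw [mem_filter, mem_product, mem_Icc, mem_Icc]
  constructor
  · rintro ⟨⟨_, h1, h2⟩, h3, h4⟩; exact ⟨h3, h4, h1, h2⟩
  · rintro ⟨h1, h2, h3, h4⟩; exact ⟨⟨⟨by omega, by omega⟩, h3, h4⟩, h1, h2⟩

/-- Crossing (in `ω`) of the rectangle from row `0` to row `n`. -/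
def VCr (W n : ℤ) (ω : Finset (ℤ × ℤ)) : Prop :=
  ∃ p q : ℤ × ℤ, p.2 = 0 ∧ q.2 = n ∧ Pa (fun z => z ∈ ω ∧ z ∈ Rct W n) p q

/-- its probability -/
noncomputable def pV (W n : ℤ) : ℝ := Pr (Rct W n) (VCr W n)

lemma VCr_inc (W n : ℤ) : Inc (VCr W n) := by
  rintro ω ω' h ⟨p, q, h1, h2, h3⟩
  exact ⟨p, q, h1, h2, h3.mono fun z hz => ⟨h hz.1, hz.2⟩⟩

lemma VCr_restrict (W n : ℤ) (ω : Finset (ℤ × ℤ)) : VCr W n ω ↔ VCr W n (ω ∩ Rct W n) := by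
  unfold VCr
  simp only [mem_inter, and_assoc, and_self]

lemma Pr_VCr {W n : ℤ} {E : Finset (ℤ × ℤ)} (h : Rct W n ⊆ E) : Pr E (VCr W n) = pV W n := by
  unfold pV
  rw [← Pr_restrict h]
  exact Pr_congr fun ω _ => VCr_restrict W n ω

end Pool.Agent.H52.Tri
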