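import Mathlib
import Pool.Agent.H52.Tri.Rct

set_option autoImplicit false
open Finset

/-! The domain to the right of a crossing `g` of the lower half and its reflection in row `n`; the
alternative black path from `g` to the upper right / white path from the reflection to the lower
right. -/

namespace Pool.Agent.H52.Tri

open Pool.Agent.H75.Perc

/-- straight vertical path -/
lemma pa_col {S : ℤ × ℤ → Prop} {x y : ℤ} (k : ℕ) (h : ∀ i : ℕ, i ≤ k → S (x, y + i)) :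
    Pa S (x, y) (x, y + k) := by
  induction k with
  | zero =>
    have := h 0 le_rfl
    simp only [Nat.cast_zero, add_zero] at this ⊢
    exact Pa.refl this
  | succ k ih =>
    refine (ih fun i hi => h i (by omega)).tail ?_ ?_
    · exact TA.of_cases (Or.inr (Or.inl ⟨rfl, by push_cast; ring⟩))
    · exact h (k + 1) le_rfl

/-- reflection in row `n` -/
def sg (n : ℤ) (z : ℤ × ℤ) : ℤ × ℤ := (z.1 + z.2 - n, 2 * n - z.2)

lemma sg_sg (n : ℤ) (z : ℤ × ℤ) : sg n (sg n z) = z := by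
  unfold sg; refine Prod.ext ?_ ?_ <;> simp only <;> ring

lemma X_sg (n : ℤ) (z : ℤ × ℤ) : X (sg n z) = X z := by
  unfold X sg; simp only; ring

lemma sg_snd (n : ℤ) (z : ℤ × ℤ) : (sg n z).2 = 2 * n - z.2 := rfl

lemma sg_row {n : ℤ} {z : ℤ × ℤ} (h : z.2 = n) : sg n z = z := by
  unfold sg; refine Prod.ext ?_ ?_ <;> simp only <;> omega

lemma TA_sg (n : ℤ) {u v : ℤ × ℤ} (h : TA u v) : TA (sg n u) (sg n v) := by
  have := h.cases
  apply TA.of_cases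
  unfold sg
  simp only
  omega

/-- A crossing of the lower half as a set. -/
structure Cr (W n : ℤ) (g : ℤ × ℤ → Prop) : Prop where
  sub : ∀ z, g z → 0 ≤ X z ∧ X z ≤ W ∧ 0 ≤ z.2 ∧ z.2 ≤ n
  ex : ∃ p q : ℤ × ℤ, p.2 = 0 ∧ q.2 = n ∧ Pa g p q ∧ ∀ z, g z → Pa g p z

section

variable (W n : ℤ) (g : ℤ × ℤ → Prop)

def Gs (z : ℤ × ℤ) : Prop := g z ∨ g (sg n z)

def Fr (z : ℤ × ℤ) : Prop := 0 ≤ z.2 ∧ z.2 ≤ 2 * n ∧ ¬ Gs n g z

/-- component of the far right -/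
def Cc (z : ℤ × ℤ) : Prop := ∃ q, W < X q ∧ Pa (Fr n g) z q

variable {W n g}

lemma Gs_sg {z : ℤ × ℤ} : Gs n g (sg n z) ↔ Gs n g z := by
  unfold Gs; rw [sg_sg]; tauto

lemma Fr_sg {z : ℤ × ℤ} : Fr n g (sg n z) ↔ Fr n g z := by
  unfold Fr; rw [Gs_sg, sg_snd]
  constructor
  · rintro ⟨h1, h2, h3⟩; exact ⟨by omega, by omega, h3⟩
  · rintro ⟨h1, h2, h3⟩; exact ⟨by omega, by omega, h3⟩

lemma Cc.fr {z : ℤ × ℤ} (h : Cc W n g z) : Fr n g z := by
  obtain ⟨q, _, h2⟩ := h; exact h2.left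

lemma Cc.step {z w : ℤ × ℤ} (h : Cc W n g w) (hz : TA z w) (hf : Fr n g z) : Cc W n g z := by
  obtain ⟨q, h1, h2⟩ := h
  exact ⟨q, h1, Pa.head hf hz h2⟩

lemma Cc_sg_aux {z : ℤ × ℤ} (h : Cc W n g z) : Cc W n g (sg n z) := by
  obtain ⟨q, h1, h2⟩ := h
  refine ⟨sg n q, by rw [X_sg]; exact h1, ?_⟩
  exact pa_map (sg n) (fun a b hab => TA_sg n hab) (fun z hz => Fr_sg.2 hz) h2

lemma Cc_sg {z : ℤ × ℤ} : Cc W n g (sg n z) ↔ Cc W n g z := by
  constructor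
  · intro h; have := Cc_sg_aux h; rwa [sg_sg] at this
  · exact Cc_sg_aux

lemma Cr.gs (h : Cr W n g) {z : ℤ × ℤ} (hz : Gs n g z) :
    0 ≤ X z ∧ X z ≤ W ∧ 0 ≤ z.2 ∧ z.2 ≤ 2 * n := by
  rcases hz with hz | hz
  · have := h.sub z hz
    omega
  · have := h.sub _ hz
    rw [X_sg, sg_snd] at this
    omega

lemma Cr.right (h : Cr W n g) {z : ℤ × ℤ} (h0 : 0 ≤ z.2) (h1 : z.2 ≤ 2 * n) (h2 : W < X z) :
    Cc W n g z := by
  refine ⟨z, h2, Pa.refl ⟨h0, h1, fun hg => ?_⟩⟩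
  have := h.gs hg
  omega

lemma adj {z w : ℤ × ℤ} (hz : ¬ Cc W n g z) (h0 : 0 ≤ z.2) (h1 : z.2 ≤ 2 * n)
    (hw : Cc W n g w) (ha : TA z w) : Gs n g z := by
  by_contra hg
  exact hz (hw.step ha ⟨h0, h1, hg⟩)

/-- the vertical crossing -/
lemma Cr.vert (h : Cr W n g) : ∃ p q : ℤ × ℤ, p.2 = 0 ∧ q.2 = 2 * n ∧ Pa (Gs n g) p q := by
  obtain ⟨p, q, hp, hq, hpq, _⟩ := h.ex
  refine ⟨p, sg n p, hp, by rw [sg_snd, hp]; ring, ?_⟩
  have h1 : Pa (Gs n g) p q := hpq.mono fun z hz => Or.inl hz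
  have h2 : Pa (Gs n g) (sg n p) (sg n q) :=
    pa_map (sg n) (fun a b hab => TA_sg n hab) (fun z hz => Or.inr (by rw [sg_sg]; exact hz)) hpq
  rw [sg_row hq] at h2
  exact h1.trans h2.symm

/-- a site to the left of the crossing is not in the component -/
lemma Cr.sep (h : Cr W n g) {z : ℤ × ℤ} (hz : ∀ y, Gs n g y → y.2 = z.2 → z.1 ≤ y.1) :
    ¬ Cc W n g z := by
  rintro ⟨q, hq, hP⟩
  obtain ⟨r, s, hr, hs, hQ⟩ := h.vert
  obtain ⟨y, hy1, hy2⟩ := cross hP (fun z hz => ⟨hz.1, hz.2.1⟩) hQ hr hs hz (by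
    intro y hy hyq
    have := h.gs hy
    unfold X at this hq
    omega)
  exact hy1.2.2 hy2

lemma Cr.left (h : Cr W n g) {z : ℤ × ℤ} (hz : X z < 0) : ¬ Cc W n g z := by
  apply h.sep
  intro y hy hyz
  have := h.gs hy
  unfold X at this hz
  omega

end

/-- An orbit leaves a finite set of states if the predecessor of its start is not in it. -/
lemma leave {B : ℤ × ℤ → Prop} {s : (ℤ × ℤ) × (ℤ × ℤ)} (hs : Val B s)
    (Q : Finset ((ℤ × ℤ) × (ℤ × ℤ))) (hp : prv B s ∉ Q) :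
    ∃ k, (∀ i < k, it B s i ∈ Q) ∧ it B s k ∉ Q := by
  classical
  by_cases hex : ∃ k, it B s k ∉ Q
  · refine ⟨Nat.find hex, fun i hi => ?_, Nat.find_spec hex⟩
    have := Nat.find_min hex hi
    push Not at this
    exact this
  · exfalso
    push Not at hex
    obtain ⟨i, j, hij, he⟩ : ∃ i j : ℕ, i ≠ j ∧ it B s i = it B s j := by
      obtain ⟨i, j, hij, he⟩ := Finite.exists_ne_map_eq_of_infinite
        (fun i : ℕ => (⟨it B s i, hex i⟩ : {y // y ∈ Q}))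
      exact ⟨i, j, hij, by simpa using he⟩
    have hper : ∃ k, 0 < k ∧ it B s k = s := by
      rcases Nat.lt_or_gt_of_ne hij with h | h
      · refine ⟨j - i, by omega, it_inj hs i (j - i) ?_⟩
        rw [show i + (j - i) = j by omega]; exact he.symm
      · refine ⟨i - j, by omega, it_inj hs j (i - j) ?_⟩
        rw [show j + (i - j) = i by omega]; exact he
    obtain ⟨k, hk, hk'⟩ := hper
    obtain ⟨k, rfl⟩ : ∃ m, k = m + 1 := ⟨k - 1, by omega⟩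
    rw [it_succ] at hk'
    have h1 := congrArg (prv B) hk'
    rw [prv_nxt (val_it hs k)] at h1
    rw [← h1] at hp
    exact hp (hex k)

lemma CC_eq (B : ℤ × ℤ → Prop) (s : (ℤ × ℤ) × (ℤ × ℤ)) (i : ℕ) :
    CC B s i = LL B s i + rot (RR B s i - LL B s i) := by
  unfold CC RR LL
  rw [add_sub_cancel_left]

end Pool.Agent.H52.Tri
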