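import Mathlib
import Pool.Agent.H52.Tri.Refl

set_option autoImplicit false
open Finset

/-! The alternative in the domain beside `g` and its reflection. -/

namespace Pool.Agent.H52.Tri

open Pool.Agent.H75.Perc

/-- target: the top row, or next to the upper half of the right side -/
def Tgt (W n : ℤ) (y : ℤ × ℤ) : Prop :=
  y.2 = 2 * n ∨ ∃ w, TA y w ∧ W < X w ∧ n ≤ w.2 ∧ w.2 ≤ 2 * n

section

variable (W n : ℤ) (g : ℤ × ℤ → Prop) (ω : Finset (ℤ × ℤ))

/-- path from `g` to the target -/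
def Yg : Prop := ∃ z y, g z ∧ Tgt W n y ∧
  Pa (fun u => g u ∨ (u ∈ ω ∧ Cc W n g u ∧ X u ≤ W)) z y

/-- the colouring -/
def Bf (z : ℤ × ℤ) : Prop := 2 * n < z.2 ∨ (0 ≤ z.2 ∧ z.2 ≤ 2 * n ∧
  ((W < X z ∧ n ≤ z.2) ∨ (X z ≤ W ∧ Cc W n g z ∧ z ∈ ω) ∨ (¬ Cc W n g z ∧ z.2 ≤ n)))

/-- allowed sites -/
def AA (z : ℤ × ℤ) : Prop := -2 * n - 4 ≤ z.1 ∧ 0 ≤ z.2 ∧ z.2 ≤ 2 * n ∧ X z ≤ W

/-- start -/
def st2 : (ℤ × ℤ) × (ℤ × ℤ) := ((-2 * n - 4, n + 1), (0, -1))

variable {W n g ω}

lemma Bf_left (h : Cr W n g) {z : ℤ × ℤ} (hz : X z < 0) (h0 : 0 ≤ z.2) (h1 : z.2 ≤ 2 * n) :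
    Bf W n g ω z ↔ z.2 ≤ n := by
  have hW : 0 ≤ W := by
    obtain ⟨p, q, _, _, hpq, _⟩ := h.ex
    have := h.sub p hpq.left
    omega
  have hc := h.left hz
  unfold Bf
  constructor
  · rintro (h2 | ⟨_, _, ⟨h2, _⟩ | ⟨_, h2, _⟩ | ⟨_, h2⟩⟩)
    · omega
    · omega
    · exact absurd h2 hc
    · exact h2
  · intro h2
    right
    exact ⟨h0, h1, Or.inr (Or.inr ⟨hc, h2⟩)⟩

lemma Val_st2 (h : Cr W n g) (hn : 1 ≤ n) : Val (Bf W n g ω) (st2 n) := by
  refine ⟨?_, ?_, ?_⟩
  · simp [st2, U6]
  · have e : (st2 n).1 = (-2 * n - 4, n + 1) := rfl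
    rw [e, Bf_left h (by unfold X; simp only; omega) (by simp only; omega) (by simp only; omega)]
    simp only
    omega
  · have e : (st2 n).1 + (st2 n).2 = (-2 * n - 4, n) := by
      unfold st2; refine Prod.ext ?_ ?_ <;> simp
    rw [e, Bf_left h (by unfold X; simp only; omega) (by simp only; omega) (by simp only; omega)]

lemma prv_st2 (h : Cr W n g) (hn : 1 ≤ n) :
    prv (Bf W n g ω) (st2 n) = ((-2 * n - 5, n + 1), (1, -1)) := by
  have e : (st2 n).1 + rotI (st2 n).2 = (-2 * n - 5, n + 1) := by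
    unfold st2 rotI; refine Prod.ext ?_ ?_ <;> simp <;> ring
  unfold prv
  rw [if_neg]
  · rw [e]
    unfold st2 rot
    simp
  · rw [e, Bf_left h (by unfold X; simp only; omega) (by simp only; omega) (by simp only; omega)]
    simp only
    omega

/-- The exit alternative. -/
lemma exit_alt (h : Cr W n g) (hn : 1 ≤ n) :
    ∃ k, (∀ i ≤ k, AA W n (LL (Bf W n g ω) (st2 n) i) ∧ AA W n (RR (Bf W n g ω) (st2 n) i)) ∧
      ((TA (RR (Bf W n g ω) (st2 n) k) (RR (Bf W n g ω) (st2 n) (k + 1)) ∧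
          (2 * n < (RR (Bf W n g ω) (st2 n) (k + 1)).2 ∨
            (W < X (RR (Bf W n g ω) (st2 n) (k + 1)) ∧ n ≤ (RR (Bf W n g ω) (st2 n) (k + 1)).2 ∧
              (RR (Bf W n g ω) (st2 n) (k + 1)).2 ≤ 2 * n))) ∨
       (TA (LL (Bf W n g ω) (st2 n) k) (LL (Bf W n g ω) (st2 n) (k + 1)) ∧
          ((LL (Bf W n g ω) (st2 n) (k + 1)).2 < 0 ∨
            (W < X (LL (Bf W n g ω) (st2 n) (k + 1)) ∧ 0 ≤ (LL (Bf W n g ω) (st2 n) (k + 1)).2 ∧
              (LL (Bf W n g ω) (st2 n) (k + 1)).2 < n)))) := by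
  classical
  have hW : 0 ≤ W := by
    obtain ⟨p, q, _, _, hpq, _⟩ := h.ex
    have := h.sub p hpq.left
    omega
  have hv := Val_st2 (ω := ω) h hn
  set B := Bf W n g ω with hB
  set Q : Finset ((ℤ × ℤ) × (ℤ × ℤ)) := (((Icc (-2 * n - 4) W) ×ˢ (Icc 0 (2 * n))) ×ˢ
    ((Icc (-1 : ℤ) 1) ×ˢ (Icc (-1 : ℤ) 1))).filter
    (fun s => AA W n s.1 ∧ AA W n (s.1 + s.2)) with hQ
  have memQ : ∀ i, it B (st2 n) i ∈ Q ↔ (AA W n (LL B (st2 n) i) ∧ AA W n (RR B (st2 n) i)) := by
    intro i
    have h3 := (val_it hv i).1.cases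
    rw [hQ, mem_filter]
    constructor
    · intro h'; exact h'.2
    · intro h'
      refine ⟨?_, h'⟩
      have h4 := h'.1
      unfold AA LL X at h4
      rw [mem_product, mem_product, mem_product, mem_Icc, mem_Icc, mem_Icc, mem_Icc]
      omega
  obtain ⟨k, hk1, hk2⟩ := leave hv Q (by
    rw [prv_st2 h hn, hQ, mem_filter]
    rintro ⟨_, h1, _⟩
    unfold AA at h1
    simp only at h1
    omega)
  have h0 : it B (st2 n) 0 ∈ Q := by
    rw [memQ]
    have e1 : LL B (st2 n) 0 = (-2 * n - 4, n + 1) := rfl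
    have e2 : RR B (st2 n) 0 = (-2 * n - 4, n) := by
      show (st2 n).1 + (st2 n).2 = _
      unfold st2; refine Prod.ext ?_ ?_ <;> simp
    rw [e1, e2]
    unfold AA X
    simp only
    omega
  obtain ⟨k, rfl⟩ : ∃ m, k = m + 1 := by
    rcases Nat.eq_zero_or_pos k with h1 | h1
    · rw [h1] at hk2; exact absurd h0 hk2
    · exact ⟨k - 1, by omega⟩
  refine ⟨k, fun i hi => (memQ i).1 (hk1 i (by omega)), ?_⟩
  have hk := (memQ k).1 (hk1 k (by omega))
  rw [memQ] at hk2
  have hLB := notB_LL hv k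
  have hRB := B_RR hv k
  have hLB' := notB_LL hv (k + 1)
  have hRB' := B_RR hv (k + 1)
  have hlr := (TA_LR hv k).cases
  have hCC := CC_eq B (st2 n) k
  rcases step_cases hv k with ⟨hc, h2, h3, h4⟩ | ⟨hc, h2, h3, h4⟩
  · left
    refine ⟨h4, ?_⟩
    have hA : ¬ AA W n (RR B (st2 n) (k + 1)) := by
      intro h5; exact hk2 ⟨by rw [h2]; exact hk.1, h5⟩
    by_cases c1 : 2 * n < (RR B (st2 n) (k + 1)).2
    · exact Or.inl c1
    right
    have c2 : 0 ≤ (RR B (st2 n) (k + 1)).2 := by
      rcases hRB' with h5 | h5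
      · have h6 : 2 * n < (RR B (st2 n) (k + 1)).2 := h5
        omega
      · exact h5.1
    by_cases c3 : W < X (RR B (st2 n) (k + 1))
    · refine ⟨c3, ?_, by omega⟩
      rcases hRB' with h5 | ⟨_, _, h5 | h5 | h5⟩
      · omega
      · exact h5.2
      · omega
      · exact absurd (h.right c2 (by omega) c3) h5.1
    · -- exit to the left
      exfalso
      have c4 : (RR B (st2 n) (k + 1)).1 < -2 * n - 4 := by
        by_contra c5
        exact hA ⟨by omega, c2, by omega, by omega⟩
      have h4' := h4.cases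
      have hk' := hk
      unfold AA at hk'
      have x1 : X (RR B (st2 n) k) < 0 := by unfold X; omega
      have hta1 := (TA_LR hv (k + 1)).cases
      rw [h2] at hta1
      have x2 : X (LL B (st2 n) k) < 0 := by unfold X; omega
      rw [hB, Bf_left h x1 (by omega) (by omega)] at hRB
      rw [hB, Bf_left h x2 (by omega) (by omega)] at hLB
      rw [← h3] at hCC
      have e2 := congrArg Prod.fst hCC
      have e3 := congrArg Prod.snd hCC
      unfold rot at e2 e3
      simp only [Prod.fst_add, Prod.snd_add, Prod.fst_sub, Prod.snd_sub] at e2 e3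
      omega
  · right
    refine ⟨h4, ?_⟩
    have hA : ¬ AA W n (LL B (st2 n) (k + 1)) := by
      intro h5; exact hk2 ⟨h5, by rw [h3]; exact hk.2⟩
    by_cases c1 : (LL B (st2 n) (k + 1)).2 < 0
    · exact Or.inl c1
    right
    have c2 : (LL B (st2 n) (k + 1)).2 ≤ 2 * n := by
      by_contra h5
      exact hLB' (Or.inl (by omega))
    by_cases c3 : W < X (LL B (st2 n) (k + 1))
    · refine ⟨c3, by omega, ?_⟩
      by_contra h5
      exact hLB' (Or.inr ⟨by omega, by omega, Or.inl ⟨c3, by omega⟩⟩)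
    · exfalso
      have c4 : (LL B (st2 n) (k + 1)).1 < -2 * n - 4 := by
        by_contra c5
        exact hA ⟨by omega, by omega, c2, by omega⟩
      have h4' := h4.cases
      have hk' := hk
      unfold AA at hk'
      have x1 : X (LL B (st2 n) k) < 0 := by unfold X; omega
      have hta1 := (TA_LR hv (k + 1)).cases
      rw [h3] at hta1
      have x2 : X (RR B (st2 n) k) < 0 := by unfold X; omega
      rw [hB, Bf_left h x2 (by omega) (by omega)] at hRB
      rw [hB, Bf_left h x1 (by omega) (by omega)] at hLB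
      rw [← h2] at hCC
      have e2 := congrArg Prod.fst hCC
      have e3 := congrArg Prod.snd hCC
      unfold rot at e2 e3
      simp only [Prod.fst_add, Prod.snd_add, Prod.fst_sub, Prod.snd_sub] at e2 e3
      omega

/-- reflection and colour flip -/
noncomputable def flip (W n : ℤ) (ω : Finset (ℤ × ℤ)) : Finset (ℤ × ℤ) :=
  (Rct W (2 * n)).filter (fun z => sg n z ∉ ω)

lemma mem_R2 {z : ℤ × ℤ} : z ∈ Rct W (2 * n) ↔ 0 ≤ X z ∧ X z ≤ W ∧ 0 ≤ z.2 ∧ z.2 ≤ 2 * n := mem_Rct

/-- The alternative. -/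
theorem alt (h : Cr W n g) (hn : 1 ≤ n) (ω : Finset (ℤ × ℤ)) :
    Yg W n g ω ∨ Yg W n g (flip W n ω) := by
  obtain ⟨k, hk, hex⟩ := exit_alt (ω := ω) h hn
  have hv := Val_st2 (ω := ω) h hn
  set B := Bf W n g ω with hB
  rcases hex with ⟨h4, hex⟩ | ⟨h4, hex⟩
  · left
    set y := RR B (st2 n) k with hy
    have hyA : AA W n y := (hk k le_rfl).2
    have hyB : B y := B_RR hv k
    have hT : Tgt W n y := by
      rcases hex with hex | hex
      · left
        have := h4.cases
        unfold AA at hyA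
        omega
      · right
        exact ⟨_, h4, hex⟩
    have hP : Pa (fun z => B z ∧ AA W n z) (RR B (st2 n) 0) y := by
      have := pa_RR hv 0 k
      rw [zero_add] at this
      refine this.mono ?_
      rintro z ⟨j, _, hj, rfl⟩
      exact ⟨B_RR hv j, (hk j (by omega)).2⟩
    have hgs : ∀ z, ¬ Cc W n g z → B z → AA W n z → ∀ w, Cc W n g w → TA z w → g z := by
      intro z hz hBz hAz w hw hzw
      have h5 := adj hz hAz.2.1 hAz.2.2.1 hw hzw
      have h6 : z.2 ≤ n := by
        rcases hBz with h7 | ⟨_, _, h7 | h7 | h7⟩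
        · have := hAz.2.2.1; omega
        · have := hAz.2.2.2; omega
        · exact absurd h7.2.1 hz
        · exact h7.2
      rcases h5 with h5 | h5
      · exact h5
      · have h8 := h.sub _ h5
        rw [sg_snd] at h8
        rwa [sg_row (by omega)] at h5
    by_cases hyC : Cc W n g y
    · rcases hP.last (K := fun z => ¬ Cc W n g z) (by simpa using hyC) with h5 | ⟨z, w, h5, h6, h7, h8⟩
      · exfalso
        have h6 := h5.left.2
        have e2 : RR B (st2 n) 0 = (-2 * n - 4, n) := by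
          show (st2 n).1 + (st2 n).2 = _
          unfold st2; refine Prod.ext ?_ ?_ <;> simp
        rw [e2] at h6
        apply h6
        apply h.left
        unfold X
        simp only
        omega
      · have hw : Cc W n g w := by
          have := h8.left.2
          simpa using this
        have hgz := hgs z h6 h5.right.1 h5.right.2 w hw h7
        refine ⟨z, y, hgz, hT, Pa.head (Or.inl hgz) h7 (h8.mono ?_)⟩
        rintro u ⟨⟨hu1, hu2⟩, hu3⟩
        have hu3' : Cc W n g u := by simpa using hu3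
        right
        rcases hu1 with h9 | ⟨_, _, h9 | h9 | h9⟩
        · have := hu2.2.2.1; omega
        · have := hu2.2.2.2; omega
        · exact ⟨h9.2.2, hu3', h9.1⟩
        · exact absurd hu3' h9.1
    · rcases hT with hT | ⟨w, hw1, hw2, hw3, hw4⟩
      · exfalso
        rcases hyB with h7 | ⟨_, _, h7 | h7 | h7⟩
        · omega
        · have := hyA.2.2.2; omega
        · exact hyC h7.2.1
        · have := h7.2; omega
      · have hgy := hgs y hyC hyB hyA w (h.right (by omega) hw4 hw2) hw1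
        exact ⟨y, y, hgy, Or.inr ⟨w, hw1, hw2, hw3, hw4⟩, Pa.refl (Or.inl hgy)⟩
  · right
    set y := LL B (st2 n) k with hy
    have hyA : AA W n y := (hk k le_rfl).1
    have hyB : ¬ B y := notB_LL hv k
    have hT : Tgt W n (sg n y) := by
      rcases hex with hex | hex
      · left
        have := h4.cases
        unfold AA at hyA
        rw [sg_snd]
        omega
      · right
        exact ⟨_, TA_sg n h4, by rw [X_sg]; exact hex.1, by rw [sg_snd]; omega,
          by rw [sg_snd]; omega⟩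
    have hP : Pa (fun z => ¬ B z ∧ AA W n z) (LL B (st2 n) 0) y := by
      have := pa_LL hv 0 k
      rw [zero_add] at this
      refine this.mono ?_
      rintro z ⟨j, _, hj, rfl⟩
      exact ⟨notB_LL hv j, (hk j (by omega)).1⟩
    have hrow : ∀ z, ¬ Cc W n g z → ¬ B z → AA W n z → n < z.2 := by
      intro z hz hBz hAz
      by_contra h5
      exact hBz (Or.inr ⟨hAz.2.1, hAz.2.2.1, Or.inr (Or.inr ⟨hz, by omega⟩)⟩)
    have hgs : ∀ z, ¬ Cc W n g z → ¬ B z → AA W n z → ∀ w, Cc W n g w → TA z w → g (sg n z) := by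
      intro z hz hBz hAz w hw hzw
      have h5 := adj hz hAz.2.1 hAz.2.2.1 hw hzw
      have h6 := hrow z hz hBz hAz
      rcases h5 with h5 | h5
      · have h8 := h.sub _ h5
        omega
      · exact h5
    by_cases hyC : Cc W n g y
    · rcases hP.last (K := fun z => ¬ Cc W n g z) (by simpa using hyC) with h5 | ⟨z, w, h5, h6, h7, h8⟩
      · exfalso
        have h6 := h5.left.2
        have e2 : LL B (st2 n) 0 = (-2 * n - 4, n + 1) := rfl
        rw [e2] at h6
        apply h6
        apply h.left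
        unfold X
        simp only
        omega
      · have hw : Cc W n g w := by
          have := h8.left.2
          simpa using this
        have hgz := hgs z h6 h5.right.1 h5.right.2 w hw h7
        refine ⟨sg n z, sg n y, hgz, hT, Pa.head (Or.inl hgz) (TA_sg n h7)
          (pa_map (sg n) (fun a b hab => TA_sg n hab) ?_ h8)⟩
        rintro u ⟨⟨hu1, hu2⟩, hu3⟩
        have hu3' : Cc W n g u := by simpa using hu3
        have hx : 0 ≤ X u := by
          by_contra h9
          exact h.left (by omega) hu3'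
        right
        refine ⟨?_, Cc_sg.2 hu3', by rw [X_sg]; exact hu2.2.2.2⟩
        unfold flip
        rw [mem_filter, sg_sg, mem_Rct, X_sg, sg_snd]
        refine ⟨⟨hx, hu2.2.2.2, ?_, ?_⟩, ?_⟩
        · have := hu2.2.2.1; omega
        · have := hu2.2.1; omega
        · intro h9
          exact hu1 (Or.inr ⟨hu2.2.1, hu2.2.2.1, Or.inr (Or.inl ⟨hu2.2.2.2, hu3', h9⟩)⟩)
    · exfalso
      have h5 := hrow y hyC hyB hyA
      have := h4.cases
      omega

end

end Pool.Agent.H52.Tri
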