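import Mathlib
import Pool.Agent.H52.Tri.Refl2
import Pool.Agent.H75.Perc.RswC

set_option autoImplicit false
open Finset

/-! Exploration of the lower half from the left, resampling. -/

namespace Pool.Agent.H52.Tri

open Pool.Agent.H75.Perc

section

variable (W n : ℤ) (ω : Finset (ℤ × ℤ))

/-- black sites of the lower half -/
def Bs (z : ℤ × ℤ) : Prop := z ∈ ω ∧ z ∈ Rct W n

noncomputable def L0 (i : ℕ) : ℤ × ℤ := LL (ext n (Bs W n ω)) (st (-n - 2)) i
noncomputable def R0 (i : ℕ) : ℤ × ℤ := RR (ext n (Bs W n ω)) (st (-n - 2)) i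

/-- `k` is the first time at which row `n+1` is visited -/
def Hit (k : ℕ) : Prop := n < (R0 W n ω k).2 ∧ ∀ i < k, (R0 W n ω i).2 ≤ n

/-- the crossing: black sites visited after the last visit below row `0` -/
def G1 (k : ℕ) (z : ℤ × ℤ) : Prop :=
  ∃ i < k, (∀ i', i ≤ i' → i' < k → 0 ≤ (R0 W n ω i').2) ∧ z = R0 W n ω i

variable {W n ω}

lemma Bs_far (hn : 1 ≤ n) : ∀ z : ℤ × ℤ, 0 ≤ z.2 → z.2 ≤ n → z.1 ≤ -n - 2 + 1 → ¬ Bs W n ω z := by
  rintro z h1 h2 h3 ⟨_, h4⟩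
  rw [mem_Rct] at h4
  unfold X at h4
  omega

lemma val0 (hn : 1 ≤ n) : Val (ext n (Bs W n ω)) (st (-n - 2)) :=
  val_st (by omega) (Bs_far hn _ le_rfl (by simp only; omega) (by simp))

lemma Hit.unique {k k' : ℕ} (h : Hit W n ω k) (h' : Hit W n ω k') : k = k' := by
  rcases lt_trichotomy k k' with h1 | h1 | h1
  · have := h'.2 k h1
    have := h.1
    omega
  · exact h1
  · have := h.2 k' h1
    have := h'.1
    omega

lemma R0_zero : (R0 W n ω 0).2 = -1 := by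
  show ((st (-n - 2)).1 + (st (-n - 2)).2).2 = -1
  unfold st; simp

/-- if the lower half is crossed then row `n+1` is reached -/
lemma hit_of_VCr (hn : 1 ≤ n) (hW : 0 ≤ W) (h : VCr W n ω) : ∃ k, Hit W n ω k := by
  classical
  by_contra hcon
  have hR : ∀ i, (R0 W n ω i).2 ≤ n := by
    by_contra hex
    push Not at hex
    refine hcon ⟨Nat.find hex, Nat.find_spec hex, fun i hi => ?_⟩
    have := Nat.find_min hex hi
    omega
  obtain ⟨i, hi, _⟩ := far_right (by omega) (Bs_far hn) hR (W + 1) (by omega)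
  have hP := pa_LL (val0 (W := W) (ω := ω) hn) 0 i
  rw [zero_add] at hP
  obtain ⟨p, q, hp, hq, hpq⟩ := h
  obtain ⟨z, ⟨j, _, _, hj⟩, hz2⟩ := cross (B := fun z => z ∈ ω ∧ z ∈ Rct W n) hP (by
    rintro z ⟨j, _, _, rfl⟩
    exact (LL_rows (val0 hn) j).2) hpq hp hq (by
    intro z hz hz'
    have e : LL (ext n (Bs W n ω)) (st (-n - 2)) 0 = (-n - 2, 0) := rfl
    rw [e] at hz' ⊢
    have := mem_Rct.1 hz.2
    unfold X at this
    simp only at hz' ⊢
    omega) (by
    intro z hz _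
    rw [hi]
    have := mem_Rct.1 hz.2
    unfold X at this
    omega)
  rw [hj] at hz2
  exact (LL_rows (val0 (W := W) (ω := ω) hn) j).1 hz2

lemma G1_sub (hn : 1 ≤ n) {k : ℕ} (hk : Hit W n ω k) {z : ℤ × ℤ} (hz : G1 W n ω k z) :
    z ∈ ω ∧ z ∈ Rct W n := by
  obtain ⟨i, hi, h1, rfl⟩ := hz
  have h2 := B_RR (val0 (W := W) (ω := ω) hn) i
  have h3 := h1 i le_rfl hi
  have h4 := hk.2 i hi
  rcases h2 with h2 | h2 | h2
  · exact h2
  · unfold R0 at h3; omega
  · unfold R0 at h4; omega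

lemma G1_cr (hn : 1 ≤ n) {k : ℕ} (hk : Hit W n ω k) : Cr W n (G1 W n ω k) := by
  classical
  refine ⟨fun z hz => mem_Rct.1 (G1_sub hn hk hz).2, ?_⟩
  have hv := val0 (W := W) (ω := ω) hn
  have hR0 : ∀ i, (R0 W n ω (i + 1) = R0 W n ω i) ∨ TA (R0 W n ω i) (R0 W n ω (i + 1)) := by
    intro i
    rcases step_cases hv i with ⟨_, _, _, h⟩ | ⟨_, _, h, _⟩
    · exact Or.inr h
    · exact Or.inl h
  have hex : ∃ i, i ≤ k ∧ ∀ i', i ≤ i' → i' < k → 0 ≤ (R0 W n ω i').2 :=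
    ⟨k, le_rfl, fun i' h1 h2 => absurd h2 (by omega)⟩
  set i0 := Nat.find hex with hi0
  have h0 := Nat.find_spec hex
  rw [← hi0] at h0
  have hpos : 0 < i0 := by
    by_contra h1
    have h2 : i0 = 0 := by omega
    rw [h2] at h0
    rcases Nat.eq_zero_or_pos k with h3 | h3
    · have := hk.1
      rw [h3, R0_zero] at this
      omega
    · have := h0.2 0 le_rfl h3
      rw [R0_zero] at this
      omega
  have hprev : (R0 W n ω (i0 - 1)).2 < 0 := by
    by_contra h1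
    push Not at h1
    refine Nat.find_min hex (m := i0 - 1) (by omega) ⟨by omega, fun i' h2 h3 => ?_⟩
    rcases Nat.eq_or_lt_of_le h2 with h4 | h4
    · rw [← h4]; exact h1
    · exact h0.2 i' (by omega) h3
  have hstep0 := hR0 (i0 - 1)
  rw [show i0 - 1 + 1 = i0 by omega] at hstep0
  have hi0k : i0 < k := by
    by_contra h1
    have h2 : i0 = k := by omega
    have h3 := hk.1
    rw [← h2] at h3
    rcases hstep0 with h4 | h4
    · rw [h4] at h3; omega
    · have := h4.cases; omega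
  have hrow0 : (R0 W n ω i0).2 = 0 := by
    have h1 := h0.2 i0 le_rfl hi0k
    rcases hstep0 with h4 | h4
    · rw [h4] at h1; omega
    · have := h4.cases; omega
  have hstepk := hR0 (k - 1)
  rw [show k - 1 + 1 = k by omega] at hstepk
  have hrown : (R0 W n ω (k - 1)).2 = n := by
    have h1 := hk.2 (k - 1) (by omega)
    have h2 := hk.1
    rcases hstepk with h4 | h4
    · rw [h4] at h2; omega
    · have := h4.cases; omega
  have hcon : ∀ i, i0 ≤ i → i < k → Pa (G1 W n ω k) (R0 W n ω i0) (R0 W n ω i) := by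
    intro i h1 h2
    have h3 := pa_RR hv i0 (i - i0)
    rw [show i0 + (i - i0) = i by omega] at h3
    refine h3.mono ?_
    rintro z ⟨j, hj1, hj2, rfl⟩
    exact ⟨j, by omega, fun i' h4 h5 => h0.2 i' (by omega) h5, rfl⟩
  refine ⟨R0 W n ω i0, R0 W n ω (k - 1), hrow0, hrown, hcon _ (by omega) (by omega), ?_⟩
  rintro z ⟨i, hi, h1, rfl⟩
  refine hcon i ?_ hi
  exact Nat.find_min' hex ⟨hi.le, h1⟩

/-- explored sites are not in the component -/
lemma L0_not (hn : 1 ≤ n) {k : ℕ} (hk : Hit W n ω k) (i : ℕ) : ¬ Cc W n (G1 W n ω k) (L0 W n ω i) := by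
  have hcr := G1_cr hn hk
  have hv := val0 (W := W) (ω := ω) hn
  have hnot : ∀ j, Fr n (G1 W n ω k) (L0 W n ω j) := by
    intro j
    have h1 := LL_rows hv j
    refine ⟨h1.2.1, by have := h1.2.2; unfold L0; omega, ?_⟩
    rintro (h2 | h2)
    · exact h1.1 (G1_sub hn hk h2)
    · have h3 := (G1_sub hn hk h2)
      have h4 := mem_Rct.1 h3.2
      rw [sg_snd] at h4
      have h5 := h1.2.2
      have h6 : (L0 W n ω j).2 = n := by unfold L0 at h4 ⊢; omega
      rw [sg_row h6] at h3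
      exact h1.1 h3
  intro hC
  obtain ⟨q, hq, hP⟩ := hC
  have h3 := pa_LL hv 0 i
  rw [zero_add] at h3
  have h4 : Pa (Fr n (G1 W n ω k)) (L0 W n ω 0) (L0 W n ω i) := by
    refine h3.mono ?_
    rintro z ⟨j, _, _, rfl⟩
    exact hnot j
  refine hcr.left ?_ ⟨q, hq, h4.trans hP⟩
  have e : L0 W n ω 0 = (-n - 2, 0) := rfl
  rw [e]
  unfold X
  simp only
  omega

lemma R0_not (hn : 1 ≤ n) {k : ℕ} (hk : Hit W n ω k) {i : ℕ} (hr : (R0 W n ω i).2 ≤ n) :
    ¬ Cc W n (G1 W n ω k) (R0 W n ω i) := by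
  intro hC
  have hv := val0 (W := W) (ω := ω) hn
  have h1 := LL_rows hv i
  have h2 : Fr n (G1 W n ω k) (L0 W n ω i) := by
    refine ⟨h1.2.1, by have := h1.2.2; unfold L0; omega, ?_⟩
    rintro (h2 | h2)
    · exact h1.1 (G1_sub hn hk h2)
    · have h3 := (G1_sub hn hk h2)
      have h4 := mem_Rct.1 h3.2
      rw [sg_snd] at h4
      have h5 := h1.2.2
      have h6 : (L0 W n ω i).2 = n := by unfold L0 at h4 ⊢; omega
      rw [sg_row h6] at h3
      exact h1.1 h3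
  exact L0_not hn hk i (hC.step (TA_LR hv i) h2)

/-- locality -/
lemma Hit.agree (hn : 1 ≤ n) {k : ℕ} (hk : Hit W n ω k) {ω' : Finset (ℤ × ℤ)}
    (h : ∀ z ∈ Rct W n, ¬ Cc W n (G1 W n ω k) z → (z ∈ ω' ↔ z ∈ ω)) :
    Hit W n ω' k ∧ G1 W n ω' k = G1 W n ω k := by
  have hv := val0 (W := W) (ω := ω) hn
  have hloc := it_local (B := ext n (Bs W n ω)) (B' := ext n (Bs W n ω')) (st (-n - 2)) k (by
    intro i hi
    set c := CC (ext n (Bs W n ω)) (st (-n - 2)) i with hc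
    by_cases hcR : c ∈ Rct W n
    · have hr := mem_Rct.1 hcR
      have hnc : ¬ Cc W n (G1 W n ω k) c := by
        rcases step_cases hv i with ⟨_, _, h3, _⟩ | ⟨_, h3, _, _⟩
        · have := R0_not hn hk (i := i + 1) (by unfold R0; rw [h3]; exact hr.2.2.2)
          unfold R0 at this
          rwa [h3] at this
        · have := L0_not hn hk (i + 1)
          unfold L0 at this
          rwa [h3] at this
      have := h c hcR hnc
      unfold ext Bs
      rw [this]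
    · unfold ext Bs
      constructor
      · rintro (h1 | h1)
        · exact absurd h1.2 hcR
        · exact Or.inr h1
      · rintro (h1 | h1)
        · exact absurd h1.2 hcR
        · exact Or.inr h1)
  have hR : ∀ i ≤ k, R0 W n ω' i = R0 W n ω i := by
    intro i hi
    unfold R0 RR
    rw [hloc i hi]
  refine ⟨⟨?_, ?_⟩, ?_⟩
  · rw [hR k le_rfl]; exact hk.1
  · intro i hi
    rw [hR i hi.le]; exact hk.2 i hi
  · funext z
    apply propext
    unfold G1
    constructor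
    · rintro ⟨i, hi, h1, h2⟩
      refine ⟨i, hi, fun i' h3 h4 => ?_, ?_⟩
      · rw [← hR i' h4.le]; exact h1 i' h3 h4
      · rw [← hR i hi.le]; exact h2
    · rintro ⟨i, hi, h1, h2⟩
      refine ⟨i, hi, fun i' h3 h4 => ?_, ?_⟩
      · rw [hR i' h4.le]; exact h1 i' h3 h4
      · rw [hR i hi.le]; exact h2

variable (W n) in
open Classical in
/-- the stopping set -/
noncomputable def UU (ω : Finset (ℤ × ℤ)) : Finset (ℤ × ℤ) :=
  if h : ∃ k, Hit W n ω k then
    (Rct W (2 * n)).filter (fun z => ¬ Cc W n (G1 W n ω h.choose) z)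
  else Rct W (2 * n)

open Classical in
lemma UU_eq {k : ℕ} (hk : Hit W n ω k) :
    UU W n ω = (Rct W (2 * n)).filter (fun z => ¬ Cc W n (G1 W n ω k) z) := by
  have hex : ∃ k, Hit W n ω k := ⟨k, hk⟩
  unfold UU
  rw [dif_pos hex, hex.choose_spec.unique hk]

lemma Rct_half (hn : 1 ≤ n) : Rct W n ⊆ Rct W (2 * n) := by
  intro z hz
  rw [mem_Rct] at hz ⊢
  omega

lemma UU_mix (hn : 1 ≤ n) {ω ω' : Finset (ℤ × ℤ)} (h1 : ω ⊆ Rct W (2 * n))
    (h2 : ω' ⊆ Rct W (2 * n)) : UU W n (mix (UU W n ω) ω ω') = UU W n ω := by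
  classical
  by_cases h : ∃ k, Hit W n ω k
  · obtain ⟨k, hk⟩ := h
    obtain ⟨h3, h4⟩ := hk.agree hn (ω' := mix (UU W n ω) ω ω') (by
      intro z hz hC
      rw [mem_mix]
      have : z ∈ UU W n ω := by
        rw [UU_eq hk, mem_filter]
        exact ⟨Rct_half hn hz, hC⟩
      tauto)
    rw [UU_eq h3, h4, UU_eq hk]
  · have e1 : UU W n ω = Rct W (2 * n) := by unfold UU; rw [dif_neg h]
    have e2 : mix (UU W n ω) ω ω' = ω := by
      rw [e1]
      ext e
      rw [mem_mix]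
      constructor
      · rintro (h3 | h3)
        · exact h3.1
        · exact absurd (h2 h3.1) h3.2
      · intro h3; exact Or.inl ⟨h3, h1 h3⟩
    rw [e2]

variable (W n) in
/-- crossing from row `0` to the target -/
def Mp (ω : Finset (ℤ × ℤ)) : Prop := ∃ p q : ℤ × ℤ, p.2 = 0 ∧ Tgt W n q ∧
  Pa (fun z => z ∈ ω ∧ z ∈ Rct W (2 * n)) p q

lemma Mp_inc : Inc (Mp W n) := by
  rintro ω ω' h ⟨p, q, h1, h2, h3⟩
  exact ⟨p, q, h1, h2, h3.mono fun z hz => ⟨h hz.1, hz.2⟩⟩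

/-- the fresh event -/
def Yf (W n : ℤ) (ω ω' : Finset (ℤ × ℤ)) : Prop := ∃ k, Hit W n ω k ∧ Yg W n (G1 W n ω k) ω'

lemma Yf_Mp (hn : 1 ≤ n) {ω ω' : Finset (ℤ × ℤ)} (hY : Yf W n ω ω') :
    Mp W n (mix (UU W n ω) ω ω') := by
  classical
  obtain ⟨k, hk, z, y, hz, hT, hP⟩ := hY
  have hcr := G1_cr hn hk
  obtain ⟨p, q, hp, hq, _, hall⟩ := hcr.ex
  have hsub : ∀ u, G1 W n ω k u → u ∈ mix (UU W n ω) ω ω' ∧ u ∈ Rct W (2 * n) := by
    intro u hu
    have h1 := G1_sub hn hk hu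
    have h2 := Rct_half hn h1.2
    refine ⟨?_, h2⟩
    rw [mem_mix]
    left
    refine ⟨h1.1, ?_⟩
    rw [UU_eq hk, mem_filter]
    refine ⟨h2, fun hC => hC.fr.2.2 (Or.inl hu)⟩
  refine ⟨p, y, hp, hT, ((hall z hz).mono hsub).trans (hP.mono ?_)⟩
  rintro u (hu | ⟨hu1, hu2, hu3⟩)
  · exact hsub u hu
  · have hx : 0 ≤ X u := by
      by_contra h9
      exact hcr.left (by omega) hu2
    refine ⟨?_, mem_Rct.2 ⟨hx, hu3, hu2.fr.1, hu2.fr.2.1⟩⟩
    rw [mem_mix]
    right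
    refine ⟨hu1, ?_⟩
    rw [UU_eq hk, mem_filter]
    rintro ⟨_, h2⟩
    exact h2 hu2

end

end Pool.Agent.H52.Tri
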