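import Mathlib
import Pool.Agent.H52.Tri.Refl3

set_option autoImplicit false
open Finset

/-! Doubling of the height: `pV W n ^ 2 / 4 ≤ pV W (2 n)`. -/

namespace Pool.Agent.H52.Tri

open Pool.Agent.H75.Perc

lemma Pr_invol {α : Type*} [DecidableEq α] (E : Finset α) (f : Finset α → Finset α)
    (h1 : ∀ ω, ω ⊆ E → f ω ⊆ E) (h2 : ∀ ω, ω ⊆ E → f (f ω) = ω) (A : Finset α → Prop) :
    Pr E (fun ω => A (f ω)) = Pr E A := by
  classical
  rw [Pr_eq, Pr_eq]
  congr 2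
  apply card_nbij' f f
  · intro ω hω
    rw [mem_coe, mem_filter, mem_powerset] at hω ⊢
    exact ⟨h1 ω hω.1, hω.2⟩
  · intro ω hω
    rw [mem_coe, mem_filter, mem_powerset] at hω ⊢
    exact ⟨h1 ω hω.1, by rw [h2 ω hω.1]; exact hω.2⟩
  · intro ω hω
    rw [mem_coe, mem_filter, mem_powerset] at hω
    exact h2 ω hω.1
  · intro ω hω
    rw [mem_coe, mem_filter, mem_powerset] at hω
    exact h2 ω hω.1

/-- reflection of a configuration -/
noncomputable def rfl' (W n : ℤ) (ω : Finset (ℤ × ℤ)) : Finset (ℤ × ℤ) :=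
  (Rct W (2 * n)).filter (fun z => sg n z ∈ ω)

lemma sg_Rct {W n : ℤ} {z : ℤ × ℤ} (h : z ∈ Rct W (2 * n)) : sg n z ∈ Rct W (2 * n) := by
  rw [mem_Rct] at h ⊢
  rw [X_sg, sg_snd]
  omega

lemma flip_flip {W n : ℤ} {ω : Finset (ℤ × ℤ)} (h : ω ⊆ Rct W (2 * n)) :
    flip W n (flip W n ω) = ω := by
  ext z
  unfold flip
  rw [mem_filter, mem_filter, sg_sg]
  constructor
  · rintro ⟨h1, h2⟩
    by_contra h3
    exact h2 ⟨sg_Rct h1, h3⟩
  · intro h1
    exact ⟨h h1, fun h2 => h2.2 h1⟩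

lemma rfl_rfl {W n : ℤ} {ω : Finset (ℤ × ℤ)} (h : ω ⊆ Rct W (2 * n)) :
    rfl' W n (rfl' W n ω) = ω := by
  ext z
  unfold rfl'
  rw [mem_filter, mem_filter, sg_sg]
  constructor
  · rintro ⟨_, _, h2⟩
    exact h2
  · intro h1
    exact ⟨h h1, sg_Rct (h h1), h1⟩

lemma Pr_Yg {W n : ℤ} {g : ℤ × ℤ → Prop} (h : Cr W n g) (hn : 1 ≤ n) :
    1 / 2 ≤ Pr (Rct W (2 * n)) (Yg W n g) := by
  have h1 : Pr (Rct W (2 * n)) (fun ω => Yg W n g ω ∨ Yg W n g (flip W n ω)) = 1 := by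
    rw [← Pr_true (Rct W (2 * n))]
    exact Pr_congr fun ω _ => by
      constructor
      · intro _; trivial
      · intro _; exact alt h hn ω
  have h2 := Pr_or_le (Rct W (2 * n)) (Yg W n g) (fun ω => Yg W n g (flip W n ω))
  rw [h1, Pr_invol (Rct W (2 * n)) (flip W n) (fun ω _ => filter_subset _ _)
    (fun ω hω => flip_flip hω)] at h2
  linarith

lemma Pr_Mp {W n : ℤ} (hn : 1 ≤ n) (hW : 0 ≤ W) :
    pV W n * (1 / 2) ≤ Pr (Rct W (2 * n)) (Mp W n) := by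
  have h1 := resample (Rct W (2 * n)) (UU W n) (fun ω ω' h1 h2 => UU_mix hn h1 h2) (Mp W n)
    (VCr W n) (Yf W n) (1 / 2) (by
      intro ω _ hV
      obtain ⟨k, hk⟩ := hit_of_VCr hn hW hV
      refine (Pr_Yg (G1_cr hn hk) hn).trans ?_
      exact Pr_mono fun ω' _ hY => ⟨k, hk, hY⟩)
    (fun ω ω' _ _ _ hY => Yf_Mp hn hY)
  rw [Pr_VCr (Rct_half hn)] at h1
  exact h1

/-- gluing -/
lemma Mp_glue {W n : ℤ} (hn : 1 ≤ n) (hpar : ∃ t, W - n = 2 * t) {ω : Finset (ℤ × ℤ)}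
    (h1 : Mp W n ω) (h2 : Mp W n (rfl' W n ω)) : VCr W (2 * n) ω := by
  obtain ⟨t, ht⟩ := hpar
  obtain ⟨p, q, hp, hq, hP⟩ := h1
  obtain ⟨p', q', hp', hq', hP'⟩ := h2
  have hQ : Pa (fun z => z ∈ ω ∧ z ∈ Rct W (2 * n)) (sg n p') (sg n q') := by
    refine pa_map (sg n) (fun a b hab => TA_sg n hab) ?_ hP'
    rintro z ⟨h3, h4⟩
    unfold rfl' at h3
    rw [mem_filter] at h3
    exact ⟨h3.2, sg_Rct h4⟩
  have hp'2 : (sg n p').2 = 2 * n := by rw [sg_snd, hp']; ring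
  have hq'T : (sg n q').2 = 0 ∨ ∃ w, TA (sg n q') w ∧ W < X w ∧ 0 ≤ w.2 ∧ w.2 ≤ n := by
    rcases hq' with h3 | ⟨w, h3, h4, h5, h6⟩
    · left; rw [sg_snd, h3]; ring
    · right
      refine ⟨sg n w, TA_sg n h3, by rw [X_sg]; exact h4, ?_, ?_⟩ <;> rw [sg_snd] <;> omega
  generalize sg n p' = r at hQ hp'2
  generalize sg n q' = s at hQ hq'T
  clear hP' hq' hp'
  set D : ℤ × ℤ → Prop := fun z => z ∈ ω ∧ z ∈ Rct W (2 * n) with hD
  have hDr : ∀ z, D z → 0 ≤ X z ∧ X z ≤ W ∧ 0 ≤ z.2 ∧ z.2 ≤ 2 * n := fun z hz => mem_Rct.1 hz.2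
  -- easy cases
  rcases hq with hq | ⟨w, hw1, hw2, hw3, hw4⟩
  · exact ⟨p, q, hp, hq, hP⟩
  rcases hq'T with hs | ⟨w', hw1', hw2', hw3', hw4'⟩
  · exact ⟨s, r, hs, hp'2, hQ.symm⟩
  by_contra hcon
  have hno : ∀ u, Pa D p u → u.2 ≠ 2 * n := fun u hu hu2 => hcon ⟨p, u, hp, hu2, hu⟩
  have hmeet : ∀ u, Pa D p u → Pa D r u → False := fun u hu hu' =>
    hcon ⟨p, r, hp, hp'2, hu.trans hu'.symm⟩
  have hqD := hDr q hP.right
  have hsD := hDr s hQ.right
  rcases lt_or_ge w'.2 w.2 with hlt | hge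
  · -- crossing lemma
    set A : ℤ × ℤ → Prop := fun u => Pa D r u ∨ u = w' with hA
    set B : ℤ × ℤ → Prop := fun u => Pa D p u ∨ (W < X u ∧ w.2 ≤ u.2 ∧ u.2 ≤ 2 * n) with hB
    have hPA : Pa A r w' := by
      have h3 : Pa A r s := by
        have h4 : Pa (fun u => Pa D r u) r s :=
          hQ.restrict (Pa.refl hQ.left) (fun a b ha hab hb => ha.tail hab hb)
        exact h4.mono fun u hu => Or.inl hu
      exact h3.tail hw1' (Or.inr rfl)
    have hPB : ∃ v : ℤ × ℤ, v.2 = 2 * n ∧ Pa B p v := by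
      have h3 : Pa B p q := by
        have h4 : Pa (fun u => Pa D p u) p q :=
          hP.restrict (Pa.refl hP.left) (fun a b ha hab hb => ha.tail hab hb)
        exact h4.mono fun u hu => Or.inl hu
      have h5 : Pa B p w := h3.tail hw1 (Or.inr ⟨hw2, le_rfl, hw4⟩)
      have h6 := pa_col (S := B) (x := w.1) (y := w.2) (2 * n - w.2).toNat (by
        intro i hi
        right
        have hi' : (i : ℤ) ≤ 2 * n - w.2 := by
          have : (i : ℤ) ≤ ((2 * n - w.2).toNat : ℤ) := by exact_mod_cast hi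
          rwa [Int.toNat_of_nonneg (by omega)] at this
        unfold X at hw2 ⊢
        simp only
        omega)
      rw [Int.toNat_of_nonneg (by omega)] at h6
      exact ⟨_, by simp, h5.trans h6⟩
    obtain ⟨v, hv, hPB⟩ := hPB
    have hrD := hDr r hQ.left
    obtain ⟨z, hzA, hzB⟩ := cross hPA (by
      rintro u (hu | rfl)
      · have := hDr u hu.right; omega
      · omega) hPB hp hv (by
      rintro u (hu | hu) hur
      · exact absurd (hur.trans hp'2) (hno u hu)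
      · unfold X at hu hrD; omega) (by
      rintro u (hu | hu) hur
      · have := hDr u hu.right
        unfold X at this hw2'; omega
      · omega)
    rcases hzA with hzA | rfl
    · rcases hzB with hzB | hzB
      · exact hmeet z hzB hzA
      · have := hDr z hzA.right; omega
    · rcases hzB with hzB | hzB
      · have := hDr z hzB.right; omega
      · omega
  · -- both next to row n
    have e1 : w.2 = n := by omega
    have e2 : w'.2 = n := by omega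
    have hc := hw1.cases
    have hc' := hw1'.cases
    unfold X at hw2 hw2' hqD hsD
    have f1 : q.2 = n ∧ 2 * q.1 + q.2 = W := by omega
    have f2 : s.2 = n ∧ 2 * s.1 + s.2 = W := by omega
    have f3 : q = s := Prod.ext (by omega) (by omega)
    rw [← f3] at hQ
    exact hmeet q hP hQ

theorem pV_double {W n : ℤ} (hn : 1 ≤ n) (hW : 0 ≤ W) (hpar : ∃ t, W - n = 2 * t) :
    pV W n ^ 2 / 4 ≤ pV W (2 * n) := by
  have h1 := Pr_Mp (W := W) hn hW
  have h2 : Pr (Rct W (2 * n)) (fun ω => Mp W n (rfl' W n ω)) = Pr (Rct W (2 * n)) (Mp W n) :=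
    Pr_invol (Rct W (2 * n)) (rfl' W n) (fun ω _ => filter_subset _ _) (fun ω hω => rfl_rfl hω) _
  have hinc : Inc (fun ω => Mp W n (rfl' W n ω)) := by
    intro ω ω' h h'
    refine Mp_inc _ _ ?_ h'
    intro z hz
    unfold rfl' at hz ⊢
    rw [mem_filter] at hz ⊢
    exact ⟨hz.1, h hz.2⟩
  have h3 := Pr_harris (Rct W (2 * n)) (Mp_inc (W := W) (n := n)) hinc
  have h4 : Pr (Rct W (2 * n)) (fun ω => Mp W n ω ∧ Mp W n (rfl' W n ω)) ≤ pV W (2 * n) :=
    Pr_mono fun ω _ h => Mp_glue hn hpar h.1 h.2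
  rw [h2] at h3
  have h5 : 0 ≤ pV W n := Pr_nonneg _ _
  nlinarith

lemma pV_mono {W W' n : ℤ} (h : W ≤ W') : pV W n ≤ pV W' n := by
  have hsub : Rct W n ⊆ Rct W' n := by
    intro z hz
    rw [mem_Rct] at hz ⊢
    omega
  rw [← Pr_VCr hsub]
  apply Pr_mono
  rintro ω _ ⟨p, q, h1, h2, h3⟩
  exact ⟨p, q, h1, h2, h3.mono fun z hz => ⟨hz.1, hsub hz.2⟩⟩

/-- long crossings, from the rhombus bound -/
theorem rsw_of (h : ∀ n : ℕ, 1 ≤ n → (1 : ℝ) / 2 ≤ pV (3 * n) n) (m : ℕ) (hm : 1 ≤ m) :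
    (1 : ℝ) / 2 ^ 22 ≤ pV (6 * m) (16 * m) := by
  have h0 := h (2 * m) (by omega)
  push_cast at h0
  have e0 : (3 : ℤ) * (2 * (m : ℤ)) = 6 * m := by ring
  rw [e0] at h0
  have h1 := pV_double (W := 6 * m) (n := 2 * m) (by omega) (by omega) ⟨2 * m, by ring⟩
  have h2 := pV_double (W := 6 * m) (n := 4 * m) (by omega) (by omega) ⟨m, by ring⟩
  have h3 := pV_double (W := 6 * m) (n := 8 * m) (by omega) (by omega) ⟨-m, by ring⟩
  have e1 : (2 : ℤ) * (2 * (m : ℤ)) = 4 * m := by ring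
  have e2 : (2 : ℤ) * (4 * (m : ℤ)) = 8 * m := by ring
  have e3 : (2 : ℤ) * (8 * (m : ℤ)) = 16 * m := by ring
  rw [e1] at h1
  rw [e2] at h2
  rw [e3] at h3
  have g1 : (1 : ℝ) / 2 ^ 4 ≤ pV (6 * m) (4 * m) := by nlinarith
  have g2 : (1 : ℝ) / 2 ^ 10 ≤ pV (6 * m) (8 * m) := by
    have := pow_le_pow_left₀ (by norm_num) g1 2
    refine le_trans ?_ h2
    norm_num at this ⊢
    linarith
  have := pow_le_pow_left₀ (by norm_num) g2 2
  refine le_trans ?_ h3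
  norm_num at this ⊢
  linarith

end Pool.Agent.H52.Tri
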