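import Mathlib
import Pool.Agent.H52.Tri.Rsw

set_option autoImplicit false
open Finset

/-! Self-duality of the rhombus; RSW on the triangular lattice. -/

namespace Pool.Agent.H52.Tri

open Pool.Agent.H75.Perc

/-- the rhombus -/
noncomputable def Rho (n : ℤ) : Finset (ℤ × ℤ) := (Icc 0 n) ×ˢ (Icc 0 n)

lemma mem_Rho {n : ℤ} {z : ℤ × ℤ} : z ∈ Rho n ↔ (0 ≤ z.1 ∧ z.1 ≤ n) ∧ 0 ≤ z.2 ∧ z.2 ≤ n := by
  unfold Rho; rw [mem_product, mem_Icc, mem_Icc]

/-- crossing from row `0` to row `n` -/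
def VR (n : ℤ) (ω : Finset (ℤ × ℤ)) : Prop :=
  ∃ p q : ℤ × ℤ, p.2 = 0 ∧ q.2 = n ∧ Pa (fun z => z ∈ ω ∧ z ∈ Rho n) p q

/-- transposition and colour flip -/
noncomputable def flipR (n : ℤ) (ω : Finset (ℤ × ℤ)) : Finset (ℤ × ℤ) :=
  (Rho n).filter (fun z => z.swap ∉ ω)

lemma swap_Rho {n : ℤ} {z : ℤ × ℤ} (h : z ∈ Rho n) : z.swap ∈ Rho n := by
  rw [mem_Rho] at h ⊢
  exact ⟨h.2, h.1⟩

lemma flipR_flipR {n : ℤ} {ω : Finset (ℤ × ℤ)} (h : ω ⊆ Rho n) : flipR n (flipR n ω) = ω := by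
  ext z
  unfold flipR
  rw [mem_filter, mem_filter, Prod.swap_swap]
  constructor
  · rintro ⟨h1, h2⟩
    by_contra h3
    exact h2 ⟨swap_Rho h1, h3⟩
  · intro h1
    exact ⟨h h1, fun h2 => h2.2 h1⟩

lemma TA_swap {u v : ℤ × ℤ} (h : TA u v) : TA u.swap v.swap := by
  have := h.cases
  apply TA.of_cases
  simp only [Prod.fst_swap, Prod.snd_swap]
  omega

/-- duality -/
lemma rho_alt {n : ℤ} (hn : 1 ≤ n) (ω : Finset (ℤ × ℤ)) : VR n ω ∨ VR n (flipR n ω) := by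
  rcases dual_strip (n := n) (by omega) (B := fun z => z ∈ ω ∧ z ∈ Rho n) (x := -2) (K := n + 1)
    (by omega) (by
      rintro z h1 h2 h3 ⟨_, h4⟩
      rw [mem_Rho] at h4
      omega) with ⟨p, q, hp, hq, hP⟩ | ⟨q, hq, hP⟩
  · left
    exact ⟨p, q, hp, hq, hP.mono fun z hz => hz.1⟩
  · right
    rcases hP.last (K := fun z => z.1 < 0) (by omega) with h1 | ⟨z, w, _, h2, h3, h4⟩
    · exact absurd h1.left.2 (by norm_num)
    · have hw : ¬ w.1 < 0 := h4.left.2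
      have hta := h3.cases
      rcases h4.first (K := fun z => n < z.1) (by omega) with h5 | ⟨z', w', h6, h7, h8, _⟩
      · exact absurd h5.right.2 (by rw [hq]; omega)
      · have hz' : ¬ n < z'.1 := h6.right.2
        have hta' := h7.cases
        refine ⟨w.swap, z'.swap, by simp only [Prod.snd_swap]; omega,
          by simp only [Prod.snd_swap]; omega, ?_⟩
        refine pa_map Prod.swap (fun a b hab => TA_swap hab) ?_ h6
        rintro u ⟨⟨⟨hu1, hu2, hu3⟩, hu4⟩, hu5⟩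
        have hu : u ∈ Rho n := mem_Rho.2 ⟨⟨by omega, by omega⟩, hu2, hu3⟩
        have h9 : u ∉ ω := fun h => hu1 ⟨h, hu⟩
        refine ⟨?_, swap_Rho hu⟩
        unfold flipR
        rw [mem_filter, Prod.swap_swap]
        exact ⟨swap_Rho hu, h9⟩

lemma Pr_VR {n : ℤ} (hn : 1 ≤ n) : 1 / 2 ≤ Pr (Rho n) (VR n) := by
  have h1 : Pr (Rho n) (fun ω => VR n ω ∨ VR n (flipR n ω)) = 1 := by
    rw [← Pr_true (Rho n)]
    exact Pr_congr fun ω _ => ⟨fun _ => trivial, fun _ => rho_alt hn ω⟩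
  have h2 := Pr_or_le (Rho n) (VR n) (fun ω => VR n (flipR n ω))
  rw [h1, Pr_invol (Rho n) (flipR n) (fun ω _ => filter_subset _ _)
    (fun ω hω => flipR_flipR hω)] at h2
  linarith

theorem pV_rhomb (n : ℕ) (hn : 1 ≤ n) : (1 : ℝ) / 2 ≤ pV (3 * n) n := by
  refine (Pr_VR (n := n) (by omega)).trans ?_
  have hsub : Rho (n : ℤ) ⊆ Rct (3 * n) n := by
    intro z hz
    rw [mem_Rho] at hz
    rw [mem_Rct]
    unfold X
    omega
  unfold pV
  have h1 : Pr (Rho (n : ℤ)) (VR n) = Pr (Rct (3 * n) n) (VR n) := by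
    rw [← Pr_restrict hsub]
    apply Pr_congr
    intro ω _
    unfold VR
    simp only [mem_inter, and_assoc, and_self]
  rw [h1]
  apply Pr_mono
  rintro ω _ ⟨p, q, hp, hq, hP⟩
  exact ⟨p, q, hp, hq, hP.mono fun z hz => ⟨hz.1, hsub hz.2⟩⟩

/-- RSW : long vertical crossings -/
theorem rsw (m : ℕ) (hm : 1 ≤ m) : (1 : ℝ) / 2 ^ 22 ≤ pV (6 * m) (16 * m) := rsw_of pV_rhomb m hm

end Pool.Agent.H52.Tri
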