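import Mathlib
import Pool.Agent.H52.Tri.Base

set_option autoImplicit false
open Finset

/-! Closed walks of faces and the crossing number of a horizontal ray, mod 2. -/

namespace Pool.Agent.H52.Tri

/-- the step `u → v` crosses the ray to the right of `p` between the rows `p.2` and `p.2 + 1` -/
def stp (p u v : ℤ × ℤ) : ZMod 2 :=
  if (u.2 = p.2 ∧ v.2 = p.2 + 1 ∧ p.1 < u.1) ∨ (v.2 = p.2 ∧ u.2 = p.2 + 1 ∧ p.1 < v.1) then 1 else 0

/-- walks in `S` with the crossing numbers -/
inductive Wk (S : ℤ × ℤ → Prop) (u : ℤ × ℤ) : ℤ × ℤ → (ℤ × ℤ → ZMod 2) → Prop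
  | nil : S u → Wk S u u (fun _ => 0)
  | snoc {v w : ℤ × ℤ} {x : ℤ × ℤ → ZMod 2} : Wk S u v x → TA v w → S w →
      Wk S u w (fun p => x p + stp p v w)

variable {S S' : ℤ × ℤ → Prop} {u v w : ℤ × ℤ} {x y : ℤ × ℤ → ZMod 2}

lemma Wk.left (h : Wk S u v x) : S u := by
  induction h with
  | nil h => exact h
  | snoc _ _ _ ih => exact ih

lemma Wk.right (h : Wk S u v x) : S v := by
  cases h with
  | nil h => exact h
  | snoc _ _ h => exact h

lemma Wk.mono (hS : ∀ z, S z → S' z) (h : Wk S u v x) : Wk S' u v x := by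
  induction h with
  | nil h => exact Wk.nil (hS _ h)
  | snoc _ h1 h2 ih => exact Wk.snoc ih h1 (hS _ h2)

lemma Wk.trans (h1 : Wk S u v x) (h2 : Wk S v w y) : Wk S u w (fun p => x p + y p) := by
  induction h2 with
  | nil _ => simpa using h1
  | snoc _ h3 h4 ih =>
    have := Wk.snoc ih h3 h4
    simpa only [add_assoc] using this

lemma Wk.pa (h : Wk S u v x) : Pa S u v := by
  induction h with
  | nil h => exact Pa.refl h
  | snoc _ h1 h2 ih => exact ih.tail h1 h2

/-- as a sequence -/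
lemma Wk.seq (h : Wk S u v x) : ∃ (W : ℕ → ℤ × ℤ) (l : ℕ), W 0 = u ∧ W l = v ∧
    (∀ t < l, TA (W t) (W (t + 1))) ∧ (∀ t ≤ l, S (W t)) ∧
    ∀ p, x p = ∑ t ∈ range l, stp p (W t) (W (t + 1)) := by
  induction h with
  | nil h => exact ⟨fun _ => u, 0, rfl, rfl, fun t ht => absurd ht (by omega), fun _ _ => h, by simp⟩
  | @snoc v w x _ h1 h2 ih =>
    obtain ⟨W, l, h3, h4, h5, h6, h7⟩ := ih
    refine ⟨fun t => if t ≤ l then W t else w, l + 1, ?_, ?_, ?_, ?_, ?_⟩
    · simp [h3]
    · simp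
    · intro t ht
      simp only
      rcases Nat.lt_or_ge t l with h8 | h8
      · rw [if_pos (by omega), if_pos (by omega)]; exact h5 t h8
      · have : t = l := by omega
        subst this
        rw [if_pos le_rfl, if_neg (by omega), h4]; exact h1
    · intro t ht
      simp only
      split_ifs with h8
      · exact h6 t h8
      · exact h2
    · intro p
      rw [sum_range_succ]
      simp only
      rw [h7 p]
      congr 1
      · apply sum_congr rfl
        intro t ht
        have := mem_range.1 ht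
        rw [if_pos (by omega), if_pos (by omega)]
      · rw [if_pos le_rfl, if_neg (by omega), h4]

/-- row indicator -/
def ind (p z : ℤ × ℤ) : ZMod 2 := if z.2 ≤ p.2 then 1 else 0

lemma two_mul' (a : ZMod 2) : a + a = 0 := CharTwo.add_self_eq_zero a

lemma stp_right {p : ℤ × ℤ} (h : TA u v) (hu : u.2 = p.2 → p.1 < u.1) (hv : v.2 = p.2 → p.1 < v.1) :
    stp p u v = ind p u + ind p v := by
  have := h.cases
  unfold stp ind
  split_ifs with h1 h2 h3 h3 h2 h3 h3
  · omega
  · simp
  · simp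
  · omega
  · exact (two_mul' 1).symm
  · omega
  · omega
  · simp

lemma stp_left {p : ℤ × ℤ} (hu : u.2 = p.2 → u.1 ≤ p.1) (hv : v.2 = p.2 → v.1 ≤ p.1) :
    stp p u v = 0 := by
  unfold stp
  rw [if_neg]
  rintro (h | h)
  · have := hu h.1; omega
  · have := hv h.1; omega

/-- a path to the right of all points of `I` -/
lemma wk_right (I : ℤ × ℤ → Prop) (h : Pa S u v) (hI : ∀ p, I p → ∀ z, S z → z.2 = p.2 → p.1 < z.1) :
    ∃ x, Wk S u v x ∧ ∀ p, I p → x p = ind p u + ind p v := by
  obtain ⟨h1, h2⟩ := h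
  induction h2 with
  | refl => exact ⟨_, Wk.nil h1, fun p _ => (two_mul' _).symm⟩
  | @tail b c hb hc ih =>
    obtain ⟨x, hx, hx'⟩ := ih
    refine ⟨_, Wk.snoc hx hc.1 hc.2, fun p hp => ?_⟩
    rw [hx' p hp, stp_right hc.1 (hI p hp b hx.right) (hI p hp c hc.2)]
    have := two_mul' (ind p b)
    linear_combination this

lemma wk_left (I : ℤ × ℤ → Prop) (h : Pa S u v) (hI : ∀ p, I p → ∀ z, S z → z.2 = p.2 → z.1 ≤ p.1) :
    ∃ x, Wk S u v x ∧ ∀ p, I p → x p = 0 := by
  obtain ⟨h1, h2⟩ := h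
  induction h2 with
  | refl => exact ⟨_, Wk.nil h1, fun p _ => rfl⟩
  | @tail b c hb hc ih =>
    obtain ⟨x, hx, hx'⟩ := ih
    refine ⟨_, Wk.snoc hx hc.1 hc.2, fun p hp => ?_⟩
    rw [hx' p hp, stp_left (hI p hp b hx.right) (hI p hp c hc.2), add_zero]

/-- general potential lemma -/
lemma Wk.pot {p q : ℤ × ℤ} (r : ℤ × ℤ → ZMod 2)
    (hr : ∀ a b, S a → S b → TA a b → stp p a b + stp q a b = r a + r b) (h : Wk S u v x) :
    x p + x q = r u + r v := by
  induction h with
  | nil _ => simp [two_mul']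
  | @snoc v w x h0 h1 h2 ih =>
    have e := hr v w h0.right h2 h1
    have := two_mul' (r v)
    linear_combination ih + e + this

/-- The crossing number is the same at adjacent faces off the walk. -/
lemma Wk.jt {p q : ℤ × ℤ} (h : Wk S u u x) (hpq : TA p q) (hp : ¬ S p) (hq : ¬ S q) : x p = x q := by
  have key : ∀ p q : ℤ × ℤ, ¬ S p → ¬ S q → ((q.1 = p.1 + 1 ∧ q.2 = p.2) ∨
      (q.1 = p.1 ∧ q.2 = p.2 + 1) ∨ (q.1 = p.1 - 1 ∧ q.2 = p.2 + 1)) → x p + x q = 0 := by
    intro p q hp hq hc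
    have hne : ∀ a, S a → (a.2 = p.2 → a.1 ≠ p.1) ∧ (a.2 = q.2 → a.1 ≠ q.1) := by
      intro a ha
      refine ⟨fun h1 h2 => hp ?_, fun h1 h2 => hq ?_⟩
      · rwa [← (Prod.ext h2 h1 : a = p)]
      · rwa [← (Prod.ext h2 h1 : a = q)]
    rcases hc with hc | hc | hc
    · have := h.pot (p := p) (q := q) (fun _ => 0) (by
        intro a b ha hb hab
        have h1 := hne a ha
        have h2 := hne b hb
        have h3 := hab.cases
        unfold stp
        split_ifs with g1 g2 g2
        · simp only [add_zero]; exact two_mul' 1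
        · exfalso; omega
        · exfalso; omega
        · simp)
      simpa using this
    · have := h.pot (p := p) (q := q) (fun z => if z.2 = p.2 + 1 ∧ p.1 < z.1 then 1 else 0) (by
        intro a b ha hb hab
        have h1 := hne a ha
        have h2 := hne b hb
        have h3 := hab.cases
        unfold stp
        split_ifs with g1 g2 g3 g4 g4 g3 g4 g4 g2 g3 g4 g4 g3 g4 g4 <;> first
          | rfl
          | (exfalso; omega))
      rw [this]; exact two_mul' _
    · have := h.pot (p := p) (q := q) (fun z => if z.2 = p.2 + 1 ∧ p.1 ≤ z.1 then 1 else 0) (by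
        intro a b ha hb hab
        have h1 := hne a ha
        have h2 := hne b hb
        have h3 := hab.cases
        unfold stp
        split_ifs with g1 g2 g3 g4 g4 g3 g4 g4 g2 g3 g4 g4 g3 g4 g4 <;> first
          | rfl
          | (exfalso; omega))
      rw [this]; exact two_mul' _
  have hcs := hpq.cases
  have conv : ∀ a b : ZMod 2, a + b = 0 → a = b := by decide
  by_cases h1 : (q.1 = p.1 + 1 ∧ q.2 = p.2) ∨
      (q.1 = p.1 ∧ q.2 = p.2 + 1) ∨ (q.1 = p.1 - 1 ∧ q.2 = p.2 + 1)
  · exact conv _ _ (key p q hp hq h1)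
  · exact (conv _ _ (key q p hq hp (by omega))).symm

lemma Wk.jt_pa {T : ℤ × ℤ → Prop} {p q : ℤ × ℤ} (h : Wk S u u x) (hP : Pa T p q)
    (hT : ∀ z, T z → ¬ S z) : x p = x q := by
  obtain ⟨h1, h2⟩ := hP
  have : ∀ w, Relation.ReflTransGen (fun a b => TA a b ∧ T b) p w → T w ∧ x p = x w := by
    intro w hw
    induction hw with
    | refl => exact ⟨h1, rfl⟩
    | @tail b c hb hc ih =>
      exact ⟨hc.2, ih.2.trans (h.jt hc.1 (hT _ ih.1) (hT _ hc.2))⟩
  exact (this q h2).2

/-- crossing number `0` to the right of the walk -/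
lemma Wk.far_right {p : ℤ × ℤ} (h : Wk S u v x) (hp : ∀ z, S z → z.2 = p.2 → z.1 ≤ p.1) :
    x p = 0 := by
  induction h with
  | nil _ => rfl
  | @snoc v w x h0 h1 h2 ih =>
    simp only
    rw [ih, stp_left (hp v h0.right) (hp w h2), add_zero]

/-- crossing number `0` to the left of a closed walk -/
lemma Wk.far_left {p : ℤ × ℤ} (h : Wk S u v x) (hp : ∀ z, S z → z.2 = p.2 → p.1 < z.1) :
    x p = ind p u + ind p v := by
  induction h with
  | nil _ => exact (two_mul' _).symm
  | @snoc v w x h0 h1 h2 ih =>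
    simp only
    rw [ih, stp_right h1 (hp v h0.right) (hp w h2)]
    have := two_mul' (ind p v)
    linear_combination this

end Pool.Agent.H52.Tri
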