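import Mathlib
import Pool.Agent.H52.Tri.Walk
import Pool.Agent.H52.Tri.Rhomb
import Pool.Agent.H98.Tri.Ring

set_option autoImplicit false
open Finset

/-! The ring in a hexagonal annulus as a closed walk with odd crossing number. -/

namespace Pool.Agent.H52.Tri

open Pool.Agent.H75.Perc
open Pool.Agent.H98.Tri (Nlt epos epos_inj TA_rotI TA_rotI_iter rot_rotI_iter)

lemma Pa.self {D : ℤ × ℤ → Prop} {p q : ℤ × ℤ} (h : Pa D p q) : Pa (fun u => Pa D p u) p q :=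
  h.restrict (Pa.refl h.left) (fun _ _ ha hab hb => ha.tail hab hb)

lemma meet_base {m : ℤ} (hm : 1 ≤ m) {A0 A1 : ℤ × ℤ → Prop} {p0 q0 p1 q1 : ℤ × ℤ}
    (h0 : Pa A0 p0 q0) (h1 : Pa A1 p1 q1)
    (hA0 : ∀ u, A0 u → 6 * m ≤ X u ∧ X u ≤ 12 * m)
    (hA1 : ∀ u, A1 u → 6 * m ≤ X (rotI u) ∧ X (rotI u) ≤ 12 * m ∧ -(8 * m) ≤ (rotI u).2 ∧
      (rotI u).2 ≤ 8 * m)
    (hp0 : p0.2 = -(8 * m)) (hq0 : q0.2 = 8 * m) (hp1 : (rotI p1).2 = -(8 * m))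
    (hq1 : (rotI q1).2 = 8 * m) : ∃ z, A0 z ∧ A1 z := by
  have hp := hA1 p1 h1.left
  have hq := hA1 q1 h1.right
  unfold X rotI at hp hq
  simp only at hp hq
  unfold rotI at hp1 hq1
  simp only at hp1 hq1
  rcases h1.first (K := fun u => X u < 6 * m) (by unfold X; omega) with h | ⟨z, w, h2, h3, h4, h5⟩
  · have := h.right.2
    unfold X at this
    omega
  · have hP : Pa (fun u => A1 u ∧ (6 * m ≤ X u ∨ u = w)) p1 w :=
      (h2.mono fun u hu => ⟨hu.1, Or.inl (by have := hu.2; omega)⟩).tail h3 ⟨h5.left, Or.inr rfl⟩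
    have hz := hA1 z h2.right.1
    have hz2 := h2.right.2
    have hw := hA1 w h5.left
    have hc := h3.cases
    unfold X rotI at hz hw
    simp only at hz hw
    unfold X at hz2 h4
    obtain ⟨y, hy1, hy2⟩ := cross (c := -(8 * m)) (d := 8 * m) hP.symm (by
      rintro u ⟨hu1, hu2⟩
      have hu := hA1 u hu1
      unfold X rotI at hu
      simp only at hu
      rcases hu2 with hu2 | hu2
      · unfold X at hu2; omega
      · rw [hu2]; omega) h0 hp0 hq0 (by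
      intro u hu huw
      have := hA0 u hu
      unfold X at this
      omega) (by
      intro u hu huw
      have := hA0 u hu
      unfold X at this
      omega)
    exact ⟨y, hy2, hy1.1⟩

/-- side rectangle `k` (long and thin), relative to its centre -/
def Sd (m : ℤ) (k : ℕ) (u : ℤ × ℤ) : Prop :=
  6 * m ≤ X (rotI^[k] u) ∧ X (rotI^[k] u) ≤ 12 * m ∧ -(8 * m) ≤ (rotI^[k] u).2 ∧
    (rotI^[k] u).2 ≤ 8 * m

lemma rotI_rot_iter (k : ℕ) (z : ℤ × ℤ) : rotI^[k] (rot^[k] z) = z :=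
  (Function.LeftInverse.iterate (fun z => rotI_rot z) k) z

lemma TA_rot {u v : ℤ × ℤ} (h : TA u v) : TA (rot u) (rot v) := by
  have h' := h.cases
  apply TA.of_cases
  unfold rot
  simp only
  omega

lemma TA_rot_iter {u v : ℤ × ℤ} (h : TA u v) (k : ℕ) : TA (rot^[k] u) (rot^[k] v) := by
  induction k with
  | zero => exact h
  | succ k ih => rw [Function.iterate_succ_apply', Function.iterate_succ_apply']; exact TA_rot ih

lemma TA_sub {u v : ℤ × ℤ} (c : ℤ × ℤ) (h : TA u v) : TA (u - c) (v - c) := by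
  unfold TA at h ⊢
  rwa [sub_sub_sub_cancel_right]

lemma TA_add {u v : ℤ × ℤ} (c : ℤ × ℤ) (h : TA u v) : TA (c + u) (c + v) := by
  unfold TA at h ⊢
  rwa [add_sub_add_left_eq_sub]

/-- the crossing of side `k` in absolute coordinates -/
def Hk (m : ℤ) (c0 : ℤ × ℤ) (D : ℤ × ℤ → Prop) (k : ℕ) (p q : ℤ × ℤ) : Prop :=
  (rotI^[k] (p - c0)).2 = -(8 * m) ∧ (rotI^[k] (q - c0)).2 = 8 * m ∧
    Pa (fun z => D z ∧ Sd m k (z - c0)) p q

lemma Hk_of_CC {m : ℤ} {c0 : ℤ × ℤ} {k : ℕ} {ω : Finset (ℤ × ℤ)} (h : Pool.Agent.H98.Tri.CC m c0 k ω) :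
    ∃ p q, Hk m c0 (fun z => z ∈ ω) k p q := by
  obtain ⟨p, q, hp, hq, hP⟩ := h
  have e : ∀ z, rotI^[k] (epos m c0 k z - c0) = z + (7 * m, -(8 * m)) := by
    intro z
    unfold epos
    rw [add_sub_cancel_left, rotI_rot_iter]
  refine ⟨epos m c0 k p, epos m c0 k q, ?_, ?_, ?_⟩
  · rw [e, Prod.snd_add, hp]; simp
  · rw [e, Prod.snd_add, hq]; simp only; ring
  · refine pa_map (epos m c0 k) ?_ ?_ hP
    · intro a b hab
      unfold epos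
      apply TA_add
      apply TA_rot_iter
      unfold TA at hab ⊢
      rwa [add_sub_add_right_eq_sub]
    · rintro z ⟨hz1, hz2⟩
      refine ⟨hz1, ?_⟩
      unfold Sd
      rw [e]
      rw [mem_Rct] at hz2
      unfold X at hz2 ⊢
      simp only [Prod.fst_add, Prod.snd_add]
      omega

lemma meet_k {m : ℤ} (hm : 1 ≤ m) {c0 : ℤ × ℤ} {D : ℤ × ℤ → Prop} {k : ℕ} {p q p' q' : ℤ × ℤ}
    (h : Hk m c0 D k p q) (h' : Hk m c0 D (k + 1) p' q') :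
    ∃ z, Pa (fun z => D z ∧ Sd m k (z - c0)) p z ∧ Pa (fun z => D z ∧ Sd m (k + 1) (z - c0)) p' z := by
  obtain ⟨hp, hq, hP⟩ := h
  obtain ⟨hp', hq', hP'⟩ := h'
  set A0 : ℤ × ℤ → Prop := fun u => Pa (fun z => D z ∧ Sd m k (z - c0)) p (c0 + rot^[k] u) with hA0
  set A1 : ℤ × ℤ → Prop :=
    fun u => Pa (fun z => D z ∧ Sd m (k + 1) (z - c0)) p' (c0 + rot^[k] u) with hA1
  have hψ : ∀ w : ℤ × ℤ, c0 + rot^[k] (rotI^[k] (w - c0)) = w := by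
    intro w; rw [rot_rotI_iter]; abel
  have h0 : Pa A0 (rotI^[k] (p - c0)) (rotI^[k] (q - c0)) :=
    pa_map (fun w => rotI^[k] (w - c0)) (fun a b hab => TA_rotI_iter (TA_sub c0 hab) k)
      (fun w hw => by simp only [hA0, hψ]; exact hw) hP.self
  have h1 : Pa A1 (rotI^[k] (p' - c0)) (rotI^[k] (q' - c0)) :=
    pa_map (fun w => rotI^[k] (w - c0)) (fun a b hab => TA_rotI_iter (TA_sub c0 hab) k)
      (fun w hw => by simp only [hA1, hψ]; exact hw) hP'.self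
  obtain ⟨z, hz0, hz1⟩ := meet_base hm h0 h1 (by
    intro u hu
    have := hu.right.2
    unfold Sd at this
    rw [add_sub_cancel_left, rotI_rot_iter] at this
    exact ⟨this.1, this.2.1⟩) (by
    intro u hu
    have := hu.right.2
    unfold Sd at this
    rw [add_sub_cancel_left, Function.iterate_succ_apply', rotI_rot_iter] at this
    exact this) hp hq (by rw [← Function.iterate_succ_apply' rotI]; exact hp')
    (by rw [← Function.iterate_succ_apply' rotI]; exact hq')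
  exact ⟨_, hz0, hz1⟩

lemma Sd0 {m : ℤ} {u : ℤ × ℤ} : Sd m 0 u ↔ 6 * m ≤ 2 * u.1 + u.2 ∧ 2 * u.1 + u.2 ≤ 12 * m ∧
    -(8 * m) ≤ u.2 ∧ u.2 ≤ 8 * m := by
  unfold Sd X; rfl
lemma Sd1 {m : ℤ} {u : ℤ × ℤ} : Sd m 1 u ↔ 6 * m ≤ u.1 + 2 * u.2 ∧ u.1 + 2 * u.2 ≤ 12 * m ∧
    -(8 * m) ≤ u.1 ∧ u.1 ≤ 8 * m := by
  unfold Sd X; simp [Function.iterate_succ_apply', rotI]; omega
lemma Sd2 {m : ℤ} {u : ℤ × ℤ} : Sd m 2 u ↔ 6 * m ≤ u.2 - u.1 ∧ u.2 - u.1 ≤ 12 * m ∧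
    -(8 * m) ≤ u.1 + u.2 ∧ u.1 + u.2 ≤ 8 * m := by
  unfold Sd X; simp [Function.iterate_succ_apply', rotI]; omega
lemma Sd3 {m : ℤ} {u : ℤ × ℤ} : Sd m 3 u ↔ 6 * m ≤ -(2 * u.1 + u.2) ∧ -(2 * u.1 + u.2) ≤ 12 * m ∧
    -(8 * m) ≤ u.2 ∧ u.2 ≤ 8 * m := by
  unfold Sd X; simp [Function.iterate_succ_apply', rotI]; omega
lemma Sd4 {m : ℤ} {u : ℤ × ℤ} : Sd m 4 u ↔ 6 * m ≤ -(u.1 + 2 * u.2) ∧ -(u.1 + 2 * u.2) ≤ 12 * m ∧
    -(8 * m) ≤ u.1 ∧ u.1 ≤ 8 * m := by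
  unfold Sd X; simp [Function.iterate_succ_apply', rotI]; omega
lemma Sd5 {m : ℤ} {u : ℤ × ℤ} : Sd m 5 u ↔ 6 * m ≤ u.1 - u.2 ∧ u.1 - u.2 ≤ 12 * m ∧
    -(8 * m) ≤ u.1 + u.2 ∧ u.1 + u.2 ≤ 8 * m := by
  unfold Sd X; simp [Function.iterate_succ_apply', rotI]; omega
lemma Sd6 {m : ℤ} {u : ℤ × ℤ} : Sd m 6 u ↔ Sd m 0 u := by
  have : rotI^[6] u = u := by
    simp [Function.iterate_succ_apply', rotI]
  unfold Sd; rw [this]; rfl

/-- The ring. -/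
theorem ring_walk {m : ℤ} (hm : 1 ≤ m) {c0 : ℤ × ℤ} {D : ℤ × ℤ → Prop} {ps qs : ℕ → ℤ × ℤ}
    (h : ∀ k < 6, Hk m c0 D k (ps k) (qs k)) :
    ∃ u x, Wk (fun z => D z ∧ ∃ k < 6, Sd m k (z - c0)) u u x ∧
      ∀ p, Nlt (6 * m) (p - c0) → x p = 1 := by
  set E : ℕ → ℤ × ℤ → Prop := fun k z => D z ∧ Sd m k (z - c0) with hE
  have h6 : Hk m c0 D 6 (ps 0) (qs 0) := by
    obtain ⟨h1, h2, h3⟩ := h 0 (by norm_num)
    have e : ∀ u : ℤ × ℤ, rotI^[6] u = u := by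
      intro u; simp [Function.iterate_succ_apply', rotI]
    refine ⟨by rw [e]; exact h1, by rw [e]; exact h2, h3.mono fun z hz => ⟨hz.1, Sd6.2 hz.2⟩⟩
  obtain ⟨z0, a0, b0⟩ := meet_k hm (h 0 (by norm_num)) (h 1 (by norm_num))
  obtain ⟨z1, a1, b1⟩ := meet_k hm (h 1 (by norm_num)) (h 2 (by norm_num))
  obtain ⟨z2, a2, b2⟩ := meet_k hm (h 2 (by norm_num)) (h 3 (by norm_num))
  obtain ⟨z3, a3, b3⟩ := meet_k hm (h 3 (by norm_num)) (h 4 (by norm_num))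
  obtain ⟨z4, a4, b4⟩ := meet_k hm (h 4 (by norm_num)) (h 5 (by norm_num))
  obtain ⟨z5, a5, b5⟩ := meet_k hm (h 5 (by norm_num)) h6
  have b5' : Pa (E 0) (ps 0) z5 := b5.mono fun z hz => ⟨hz.1, Sd6.1 hz.2⟩
  have c0' : Pa (E 0) z5 z0 := b5'.symm.trans a0
  have c1' : Pa (E 1) z0 z1 := b0.symm.trans a1
  have c2' : Pa (E 2) z1 z2 := b1.symm.trans a2
  have c3' : Pa (E 3) z2 z3 := b2.symm.trans a3
  have c4' : Pa (E 4) z3 z4 := b3.symm.trans a4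
  have c5' : Pa (E 5) z4 z5 := b4.symm.trans a5
  set I : ℤ × ℤ → Prop := fun p => Nlt (6 * m) (p - c0) with hI
  obtain ⟨x0, w0, f0⟩ := wk_right I c0' (by
    rintro p hp z ⟨_, hz⟩ hzp
    rw [Sd0] at hz
    simp only [hI, Nlt, Prod.fst_sub, Prod.snd_sub] at hp hz
    omega)
  obtain ⟨x1, w1, f1⟩ := wk_right I c1' (by
    rintro p hp z ⟨_, hz⟩ hzp
    rw [Sd1] at hz
    simp only [hI, Nlt, Prod.fst_sub, Prod.snd_sub] at hp hz
    omega)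
  obtain ⟨x5, w5, f5⟩ := wk_right I c5' (by
    rintro p hp z ⟨_, hz⟩ hzp
    rw [Sd5] at hz
    simp only [hI, Nlt, Prod.fst_sub, Prod.snd_sub] at hp hz
    omega)
  obtain ⟨x2, w2, f2⟩ := wk_left I c2' (by
    rintro p hp z ⟨_, hz⟩ hzp
    rw [Sd2] at hz
    simp only [hI, Nlt, Prod.fst_sub, Prod.snd_sub] at hp hz
    omega)
  obtain ⟨x3, w3, f3⟩ := wk_left I c3' (by
    rintro p hp z ⟨_, hz⟩ hzp
    rw [Sd3] at hz
    simp only [hI, Nlt, Prod.fst_sub, Prod.snd_sub] at hp hz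
    omega)
  obtain ⟨x4, w4, f4⟩ := wk_left I c4' (by
    rintro p hp z ⟨_, hz⟩ hzp
    rw [Sd4] at hz
    simp only [hI, Nlt, Prod.fst_sub, Prod.snd_sub] at hp hz
    omega)
  set R : ℤ × ℤ → Prop := fun z => D z ∧ ∃ k < 6, Sd m k (z - c0) with hR
  have g : ∀ k < 6, ∀ z, E k z → R z := fun k hk z hz => ⟨hz.1, k, hk, hz.2⟩
  refine ⟨z5, _, ((((((w0.mono (g 0 (by norm_num))).trans (w1.mono (g 1 (by norm_num)))).trans
    (w2.mono (g 2 (by norm_num)))).trans (w3.mono (g 3 (by norm_num)))).trans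
    (w4.mono (g 4 (by norm_num)))).trans (w5.mono (g 5 (by norm_num)))), ?_⟩
  intro p hp
  rw [f0 p hp, f1 p hp, f2 p hp, f3 p hp, f4 p hp, f5 p hp]
  have hz1 : ind p z1 = 0 := by
    have s1 := a1.right.2
    have s2 := b1.right.2
    rw [Sd1] at s1
    rw [Sd2] at s2
    unfold ind
    rw [if_neg]
    simp only [Nlt, Prod.fst_sub, Prod.snd_sub] at hp s1 s2
    omega
  have hz4 : ind p z4 = 1 := by
    have s1 := a4.right.2
    have s2 := b4.right.2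
    rw [Sd4] at s1
    rw [Sd5] at s2
    unfold ind
    rw [if_pos]
    simp only [Nlt, Prod.fst_sub, Prod.snd_sub] at hp s1 s2
    omega
  rw [hz1, hz4]
  have t1 := two_mul' (ind p z0)
  have t2 := two_mul' (ind p z5)
  linear_combination t1 + t2

/-- position of the side rectangles -/
lemma Sd_prop {m : ℤ} {u : ℤ × ℤ} (h : ∃ k < 6, Sd m k u) : ¬ Nlt (6 * m) u ∧
    Nlt (18 * m + 1) u ∧ (u.2 = 0 → -(8 * m) ≤ u.1 ∧ u.1 ≤ 8 * m) ∧
    (u.1 = 0 → -(8 * m) ≤ u.2 ∧ u.2 ≤ 8 * m) := by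
  obtain ⟨k, hk, h⟩ := h
  interval_cases k
  · rw [Sd0] at h; unfold Nlt; omega
  · rw [Sd1] at h; unfold Nlt; omega
  · rw [Sd2] at h; unfold Nlt; omega
  · rw [Sd3] at h; unfold Nlt; omega
  · rw [Sd4] at h; unfold Nlt; omega
  · rw [Sd5] at h; unfold Nlt; omega

lemma Wk.self {S : ℤ × ℤ → Prop} {u v : ℤ × ℤ} {x : ℤ × ℤ → ZMod 2} (h : Wk S u v x) :
    Wk (fun z => Pa S u z) u v x := by
  induction h with
  | nil h => exact Wk.nil (Pa.refl h)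
  | snoc h1 h2 h3 ih => exact Wk.snoc ih h2 (h1.pa.tail h2 h3)

end Pool.Agent.H52.Tri
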