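import Mathlib
import Pool.Agent.H52.Tri.RingW

set_option autoImplicit false
open Finset

/-! Chains of rings; long crossings of parallelogram strips. -/

namespace Pool.Agent.H52.Tri

open Pool.Agent.H75.Perc
open Pool.Agent.H98.Tri (Nlt epos epos_inj CC_inc CC_prob)

/-- all six side rectangles are crossed the long way -/
def Ring (m : ℤ) (c : ℤ × ℤ) (ω : Finset (ℤ × ℤ)) : Prop :=
  ∀ k < 6, Pool.Agent.H98.Tri.CC m c k ω

lemma Ring.walk {m : ℤ} (hm : 1 ≤ m) {c : ℤ × ℤ} {ω : Finset (ℤ × ℤ)} (h : Ring m c ω) :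
    ∃ u x, Wk (fun z => z ∈ ω ∧ ∃ k < 6, Sd m k (z - c)) u u x ∧
      ∀ p, Nlt (6 * m) (p - c) → x p = 1 := by
  have : ∀ k, ∃ p q, k < 6 → Hk m c (fun z => z ∈ ω) k p q := by
    intro k
    by_cases hk : k < 6
    · obtain ⟨p, q, hpq⟩ := Hk_of_CC (h k hk)
      exact ⟨p, q, fun _ => hpq⟩
    · exact ⟨0, 0, fun h' => absurd h' hk⟩
  choose ps qs hps using this
  exact ring_walk hm hps

lemma wk_left_pt {S : ℤ × ℤ → Prop} {u : ℤ × ℤ} {x : ℤ × ℤ → ZMod 2} (h : Wk S u u x) {p : ℤ × ℤ}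
    (hp : x p = 1) : ∃ z, S z ∧ z.2 = p.2 ∧ z.1 ≤ p.1 := by
  by_contra hcon
  push Not at hcon
  have := h.far_left hcon
  rw [hp, two_mul'] at this
  exact absurd this (by decide)

lemma wk_right_pt {S : ℤ × ℤ → Prop} {u : ℤ × ℤ} {x : ℤ × ℤ → ZMod 2} (h : Wk S u u x) {p : ℤ × ℤ}
    (hp : x p = 1) : ∃ z, S z ∧ z.2 = p.2 ∧ p.1 < z.1 := by
  by_contra hcon
  push Not at hcon
  have := h.far_right hcon
  rw [hp] at this
  exact absurd this (by decide)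

lemma Sd_rows {m : ℤ} {u : ℤ × ℤ} (h : ∃ k < 6, Sd m k u) :
    -(12 * m) ≤ u.2 ∧ u.2 ≤ 12 * m ∧ -(12 * m) ≤ u.1 ∧ u.1 ≤ 12 * m := by
  obtain ⟨k, hk, h⟩ := h
  interval_cases k
  · rw [Sd0] at h; omega
  · rw [Sd1] at h; omega
  · rw [Sd2] at h; omega
  · rw [Sd3] at h; omega
  · rw [Sd4] at h; omega
  · rw [Sd5] at h; omega

/-- two consecutive rings meet -/
lemma rings_meet {m : ℤ} (hm : 2 ≤ m) {c : ℤ × ℤ} {D : ℤ × ℤ → Prop} {u u' : ℤ × ℤ}
    {x x' : ℤ × ℤ → ZMod 2}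
    (h : Wk (fun z => D z ∧ ∃ k < 6, Sd m k (z - c)) u u x)
    (hx : ∀ p, Nlt (6 * m) (p - c) → x p = 1)
    (h' : Wk (fun z => D z ∧ ∃ k < 6, Sd m k (z - (c + (5 * m + 1, 0)))) u' u' x')
    (hx' : ∀ p, Nlt (6 * m) (p - (c + (5 * m + 1, 0))) → x' p = 1) :
    ∃ z, Pa (fun z => D z ∧ ∃ k < 6, Sd m k (z - c)) u z ∧
      Pa (fun z => D z ∧ ∃ k < 6, Sd m k (z - (c + (5 * m + 1, 0)))) u' z := by
  by_contra hcon
  push Not at hcon
  have hc : x' (c + (5 * m + 1, 0)) = 1 := by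
    apply hx'
    rw [sub_self]
    unfold Nlt
    simp only [Prod.fst_zero, Prod.snd_zero]
    omega
  obtain ⟨z, hz1, hz2, hz3⟩ := wk_left_pt h'.self hc
  obtain ⟨w, hw1, hw2, hw3⟩ := wk_right_pt h'.self hc
  have sz := Sd_prop hz1.right.2
  have sw := Sd_prop hw1.right.2
  simp only [Prod.snd_add, Prod.fst_add, add_zero] at hz2 hz3 hw2 hw3
  have ez : x z = 1 := by
    apply hx
    unfold Nlt at sz ⊢
    simp only [Prod.fst_sub, Prod.snd_sub, Prod.fst_add, Prod.snd_add, add_zero] at sz ⊢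
    omega
  have ew : x w = 0 := by
    apply h.self.far_right
    intro y hy hyw
    have sy := Sd_prop hy.right.2
    unfold Nlt at sw sy
    simp only [Prod.fst_sub, Prod.snd_sub, Prod.fst_add, Prod.snd_add, add_zero] at sw sy
    omega
  have hzw : Pa (fun y => Pa (fun z => D z ∧ ∃ k < 6, Sd m k (z - (c + (5 * m + 1, 0)))) u' y) z w :=
    hz1.self.symm.trans hw1.self
  have := h.self.jt_pa hzw (fun y hy hy' => hcon y hy' hy)
  rw [ez, ew] at this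
  exact absurd this (by decide)

/-- extraction of a crossing between two columns -/
lemma extract_col {a b : ℤ} (hab : a ≤ b) {S : ℤ × ℤ → Prop} {u v : ℤ × ℤ} (h : Pa S u v)
    (hu : u.1 ≤ a) (hv : b ≤ v.1) :
    ∃ p q, p.1 = a ∧ q.1 = b ∧ Pa (fun z => S z ∧ a ≤ z.1 ∧ z.1 ≤ b) p q := by
  -- last visit to the columns < a
  have h1 : ∃ p, p.1 = a ∧ Pa (fun z => S z ∧ a ≤ z.1) p v := by
    rcases Int.lt_or_eq_of_le hu with hu | hu
    · rcases h.last (K := fun z => z.1 < a) (by omega) with h1 | ⟨z, w, _, h2, h3, h4⟩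
      · exact absurd h1.left.2 (by simpa using hu)
      · have hw : ¬ w.1 < a := h4.left.2
        have hta := h3.cases
        exact ⟨w, by omega, h4.mono fun y hy => ⟨hy.1, by have := hy.2; omega⟩⟩
    · rcases h.last (K := fun z => z.1 < a) (by omega) with h1 | ⟨z, w, _, h2, h3, h4⟩
      · exact ⟨u, hu, h1.mono fun y hy => ⟨hy.1, by have := hy.2; omega⟩⟩
      · have hw : ¬ w.1 < a := h4.left.2
        have hta := h3.cases
        exact ⟨w, by omega, h4.mono fun y hy => ⟨hy.1, by have := hy.2; omega⟩⟩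
  obtain ⟨p, hp, hP⟩ := h1
  rcases hP.first (K := fun z => b < z.1) (by omega) with h5 | ⟨z', w', h6, h7, h8, _⟩
  · refine ⟨p, v, hp, ?_, h5.mono fun y hy => ⟨hy.1.1, hy.1.2, by have := hy.2; omega⟩⟩
    have := h5.right.2
    omega
  · have hz' : ¬ b < z'.1 := h6.right.2
    have hta' := h7.cases
    exact ⟨p, z', hp, by omega, h6.mono fun y hy => ⟨hy.1.1, hy.1.2, by have := hy.2; omega⟩⟩

/-- crossing of the box `[x, x+L] × [y, y+h]` from the left to the right -/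
def SC (x y : ℤ) (L h : ℕ) (ω : Finset (ℤ × ℤ)) : Prop :=
  ∃ p q : ℤ × ℤ, p.1 = x ∧ q.1 = x + L ∧
    Pa (fun z => z ∈ ω ∧ (x ≤ z.1 ∧ z.1 ≤ x + L) ∧ (y ≤ z.2 ∧ z.2 ≤ y + h)) p q

noncomputable def Bxx (x y : ℤ) (L h : ℕ) : Finset (ℤ × ℤ) := Icc x (x + L) ×ˢ Icc y (y + h)

lemma mem_Bxx {x y : ℤ} {L h : ℕ} {z : ℤ × ℤ} :
    z ∈ Bxx x y L h ↔ (x ≤ z.1 ∧ z.1 ≤ x + L) ∧ (y ≤ z.2 ∧ z.2 ≤ y + h) := by
  unfold Bxx; rw [mem_product, mem_Icc, mem_Icc]

lemma SC_inc (x y : ℤ) (L h : ℕ) : Inc (SC x y L h) := by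
  rintro ω ω' hω ⟨p, q, h1, h2, h3⟩
  exact ⟨p, q, h1, h2, h3.mono fun z hz => ⟨hω hz.1, hz.2⟩⟩

lemma SC_restrict (x y : ℤ) (L h : ℕ) (ω : Finset (ℤ × ℤ)) :
    SC x y L h ω ↔ SC x y L h (ω ∩ Bxx x y L h) := by
  unfold SC
  have : ∀ z : ℤ × ℤ, (z ∈ ω ∩ Bxx x y L h ∧ (x ≤ z.1 ∧ z.1 ≤ x + L) ∧ y ≤ z.2 ∧ z.2 ≤ y + h) ↔
      (z ∈ ω ∧ (x ≤ z.1 ∧ z.1 ≤ x + L) ∧ y ≤ z.2 ∧ z.2 ≤ y + h) := by
    intro z; rw [mem_inter, mem_Bxx]; tauto
  simp only [this]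

lemma Pr_SC {x y : ℤ} {L h : ℕ} {E E' : Finset (ℤ × ℤ)} (h1 : Bxx x y L h ⊆ E)
    (h2 : Bxx x y L h ⊆ E') : Pr E (SC x y L h) = Pr E' (SC x y L h) := by
  have key : ∀ E : Finset (ℤ × ℤ), Bxx x y L h ⊆ E →
      Pr E (SC x y L h) = Pr (Bxx x y L h) (SC x y L h) := by
    intro E hE
    rw [← Pr_restrict hE]
    exact Pr_congr fun ω _ => SC_restrict x y L h ω
  rw [key E h1, key E' h2]

/-- FKG for finitely many events -/
lemma Pr_all (E : Finset (ℤ × ℤ)) (A : ℕ → Finset (ℤ × ℤ) → Prop) (c : ℝ) (hc : 0 ≤ c) (n : ℕ)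
    (hA : ∀ i, Inc (A i)) (h : ∀ i < n, c ≤ Pr E (A i)) : c ^ n ≤ Pr E (fun ω => ∀ i < n, A i ω) := by
  induction n with
  | zero =>
    rw [pow_zero, ← Pr_true E]
    exact Pr_mono fun ω _ _ i hi => absurd hi (by omega)
  | succ n ih =>
    have h1 := ih fun i hi => h i (by omega)
    have h2 := h n (by omega)
    have hI : Inc (fun ω => ∀ i < n, A i ω) := fun ω ω' hω ha i hi => hA i _ _ hω (ha i hi)
    have h3 := Pr_harris E hI (hA n)
    have h4 : c ^ (n + 1) ≤ Pr E (fun ω => ∀ i < n, A i ω) * Pr E (A n) := by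
      rw [pow_succ]
      exact mul_le_mul h1 h2 hc (Pr_nonneg _ _)
    refine h4.trans (h3.trans (Pr_mono ?_))
    rintro ω _ ⟨h5, h6⟩ i hi
    rcases Nat.lt_succ_iff_lt_or_eq.1 hi with h7 | h7
    · exact h5 i h7
    · rw [h7]; exact h6

lemma Ring_inc (m : ℤ) (c : ℤ × ℤ) : Inc (Ring m c) := fun ω ω' h h' k hk =>
  CC_inc m c k ω ω' h (h' k hk)

/-- faces used by the ring -/
noncomputable def RE (m : ℤ) (c : ℤ × ℤ) : Finset (ℤ × ℤ) := (range 6).biUnion (fun k =>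
    (Rct (6 * m) (16 * m)).map ⟨epos m c k, epos_inj m c k⟩)

lemma RE_sub {m : ℤ} {c : ℤ × ℤ} {E : Finset (ℤ × ℤ)} (h : RE m c ⊆ E) (k : ℕ) (hk : k < 6) :
    (Rct (6 * m) (16 * m)).map ⟨epos m c k, epos_inj m c k⟩ ⊆ E :=
  (subset_biUnion_of_mem (fun k =>
      (Rct (6 * m) (16 * m)).map ⟨epos m c k, epos_inj m c k⟩) (mem_range.2 hk)).trans h

/-- rings have probability bounded below -/
theorem Pr_Ring {m : ℕ} (hm : 1 ≤ m) {c : ℤ × ℤ} {E : Finset (ℤ × ℤ)} (h : RE m c ⊆ E) :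
    ((1 : ℝ) / 2 ^ 22) ^ 6 ≤ Pr E (Ring m c) := by
  have h1 := Pr_all E (fun k => Pool.Agent.H98.Tri.CC m c k) ((1 : ℝ) / 2 ^ 22) (by positivity) 6
    (fun k => CC_inc m c k) (fun k hk => (rsw m hm).trans (CC_prob m c k (RE_sub h k hk)))
  exact h1

lemma Pr_subset {T E : Finset (ℤ × ℤ)} (h : T ⊆ E) :
    (1 : ℝ) / 2 ^ T.card ≤ Pr E (fun ω => T ⊆ ω) := by
  classical
  have h1 : Pr E (fun ω => T ⊆ ω) = Pr T (fun ω => T ⊆ ω) := by
    rw [← Pr_restrict h]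
    apply Pr_congr
    intro ω _
    constructor
    · intro h2; exact subset_inter h2 (subset_refl _)
    · intro h2; exact h2.trans inter_subset_left
  rw [h1, Pr_eq]
  apply div_le_div_of_nonneg_right _ (by positivity)
  have : 0 < (T.powerset.filter (fun ω => T ⊆ ω)).card := by
    rw [card_pos]
    exact ⟨T, mem_filter.2 ⟨mem_powerset_self T, subset_refl _⟩⟩
  exact_mod_cast this

lemma small_strip {x y : ℤ} {L h : ℕ} {E : Finset (ℤ × ℤ)} (hE : Bxx x y L h ⊆ E) :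
    (1 : ℝ) / 2 ^ (L + 1) ≤ Pr E (SC x y L h) := by
  classical
  set T : Finset (ℤ × ℤ) := Icc x (x + L) ×ˢ {y} with hT
  have hTE : T ⊆ E := by
    intro z hz
    rw [hT, mem_product, mem_Icc, mem_singleton] at hz
    apply hE
    rw [mem_Bxx]
    omega
  have hcard : T.card = L + 1 := by
    rw [hT, card_product, card_singleton, Int.card_Icc, mul_one]
    omega
  have h1 := Pr_subset hTE
  rw [hcard] at h1
  refine h1.trans (Pr_mono ?_)
  intro ω _ hω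
  refine ⟨(x, y), (x + L, y), rfl, rfl, pa_row L ?_⟩
  intro i hi
  refine ⟨hω ?_, ⟨by simp, by simp only; omega⟩, ⟨le_rfl, by simp⟩⟩
  rw [hT, mem_product, mem_Icc, mem_singleton]
  exact ⟨⟨by simp, by simp only; omega⟩, rfl⟩

/-- a chain of rings gives a long crossing -/
lemma chain_SC {m : ℤ} (hm : 2 ≤ m) {x y : ℤ} {L h : ℕ} (hh : 24 * m ≤ h) (n : ℕ)
    (hn : (L : ℤ) ≤ (5 * m + 1) * n) {ω : Finset (ℤ × ℤ)}
    (hR : ∀ i ≤ n, Ring m (x + (5 * m + 1) * i, y + 12 * m) ω) : SC x y L h ω := by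
  set c : ℕ → ℤ × ℤ := fun i => (x + (5 * m + 1) * i, y + 12 * m) with hc
  have hwalk : ∀ i, ∃ u x, i ≤ n → (Wk (fun z => z ∈ ω ∧ ∃ k < 6, Sd m k (z - c i)) u u x ∧
      ∀ p, Nlt (6 * m) (p - c i) → x p = 1) := by
    intro i
    by_cases hi : i ≤ n
    · obtain ⟨u, x, h1⟩ := (hR i hi).walk (by omega)
      exact ⟨u, x, fun _ => h1⟩
    · exact ⟨0, fun _ => 0, fun h' => absurd h' hi⟩
  choose us xs hus using hwalk
  set G : ℤ × ℤ → Prop := fun z => z ∈ ω ∧ (y ≤ z.2 ∧ z.2 ≤ y + h) with hG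
  have hsub : ∀ i z, (z ∈ ω ∧ ∃ k < 6, Sd m k (z - c i)) → G z := by
    rintro i z ⟨h1, h2⟩
    have h3 := Sd_rows h2
    simp only [hc, Prod.snd_sub] at h3
    exact ⟨h1, by omega, by omega⟩
  have hcs : ∀ i, c (i + 1) = c i + (5 * m + 1, 0) := by
    intro i
    simp only [hc, Prod.mk_add_mk, add_zero, Prod.mk.injEq, and_true]
    push_cast
    ring
  have hchain : ∀ i ≤ n, Pa G (us 0) (us i) := by
    intro i
    induction i with
    | zero =>
      intro h0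
      exact Pa.refl (hsub 0 _ (hus 0 h0).1.left)
    | succ i ih =>
      intro hi
      obtain ⟨w1, f1⟩ := hus i (by omega)
      obtain ⟨w2, f2⟩ := hus (i + 1) hi
      rw [hcs] at w2 f2
      obtain ⟨z, hz1, hz2⟩ := rings_meet hm w1 f1 w2 f2
      refine (ih (by omega)).trans ((hz1.mono (hsub i)).trans ?_)
      have hz2' := hz2
      rw [← hcs] at hz2'
      exact (hz2'.mono (hsub (i + 1))).symm
  have self0 : ∀ i, Nlt (6 * m) (c i - c i) := by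
    intro i
    rw [sub_self]
    unfold Nlt
    simp only [Prod.fst_zero, Prod.snd_zero]
    omega
  obtain ⟨w0, f0⟩ := hus 0 (by omega)
  obtain ⟨wn, fn⟩ := hus n le_rfl
  obtain ⟨z, hz1, hz2, hz3⟩ := wk_left_pt w0.self (f0 _ (self0 0))
  obtain ⟨w, hw1, hw2, hw3⟩ := wk_right_pt wn.self (fn _ (self0 n))
  have hP : Pa G z w :=
    ((hz1.mono (hsub 0)).symm.trans (hchain n le_rfl)).trans (hw1.mono (hsub n))
  have e1 : z.1 ≤ x := by
    simp only [hc, Nat.cast_zero, mul_zero, add_zero] at hz3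
    exact hz3
  have e2 : x + L ≤ w.1 := by
    simp only [hc] at hw3
    omega
  obtain ⟨p, q, hp, hq, hpq⟩ := extract_col (by omega) hP e1 e2
  exact ⟨p, q, hp, hq, hpq.mono fun z hz => ⟨hz.1.1, hz.2, hz.1.2⟩⟩

/-- **Strips.** -/
theorem strip (K : ℕ) : ∃ c : ℝ, 0 < c ∧ ∀ (x y : ℤ) (L h : ℕ), L ≤ K * h →
    ∀ E : Finset (ℤ × ℤ), Bxx x y L h ⊆ E → c ≤ Pr E (SC x y L h) := by
  refine ⟨((1 : ℝ) / 2 ^ 22) ^ (6 * (10 * K + 2)), by positivity, ?_⟩
  intro x y L h hL E hE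
  rcases Nat.lt_or_ge h 48 with hh | hh
  · refine le_trans ?_ (small_strip hE)
    rw [div_pow, one_pow, ← pow_mul]
    apply one_div_le_one_div_of_le (by positivity)
    apply pow_le_pow_right₀ (by norm_num)
    have : K * h ≤ K * 48 := Nat.mul_le_mul_left _ hh.le
    omega
  · set m : ℕ := h / 24 with hm
    have hm2 : 2 ≤ m := by omega
    have hm3 : h < 24 * (m + 1) := by omega
    have hm4 : 24 * m ≤ h := by omega
    set n : ℕ := 10 * K + 1 with hn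
    set c : ℕ → ℤ × ℤ := fun i => (x + (5 * m + 1) * i, y + 12 * m) with hc
    set E' : Finset (ℤ × ℤ) := Bxx x y L h ∪ (range (n + 1)).biUnion (fun i => RE m (c i)) with hE'
    rw [Pr_SC hE (E' := E') subset_union_left]
    have hRE : ∀ i < n + 1, RE m (c i) ⊆ E' := by
      intro i hi
      refine subset_trans ?_ subset_union_right
      exact subset_biUnion_of_mem (fun i => RE m (c i)) (mem_range.2 hi)
    have h1 := Pr_all E' (fun i => Ring m (c i)) (((1 : ℝ) / 2 ^ 22) ^ 6) (by positivity) (n + 1)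
      (fun i => Ring_inc m (c i)) (fun i hi => Pr_Ring (by omega) (hRE i hi))
    rw [← pow_mul] at h1
    refine h1.trans (Pr_mono ?_)
    intro ω _ hω
    refine chain_SC (m := m) (by exact_mod_cast hm2) (by exact_mod_cast hm4) n ?_ ?_
    · have e1 : L ≤ (5 * m + 1) * n := by
        have e2 : K * h ≤ K * (24 * (m + 1)) := Nat.mul_le_mul_left _ hm3.le
        have e3 : K * 1 ≤ K * m := Nat.mul_le_mul_left _ (by omega)
        rw [hn]
        nlinarith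
      exact_mod_cast e1
    · intro i hi
      exact hω i (by omega)

end Pool.Agent.H52.Tri
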