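import Mathlib
import Pool.Agent.H52.Tri.Strip

set_option autoImplicit false
open Finset

/-! Parallelogram annuli: four crossed strips, closed walk with odd crossing number, probabilities. -/

namespace Pool.Agent.H52.Tri

open Pool.Agent.H75.Perc

/-- crossing of the box from the left to the right by faces of `D` -/
def HX (x y : ℤ) (L h : ℕ) (D : ℤ × ℤ → Prop) : Prop :=
  ∃ p q : ℤ × ℤ, p.1 = x ∧ q.1 = x + L ∧
    Pa (fun z => D z ∧ (x ≤ z.1 ∧ z.1 ≤ x + L) ∧ (y ≤ z.2 ∧ z.2 ≤ y + h)) p q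

/-- crossing of the box from the bottom to the top by faces of `D` -/
def VX (x y : ℤ) (L h : ℕ) (D : ℤ × ℤ → Prop) : Prop :=
  ∃ p q : ℤ × ℤ, p.2 = y ∧ q.2 = y + h ∧
    Pa (fun z => D z ∧ (x ≤ z.1 ∧ z.1 ≤ x + L) ∧ (y ≤ z.2 ∧ z.2 ≤ y + h)) p q

lemma HX.mono {x y : ℤ} {L h : ℕ} {D D' : ℤ × ℤ → Prop} (hD : ∀ z, D z → D' z)
    (H : HX x y L h D) : HX x y L h D' := by
  obtain ⟨p, q, h1, h2, h3⟩ := H
  exact ⟨p, q, h1, h2, h3.mono fun z hz => ⟨hD z hz.1, hz.2⟩⟩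

lemma VX.mono {x y : ℤ} {L h : ℕ} {D D' : ℤ × ℤ → Prop} (hD : ∀ z, D z → D' z)
    (H : VX x y L h D) : VX x y L h D' := by
  obtain ⟨p, q, h1, h2, h3⟩ := H
  exact ⟨p, q, h1, h2, h3.mono fun z hz => ⟨hD z hz.1, hz.2⟩⟩

lemma VX_swap {x y : ℤ} {L h : ℕ} {D : ℤ × ℤ → Prop} :
    VX x y L h D ↔ HX y x h L (fun z => D z.swap) := by
  constructor
  · rintro ⟨p, q, h1, h2, h3⟩
    exact ⟨p.swap, q.swap, h1, h2, pa_map Prod.swap (fun a b hab => TA_swap hab)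
      (fun z hz => ⟨by simpa using hz.1, hz.2.2, hz.2.1⟩) h3⟩
  · rintro ⟨p, q, h1, h2, h3⟩
    exact ⟨p.swap, q.swap, h1, h2, pa_map Prod.swap (fun a b hab => TA_swap hab)
      (fun z hz => ⟨hz.1, hz.2.2, hz.2.1⟩) h3⟩

/-- four crossed strips around `c`: the annulus `w ≤ |z - c| ≤ W` (sup norm) -/
def AX (c : ℤ × ℤ) (w W : ℕ) (D : ℤ × ℤ → Prop) : Prop :=
  HX (c.1 - W) (c.2 + w) (2 * W) (W - w) D ∧ HX (c.1 - W) (c.2 - W) (2 * W) (W - w) D ∧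
  VX (c.1 - W) (c.2 - W) (W - w) (2 * W) D ∧ VX (c.1 + w) (c.2 - W) (W - w) (2 * W) D

lemma AX.mono {c : ℤ × ℤ} {w W : ℕ} {D D' : ℤ × ℤ → Prop} (hD : ∀ z, D z → D' z)
    (H : AX c w W D) : AX c w W D' :=
  ⟨H.1.mono hD, H.2.1.mono hD, H.2.2.1.mono hD, H.2.2.2.mono hD⟩

/-- the faces of the annulus -/
def inA (c : ℤ × ℤ) (w W : ℕ) (z : ℤ × ℤ) : Prop :=
  ((c.1 - W ≤ z.1 ∧ z.1 ≤ c.1 + W) ∧ (c.2 - W ≤ z.2 ∧ z.2 ≤ c.2 + W)) ∧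
    ((z.1 ≤ c.1 - w ∨ c.1 + w ≤ z.1) ∨ (z.2 ≤ c.2 - w ∨ c.2 + w ≤ z.2))

/-- horizontal and vertical paths meet -/
lemma meetHV {a b c d : ℤ} {A B : ℤ × ℤ → Prop} {p q r s : ℤ × ℤ} (hP : Pa A p q) (hQ : Pa B r s)
    (hp : p.1 = a) (hq : q.1 = b) (hr : r.2 = c) (hs : s.2 = d)
    (hA : ∀ z, A z → c ≤ z.2 ∧ z.2 ≤ d) (hB : ∀ z, B z → a ≤ z.1 ∧ z.1 ≤ b) :
    ∃ z, Pa A p z ∧ Pa B r z := by
  obtain ⟨m, P, hP0, hPm, hPs, hPA⟩ := hP.self.seq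
  obtain ⟨l, Q, hQ0, hQl, hQs, hQB⟩ := hQ.self.seq
  obtain ⟨i, hi, j, hj, hij⟩ := cross_seqT P Q m l a b c d hPs hQs (by rw [hP0, hp])
    (by rw [hPm, hq]) (by rw [hQ0, hr]) (by rw [hQl, hs])
    (fun i hi => hA _ (hPA i hi).right) (fun j hj => hB _ (hQB j hj).right)
  exact ⟨P i, hPA i hi, by rw [hij]; exact hQB j hj⟩

/-- The ring: closed walk in the annulus, crossing number `1` at all faces inside. -/
theorem AX.walk {c : ℤ × ℤ} {w W : ℕ} (hw : w ≤ W) {D : ℤ × ℤ → Prop} (H : AX c w W D) :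
    ∃ u x, Wk (fun z => D z ∧ inA c w W z) u u x ∧
      ∀ p : ℤ × ℤ, (c.1 - w < p.1 ∧ p.1 < c.1 + w) ∧ (c.2 - w < p.2 ∧ p.2 < c.2 + w) →
        x p = 1 := by
  obtain ⟨⟨p1, q1, hp1, hq1, P1⟩, ⟨p2, q2, hp2, hq2, P2⟩, ⟨p3, q3, hp3, hq3, P3⟩,
    ⟨p4, q4, hp4, hq4, P4⟩⟩ := H
  have eW : ((2 * W : ℕ) : ℤ) = 2 * W := by push_cast; ring
  have eWw : ((W - w : ℕ) : ℤ) = W - w := by push_cast [hw]; ring
  have hwZ : (w : ℤ) ≤ W := by exact_mod_cast hw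
  rw [eW] at hq1 hq2 hq3 hq4 P1 P2 P3 P4
  rw [eWw] at P1 P2 P3 P4
  -- 1 top, 2 bottom, 3 left, 4 right
  obtain ⟨ztl, t1, t3⟩ := meetHV P1 P3 hp1 hq1 hp3 hq3 (fun z hz => by have := hz.2.2; omega)
    (fun z hz => by have := hz.2.1; omega)
  obtain ⟨ztr, s1, s4⟩ := meetHV P1 P4 hp1 hq1 hp4 hq4 (fun z hz => by have := hz.2.2; omega)
    (fun z hz => by have := hz.2.1; omega)
  obtain ⟨zbl, b2, b3⟩ := meetHV P2 P3 hp2 hq2 hp3 hq3 (fun z hz => by have := hz.2.2; omega)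
    (fun z hz => by have := hz.2.1; omega)
  obtain ⟨zbr, d2, d4⟩ := meetHV P2 P4 hp2 hq2 hp4 hq4 (fun z hz => by have := hz.2.2; omega)
    (fun z hz => by have := hz.2.1; omega)
  set I : ℤ × ℤ → Prop := fun p => (c.1 - w < p.1 ∧ p.1 < c.1 + w) ∧
    (c.2 - w < p.2 ∧ p.2 < c.2 + w) with hI
  obtain ⟨x4, w4, f4⟩ := wk_right I (d4.symm.trans s4) (by
    rintro p ⟨h1, h2⟩ z ⟨_, hz1, hz2⟩ hzp; omega)
  obtain ⟨x1, w1, f1⟩ := wk_left I (s1.symm.trans t1) (by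
    rintro p ⟨h1, h2⟩ z ⟨_, hz1, hz2⟩ hzp; omega)
  obtain ⟨x3, w3, f3⟩ := wk_left I (t3.symm.trans b3) (by
    rintro p ⟨h1, h2⟩ z ⟨_, hz1, hz2⟩ hzp; omega)
  obtain ⟨x2, w2, f2⟩ := wk_left I (b2.symm.trans d2) (by
    rintro p ⟨h1, h2⟩ z ⟨_, hz1, hz2⟩ hzp; omega)
  have g4 := w4.mono (S' := fun z => D z ∧ inA c w W z) (by
    rintro z ⟨h1, h2, h3⟩; refine ⟨h1, ?_, ?_⟩ <;> omega)
  have g1 := w1.mono (S' := fun z => D z ∧ inA c w W z) (by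
    rintro z ⟨h1, h2, h3⟩; refine ⟨h1, ?_, ?_⟩ <;> omega)
  have g3 := w3.mono (S' := fun z => D z ∧ inA c w W z) (by
    rintro z ⟨h1, h2, h3⟩; refine ⟨h1, ?_, ?_⟩ <;> omega)
  have g2 := w2.mono (S' := fun z => D z ∧ inA c w W z) (by
    rintro z ⟨h1, h2, h3⟩; refine ⟨h1, ?_, ?_⟩ <;> omega)
  refine ⟨zbr, _, ((g4.trans g1).trans g3).trans g2, ?_⟩
  intro p hp
  rw [f4 p hp, f1 p hp, f3 p hp, f2 p hp]
  have e1 : ind p zbr = 1 := by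
    have h1 := d2.right.2.2
    obtain ⟨_, h3⟩ := hp
    unfold ind; rw [if_pos (by omega)]
  have e2 : ind p ztr = 0 := by
    have h1 := s1.right.2.2
    obtain ⟨_, h3⟩ := hp
    unfold ind; rw [if_neg (by omega)]
  rw [e1, e2]
  decide

/-- outside the annulus the crossing number is `0` -/
lemma inA_outer {c : ℤ × ℤ} {w W : ℕ} {D : ℤ × ℤ → Prop} {u : ℤ × ℤ} {x : ℤ × ℤ → ZMod 2}
    (h : Wk (fun z => D z ∧ inA c w W z) u u x) {p : ℤ × ℤ}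
    (hp : p.1 < c.1 - W ∨ c.1 + W < p.1 ∨ p.2 < c.2 - W ∨ c.2 + W < p.2) : x p = 0 := by
  by_cases h1 : p.1 < c.1 - W
  · rw [h.far_left (by rintro z ⟨_, hz, _⟩ _; omega)]
    exact two_mul' _
  · exact h.far_right (by rintro z ⟨_, hz, _⟩ hzp; omega)

/-- A path from the inside to the outside meets the ring. -/
theorem AX.block {c : ℤ × ℤ} {w W : ℕ} (hw : w ≤ W) {D T : ℤ × ℤ → Prop} (H : AX c w W D)
    {p q : ℤ × ℤ} (hP : Pa T p q)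
    (hp : (c.1 - w < p.1 ∧ p.1 < c.1 + w) ∧ (c.2 - w < p.2 ∧ p.2 < c.2 + w))
    (hq : q.1 < c.1 - W ∨ c.1 + W < q.1 ∨ q.2 < c.2 - W ∨ c.2 + W < q.2) :
    ∃ z, T z ∧ D z ∧ inA c w W z := by
  by_contra hcon
  push Not at hcon
  obtain ⟨u, x, h1, h2⟩ := H.walk hw
  have e1 := h2 p hp
  have e2 := inA_outer h1 hq
  have e3 := h1.jt_pa hP (fun z hz hz' => hcon z hz hz'.1 hz'.2)
  rw [e1, e2] at e3
  exact absurd e3 (by decide)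

/-! Probabilities -/

/-- faces off `U` may be regarded as black -/
lemma Pr_off (U E : Finset (ℤ × ℤ)) {A : Finset (ℤ × ℤ) → Prop} (hA : Inc A) :
    Pr E A ≤ Pr U (fun ω => A (ω ∪ (E \ U))) := by
  classical
  have h1 : Pr E A ≤ Pr (E ∪ U) A := Pr_inc subset_union_left hA
  have h2 : Pr (E ∪ U) A ≤ Pr (E ∪ U) (fun ω => A ((ω ∩ U) ∪ (E \ U))) := by
    apply Pr_mono
    intro ω hω h3
    refine hA _ _ ?_ h3
    intro z hz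
    have := hω hz
    rw [mem_union] at this
    rw [mem_union, mem_inter, mem_sdiff]
    tauto
  have h3 := Pr_restrict (E := E ∪ U) (E1 := U) subset_union_right (fun ω => A (ω ∪ (E \ U)))
  rw [← h3]
  exact h1.trans h2

lemma HX_finset {x y : ℤ} {L h : ℕ} {ω : Finset (ℤ × ℤ)} :
    HX x y L h (fun z => z ∈ ω) ↔ SC x y L h ω := Iff.rfl

/-- horizontal strips -/
theorem Pr_HX (K : ℕ) : ∃ c : ℝ, 0 < c ∧ ∀ (x y : ℤ) (L h : ℕ), L ≤ K * h →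
    ∀ E : Finset (ℤ × ℤ), Bxx x y L h ⊆ E → c ≤ Pr E (fun ω => HX x y L h (fun z => z ∈ ω)) :=
  strip K

lemma swap_inj : Function.Injective (Prod.swap : ℤ × ℤ → ℤ × ℤ) := Prod.swap_injective

/-- vertical strips -/
theorem Pr_VX (K : ℕ) : ∃ c : ℝ, 0 < c ∧ ∀ (x y : ℤ) (L h : ℕ), h ≤ K * L →
    ∀ E : Finset (ℤ × ℤ), Bxx x y L h ⊆ E → c ≤ Pr E (fun ω => VX x y L h (fun z => z ∈ ω)) := by
  obtain ⟨c, hc, H⟩ := Pr_HX K
  refine ⟨c, hc, ?_⟩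
  intro x y L h hK E hE
  have h1 := H y x h L hK (E.map ⟨Prod.swap, swap_inj⟩) (by
    intro z hz
    rw [mem_map]
    refine ⟨z.swap, hE ?_, Prod.swap_swap z⟩
    rw [mem_Bxx] at hz ⊢
    exact ⟨hz.2, hz.1⟩)
  rw [Pr_map] at h1
  refine h1.trans (Pr_mono ?_)
  intro ω _ h2
  rw [VX_swap]
  refine h2.mono ?_
  intro z hz
  rw [mem_map] at hz
  obtain ⟨y, hy, rfl⟩ := hz
  simpa using hy

/-- the box of the annulus -/
noncomputable def BA (c : ℤ × ℤ) (W : ℕ) : Finset (ℤ × ℤ) :=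
  Icc (c.1 - W) (c.1 + W) ×ˢ Icc (c.2 - W) (c.2 + W)

/-- the faces of the annulus as a finset -/
noncomputable def FA (c : ℤ × ℤ) (w W : ℕ) : Finset (ℤ × ℤ) :=
  (BA c W).filter (fun z => (z.1 ≤ c.1 - w ∨ c.1 + w ≤ z.1) ∨ (z.2 ≤ c.2 - w ∨ c.2 + w ≤ z.2))

lemma mem_FA {c : ℤ × ℤ} {w W : ℕ} {z : ℤ × ℤ} : z ∈ FA c w W ↔ inA c w W z := by
  unfold FA BA inA
  rw [mem_filter, mem_product, mem_Icc, mem_Icc]

lemma AX_inc (c : ℤ × ℤ) (w W : ℕ) : Inc (fun ω => AX c w W (fun z => z ∈ ω)) :=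
  fun _ _ hω h => h.mono fun _ hz => hω hz

/-- **Annuli**: the four strips are crossed with probability bounded below. -/
theorem Pr_AX (K : ℕ) : ∃ c : ℝ, 0 < c ∧ ∀ (c0 : ℤ × ℤ) (w W : ℕ), w ≤ W → 2 * W ≤ K * (W - w) →
    ∀ E : Finset (ℤ × ℤ), FA c0 w W ⊆ E → c ≤ Pr E (fun ω => AX c0 w W (fun z => z ∈ ω)) := by
  obtain ⟨c1, hc1, H1⟩ := Pr_HX K
  obtain ⟨c2, hc2, H2⟩ := Pr_VX K
  refine ⟨c1 * (c1 * (c2 * c2)), by positivity, ?_⟩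
  intro c0 w W hw hK E hE
  have eW : ((2 * W : ℕ) : ℤ) = 2 * W := by push_cast; ring
  have eWw : ((W - w : ℕ) : ℤ) = W - w := by push_cast [hw]; ring
  have hwZ : (w : ℤ) ≤ W := by exact_mod_cast hw
  have s1 : Bxx (c0.1 - W) (c0.2 + w) (2 * W) (W - w) ⊆ E := by
    refine subset_trans ?_ hE
    intro z hz
    rw [mem_Bxx, eW, eWw] at hz
    rw [mem_FA]; unfold inA; omega
  have s2 : Bxx (c0.1 - W) (c0.2 - W) (2 * W) (W - w) ⊆ E := by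
    refine subset_trans ?_ hE
    intro z hz
    rw [mem_Bxx, eW, eWw] at hz
    rw [mem_FA]; unfold inA; omega
  have s3 : Bxx (c0.1 - W) (c0.2 - W) (W - w) (2 * W) ⊆ E := by
    refine subset_trans ?_ hE
    intro z hz
    rw [mem_Bxx, eW, eWw] at hz
    rw [mem_FA]; unfold inA; omega
  have s4 : Bxx (c0.1 + w) (c0.2 - W) (W - w) (2 * W) ⊆ E := by
    refine subset_trans ?_ hE
    intro z hz
    rw [mem_Bxx, eW, eWw] at hz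
    rw [mem_FA]; unfold inA; omega
  have p1 := H1 _ _ _ _ hK E s1
  have p2 := H1 _ _ _ _ hK E s2
  have p3 := H2 _ _ _ _ hK E s3
  have p4 := H2 _ _ _ _ hK E s4
  have i1 : Inc (fun ω => HX (c0.1 - W) (c0.2 + w) (2 * W) (W - w) (fun z => z ∈ ω)) :=
    fun _ _ hω h => h.mono fun _ hz => hω hz
  have i2 : Inc (fun ω => HX (c0.1 - W) (c0.2 - W) (2 * W) (W - w) (fun z => z ∈ ω)) :=
    fun _ _ hω h => h.mono fun _ hz => hω hz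
  have i3 : Inc (fun ω => VX (c0.1 - W) (c0.2 - W) (W - w) (2 * W) (fun z => z ∈ ω)) :=
    fun _ _ hω h => h.mono fun _ hz => hω hz
  have i4 : Inc (fun ω => VX (c0.1 + w) (c0.2 - W) (W - w) (2 * W) (fun z => z ∈ ω)) :=
    fun _ _ hω h => h.mono fun _ hz => hω hz
  have hand : ∀ {A B : Finset (ℤ × ℤ) → Prop}, Inc A → Inc B → Inc (fun ω => A ω ∧ B ω) :=
    fun hA hB ω ω' hω hab => ⟨hA _ _ hω hab.1, hB _ _ hω hab.2⟩
  have g3 := (mul_le_mul p3 p4 hc2.le (Pr_nonneg _ _)).trans (Pr_harris E i3 i4)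
  have g2 := (mul_le_mul p2 g3 (by positivity) (Pr_nonneg _ _)).trans
    (Pr_harris E i2 (hand i3 i4))
  exact (mul_le_mul p1 g2 (by positivity) (Pr_nonneg _ _)).trans
    (Pr_harris E i1 (hand i2 (hand i3 i4)))

lemma AX_congr {c : ℤ × ℤ} {w W : ℕ} (hw : w ≤ W) {D D' : ℤ × ℤ → Prop}
    (h : ∀ z, inA c w W z → (D z → D' z)) (H : AX c w W D) : AX c w W D' := by
  have eW : ((2 * W : ℕ) : ℤ) = 2 * W := by push_cast; ring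
  have eWw : ((W - w : ℕ) : ℤ) = W - w := by push_cast [hw]; ring
  have hwZ : (w : ℤ) ≤ W := by exact_mod_cast hw
  obtain ⟨⟨p1, q1, hp1, hq1, P1⟩, ⟨p2, q2, hp2, hq2, P2⟩, ⟨p3, q3, hp3, hq3, P3⟩,
    ⟨p4, q4, hp4, hq4, P4⟩⟩ := H
  refine ⟨⟨p1, q1, hp1, hq1, P1.mono ?_⟩, ⟨p2, q2, hp2, hq2, P2.mono ?_⟩,
    ⟨p3, q3, hp3, hq3, P3.mono ?_⟩, ⟨p4, q4, hp4, hq4, P4.mono ?_⟩⟩ <;>
  · rintro z ⟨h1, h2, h3⟩
    exact ⟨h z (by unfold inA; omega) h1, h2, h3⟩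

/-- the version with the faces off `U` regarded as black -/
theorem Pr_AX_off (K : ℕ) : ∃ c : ℝ, 0 < c ∧ ∀ (c0 : ℤ × ℤ) (w W : ℕ), w ≤ W →
    2 * W ≤ K * (W - w) → ∀ U : Finset (ℤ × ℤ),
    c ≤ Pr U (fun ω => AX c0 w W (fun z => z ∈ ω ∨ z ∉ U)) := by
  obtain ⟨c, hc, H⟩ := Pr_AX K
  refine ⟨c, hc, ?_⟩
  intro c0 w W hw hK U
  refine (H c0 w W hw hK (FA c0 w W) (subset_refl _)).trans ((Pr_off U _ (AX_inc c0 w W)).trans ?_)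
  apply Pr_mono
  intro ω _ h
  refine h.mono ?_
  intro z hz
  rw [mem_union, mem_sdiff] at hz
  tauto

/-- white rings, the faces off `U` regarded as white -/
theorem Pr_AX_white (K : ℕ) : ∃ c : ℝ, 0 < c ∧ ∀ (c0 : ℤ × ℤ) (w W : ℕ), w ≤ W →
    2 * W ≤ K * (W - w) → ∀ U : Finset (ℤ × ℤ),
    c ≤ Pr U (fun ω => AX c0 w W (fun z => z ∉ ω)) := by
  obtain ⟨c, hc, H⟩ := Pr_AX_off K
  refine ⟨c, hc, ?_⟩
  intro c0 w W hw hK U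
  refine (H c0 w W hw hK U).trans ?_
  rw [← Pool.Agent.H98.Tri.Pr_flip U (fun ω => AX c0 w W (fun z => z ∉ ω))]
  apply Pr_mono
  intro ω _ h
  refine h.mono ?_
  intro z hz
  rw [mem_sdiff]
  tauto

end Pool.Agent.H52.Tri
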