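import Mathlib
import Pool.Agent.H52.Tri.Rhomb
import Pool.Agent.H98.Tri.Ring
import Pool.Agent.H7.UC.Ring

set_option autoImplicit false

namespace Pool.Agent.H52.Tri

/-- One-arm bound on the triangular lattice. -/
theorem d5 : Pool.Agent.H7.UC.D5 := Pool.Agent.H7.UC.d5_of_ring (Pool.Agent.H98.Tri.ring_of rsw)

end Pool.Agent.H52.Tri
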