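import Mathlib
import Pool.Agent.H52.Tri.Ann

set_option autoImplicit false
open Finset

/-! Rings at many scales. -/

namespace Pool.Agent.H52.Tri

open Pool.Agent.H75.Perc

/-- product bound for local events on disjoint sets -/
lemma Pr_prod (U : Finset (ℤ × ℤ)) (F : ℕ → Finset (ℤ × ℤ)) (B : ℕ → Finset (ℤ × ℤ) → Prop)
    (hd : ∀ i j, i < j → Disjoint (F i) (F j)) (loc : ∀ i ω, B i ω ↔ B i (ω ∩ F i)) (q : ℝ)
    (hq : 0 ≤ q) (n : ℕ) (h : ∀ i < n, Pr U (B i) ≤ q) :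
    Pr U (fun ω => ∀ i < n, B i ω) ≤ q ^ n := by
  classical
  induction n with
  | zero =>
    rw [pow_zero]
    exact Pr_le_one _ _
  | succ n ih =>
    have h1 := ih fun i hi => h i (by omega)
    have h2 := h n (by omega)
    set E1 := U ∩ (range n).biUnion F with hE1
    set E2 := U ∩ F n with hE2
    have s1 : E1 ⊆ U := inter_subset_left
    have s2 : E2 ⊆ U := inter_subset_left
    have hdis : Disjoint E1 E2 := by
      rw [disjoint_left]
      intro z hz1 hz2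
      rw [hE1, mem_inter, mem_biUnion] at hz1
      rw [hE2, mem_inter] at hz2
      obtain ⟨_, i, hi, hzi⟩ := hz1
      exact (disjoint_left.1 (hd i n (mem_range.1 hi))) hzi hz2.2
    have l1 : ∀ ω, ω ⊆ U → ((∀ i < n, B i ω) ↔ (∀ i < n, B i (ω ∩ E1))) := by
      intro ω hω
      have key : ∀ i < n, (B i ω ↔ B i (ω ∩ E1)) := by
        intro i hi
        rw [loc i ω, loc i (ω ∩ E1)]
        have : ω ∩ E1 ∩ F i = ω ∩ F i := by
          ext z
          rw [mem_inter, mem_inter, mem_inter (s₁ := ω) (s₂ := F i)]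
          constructor
          · rintro ⟨⟨h3, _⟩, h4⟩; exact ⟨h3, h4⟩
          · rintro ⟨h3, h4⟩
            refine ⟨⟨h3, ?_⟩, h4⟩
            rw [hE1, mem_inter, mem_biUnion]
            exact ⟨hω h3, i, mem_range.2 hi, h4⟩
        rw [this]
      exact ⟨fun h3 i hi => (key i hi).1 (h3 i hi), fun h3 i hi => (key i hi).2 (h3 i hi)⟩
    have l2 : ∀ ω, ω ⊆ U → (B n ω ↔ B n (ω ∩ E2)) := by
      intro ω hω
      rw [loc n ω, loc n (ω ∩ E2)]
      have : ω ∩ E2 ∩ F n = ω ∩ F n := by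
        ext z
        rw [mem_inter, mem_inter, mem_inter (s₁ := ω) (s₂ := F n)]
        constructor
        · rintro ⟨⟨h3, _⟩, h4⟩; exact ⟨h3, h4⟩
        · rintro ⟨h3, h4⟩
          refine ⟨⟨h3, ?_⟩, h4⟩
          rw [hE2, mem_inter]
          exact ⟨hω h3, h4⟩
      rw [this]
    have e1 : Pr U (fun ω => ∀ i < n + 1, B i ω) =
        Pr U (fun ω => (fun η => ∀ i < n, B i η) (ω ∩ E1) ∧ B n (ω ∩ E2)) := by
      apply Pr_congr
      intro ω hω
      simp only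
      rw [← l1 ω hω, ← l2 ω hω]
      constructor
      · intro h3; exact ⟨fun i hi => h3 i (by omega), h3 n (by omega)⟩
      · rintro ⟨h3, h4⟩ i hi
        rcases Nat.lt_succ_iff_lt_or_eq.1 hi with h5 | h5
        · exact h3 i h5
        · rw [h5]; exact h4
    rw [e1, Pr_indep s1 s2 hdis (fun η => ∀ i < n, B i η) (B n)]
    have e2 : Pr E1 (fun η => ∀ i < n, B i η) = Pr U (fun ω => ∀ i < n, B i ω) := by
      rw [← Pr_restrict s1]
      exact Pr_congr fun ω hω => (l1 ω hω).symm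
    have e3 : Pr E2 (B n) = Pr U (B n) := by
      rw [← Pr_restrict s2]
      exact Pr_congr fun ω hω => (l2 ω hω).symm
    rw [e2, e3, pow_succ]
    exact mul_le_mul h1 h2 (Pr_nonneg _ _) (by positivity)

lemma FA_disj {c : ℤ × ℤ} {w W w' W' : ℕ} (h : W < w') : Disjoint (FA c w W) (FA c w' W') := by
  rw [disjoint_left]
  intro z h1 h2
  rw [mem_FA] at h1 h2
  unfold inA at h1 h2
  omega

/-- colours of the faces as seen in the annulus -/
lemma AX_loc {c : ℤ × ℤ} {w W : ℕ} (hw : w ≤ W) (f : ℤ × ℤ → Prop → Prop)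
    (ω : Finset (ℤ × ℤ)) : AX c w W (fun z => f z (z ∈ ω)) ↔
      AX c w W (fun z => f z (z ∈ ω ∩ FA c w W)) := by
  have key : ∀ z, inA c w W z → (f z (z ∈ ω) ↔ f z (z ∈ ω ∩ FA c w W)) := by
    intro z hz
    have : (z ∈ ω ∩ FA c w W) = (z ∈ ω) := by
      rw [mem_inter, mem_FA]
      exact propext ⟨fun h => h.1, fun h => ⟨h, hz⟩⟩
    rw [this]
  constructor
  · exact AX_congr hw fun z hz => (key z hz).1
  · exact AX_congr hw fun z hz => (key z hz).2

/-- general multi-scale bound -/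
lemma multi (q : ℝ) (hq0 : 0 < q) (hq1 : q < 1) : ∃ C a : ℝ, 0 < C ∧ 0 < a ∧
    ∀ (r R : ℕ), 1 ≤ r → ∃ n : ℕ, (∀ i < n, 2 * (3 ^ i * r) ≤ R) ∧
      (r ≤ R → q ^ n ≤ C * ((r : ℝ) / R) ^ a) := by
  set a : ℝ := -Real.log q / Real.log 3 with ha
  have hl3 : 0 < Real.log 3 := Real.log_pos (by norm_num)
  have hlq : Real.log q < 0 := Real.log_neg hq0 hq1
  have ha0 : 0 < a := div_pos (by linarith) hl3
  refine ⟨6 ^ a, a, by positivity, ha0, ?_⟩
  intro r R hr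
  set n := Nat.log 3 (R / (2 * r)) with hn
  refine ⟨n, ?_, ?_⟩
  · intro i hi
    have h1 : R / (2 * r) ≠ 0 := by
      intro h0
      rw [h0, Nat.log_zero_right] at hn
      omega
    have h2 : 3 ^ n ≤ R / (2 * r) := Nat.pow_log_le_self 3 h1
    have h3 : 3 ^ i ≤ 3 ^ n := Nat.pow_le_pow_right (by norm_num) hi.le
    have h4 : 3 ^ i * (2 * r) ≤ R := (Nat.le_div_iff_mul_le (by omega)).1 (h3.trans h2)
    calc 2 * (3 ^ i * r) = 3 ^ i * (2 * r) := by ring
      _ ≤ R := h4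
  · intro hrR
    have h1 : R / (2 * r) < 3 ^ (n + 1) := Nat.lt_pow_succ_log_self (by norm_num) _
    have h2 : R < 3 ^ (n + 1) * (2 * r) := (Nat.div_lt_iff_lt_mul (by omega)).1 h1
    have h3 : (R : ℝ) < 3 ^ (n + 1) * (2 * r) := by exact_mod_cast h2
    have hr0 : (0 : ℝ) < r := by exact_mod_cast hr
    have hR0 : (0 : ℝ) < R := by
      have : 0 < R := by omega
      exact_mod_cast this
    have h4 : 1 / (6 * 3 ^ n) ≤ (r : ℝ) / R := by
      rw [div_le_div_iff₀ (by positivity) hR0]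
      rw [pow_succ] at h3
      nlinarith
    have h5 : (1 / (6 * 3 ^ n) : ℝ) ^ a ≤ ((r : ℝ) / R) ^ a :=
      Real.rpow_le_rpow (by positivity) h4 ha0.le
    have h6 : (1 / (6 * 3 ^ n) : ℝ) ^ a = (6 ^ a)⁻¹ * q ^ n := by
      rw [one_div, Real.inv_rpow (by positivity), Real.mul_rpow (by norm_num) (by positivity),
        mul_inv]
      congr 1
      have h7 : (3 : ℝ) ^ a = q⁻¹ := by
        rw [Real.rpow_def_of_pos (by norm_num), ha, mul_div_cancel₀ _ hl3.ne', Real.exp_neg,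
          Real.exp_log hq0]
      rw [← Real.rpow_natCast 3 n, ← Real.rpow_mul (by norm_num), mul_comm, Real.rpow_mul (by norm_num),
        h7, Real.rpow_natCast, inv_pow, inv_inv]
    rw [h6] at h5
    have h8 : (0 : ℝ) < 6 ^ a := by positivity
    calc q ^ n = 6 ^ a * ((6 ^ a)⁻¹ * q ^ n) := by field_simp
      _ ≤ 6 ^ a * ((r : ℝ) / R) ^ a := mul_le_mul_of_nonneg_left h5 h8.le

lemma Pr_not (E : Finset (ℤ × ℤ)) (A : Finset (ℤ × ℤ) → Prop) :
    Pr E (fun ω => ¬ A ω) = 1 - Pr E A := by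
  classical
  rw [Pr_eq, Pr_eq, eq_sub_iff_add_eq, ← add_div, div_eq_one_iff_eq (by positivity)]
  have h := card_filter_add_card_filter_not (s := E.powerset) (p := A)
  rw [card_powerset] at h
  have h' : ((E.powerset.filter fun ω => A ω).card : ℝ) +
      ((E.powerset.filter fun ω => ¬ A ω).card : ℝ) = 2 ^ E.card := by exact_mod_cast h
  linarith

/-- The ring is missing at all scales with small probability, general form. -/
lemma no_ring_gen (f : Finset (ℤ × ℤ) → ℤ × ℤ → Prop → Prop) (c : ℝ) (hc : 0 < c)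
    (H : ∀ (c0 : ℤ × ℤ) (w : ℕ) (U : Finset (ℤ × ℤ)),
      c ≤ Pr U (fun ω => AX c0 w (2 * w) (fun z => f U z (z ∈ ω)))) :
    ∃ C a : ℝ, 0 < C ∧ 0 < a ∧ ∀ (U : Finset (ℤ × ℤ)) (c0 : ℤ × ℤ) (r R : ℕ), 1 ≤ r → r ≤ R →
      Pr U (fun ω => ¬ ∃ w, r ≤ w ∧ 2 * w ≤ R ∧ AX c0 w (2 * w) (fun z => f U z (z ∈ ω))) ≤
        C * ((r : ℝ) / R) ^ a := by
  set q : ℝ := max (1 - c) (1 / 2) with hq
  have hq0 : 0 < q := lt_of_lt_of_le (by norm_num) (le_max_right _ _)
  have hq1 : q < 1 := max_lt (by linarith) (by norm_num)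
  obtain ⟨C, a, hC, ha, hm⟩ := multi q hq0 hq1
  refine ⟨C, a, hC, ha, ?_⟩
  intro U c0 r R hr hrR
  obtain ⟨n, h1, h2⟩ := hm r R hr
  refine le_trans ?_ (h2 hrR)
  have h3 := Pr_prod U (fun i => FA c0 (3 ^ i * r) (2 * (3 ^ i * r)))
    (fun i ω => ¬ AX c0 (3 ^ i * r) (2 * (3 ^ i * r)) (fun z => f U z (z ∈ ω))) (by
      intro i j hij
      apply FA_disj
      have : 3 ^ (i + 1) ≤ 3 ^ j := Nat.pow_le_pow_right (by norm_num) hij
      have h4 : 3 ^ (i + 1) * r ≤ 3 ^ j * r := Nat.mul_le_mul_right _ this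
      have h5 : 0 < 3 ^ i * r := Nat.mul_pos (by positivity) (by omega)
      rw [pow_succ] at h4
      nlinarith) (by
      intro i ω
      rw [not_iff_not]
      exact AX_loc (by omega) (f U) ω) q hq0.le n (by
      intro i _
      rw [Pr_not]
      have := H c0 (3 ^ i * r) U
      have := le_max_left (1 - c) (1 / 2)
      linarith)
  refine le_trans (Pr_mono ?_) h3
  intro ω _ h4 i hi h5
  refine h4 ⟨3 ^ i * r, ?_, h1 i hi, h5⟩
  have : 1 ≤ 3 ^ i := Nat.one_le_pow _ _ (by norm_num)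
  nlinarith

/-- **No black ring in `A(c0; r, R)`**, the faces off `U` are black. -/
theorem no_black_ring : ∃ C a : ℝ, 0 < C ∧ 0 < a ∧ ∀ (U : Finset (ℤ × ℤ)) (c0 : ℤ × ℤ) (r R : ℕ),
    1 ≤ r → r ≤ R →
      Pr U (fun ω => ¬ ∃ w, r ≤ w ∧ 2 * w ≤ R ∧ AX c0 w (2 * w) (fun z => z ∈ ω ∨ z ∉ U)) ≤
        C * ((r : ℝ) / R) ^ a := by
  obtain ⟨c, hc, H⟩ := Pr_AX_off 4
  exact no_ring_gen (fun U z p => p ∨ z ∉ U) c hc
    (fun c0 w U => H c0 w (2 * w) (by omega) (by omega) U)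

/-- **No white ring in `A(c0; r, R)`**, the faces off `U` are white. -/
theorem no_white_ring : ∃ C a : ℝ, 0 < C ∧ 0 < a ∧ ∀ (U : Finset (ℤ × ℤ)) (c0 : ℤ × ℤ) (r R : ℕ),
    1 ≤ r → r ≤ R →
      Pr U (fun ω => ¬ ∃ w, r ≤ w ∧ 2 * w ≤ R ∧ AX c0 w (2 * w) (fun z => z ∉ ω)) ≤
        C * ((r : ℝ) / R) ^ a := by
  obtain ⟨c, hc, H⟩ := Pr_AX_white 4
  exact no_ring_gen (fun _ _ p => ¬ p) c hc
    (fun c0 w U => H c0 w (2 * w) (by omega) (by omega) U)

end Pool.Agent.H52.Tri
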