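import Mathlib
import Pool.Agent.H52.Tri.Scale
import Pool.Agent.H75.Lv.Lev

set_option autoImplicit false
open Finset

/-! `CIRC` of helper75, `BLOCK` for helper89's annulus, bridges `Pa` / `Jn`. -/

namespace Pool.Agent.H52.Tri

open Pool.Agent.H75.Perc
open Pool.Agent.H7.UC (Fc adjF)
open Pool.Agent.H74.Tri (Jn)
open Pool.Agent.H89.Per (ANN annS blk)

lemma Pa.jn {S : ℤ × ℤ → Prop} {T : Set Fc} (h : ∀ z, S z → z ∈ T) {u v : ℤ × ℤ} (hP : Pa S u v) :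
    Jn T u v :=
  Relation.ReflTransGen.mono (fun _ _ hab => ⟨h _ hab.2, TA_iff_adjF.1 hab.1⟩) _ _ hP.2

lemma pa_of_jn {S : ℤ × ℤ → Prop} {T : Set Fc} (h : ∀ z, z ∈ T → S z) {u v : ℤ × ℤ} (hu : S u)
    (hP : Jn T u v) : Pa S u v :=
  ⟨hu, Relation.ReflTransGen.mono (fun _ _ hab => ⟨TA_iff_adjF.2 hab.2, h _ hab.1⟩) _ _ hP⟩

lemma HX_iff_HC {x y : ℤ} {L h : ℕ} {Ω : Fc → Bool} :
    HX x y L h (fun z => Ω z = true) ↔ Pool.Agent.H89.Per.HC x y (L + 1) (h + 1) Ω := by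
  constructor
  · rintro ⟨p, q, hp, hq, hP⟩
    have h1 := hP.left
    have h2 := hP.right
    refine ⟨p, q, ?_, ?_, hp, by push_cast; omega, h1.1, hP.jn ?_⟩
    · unfold blk; simp only [Set.mem_ofPred_eq]; push_cast; omega
    · unfold blk; simp only [Set.mem_ofPred_eq]; push_cast; omega
    · rintro z ⟨hz1, hz2, hz3⟩
      refine ⟨?_, hz1⟩
      unfold blk; simp only [Set.mem_ofPred_eq]; push_cast; omega
  · rintro ⟨p, q, hpb, hqb, hp, hq, hb, hP⟩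
    have hS : ∀ z, z ∈ {z | z ∈ blk x y (L + 1) (h + 1) ∧ Ω z = true} →
        (Ω z = true ∧ (x ≤ z.1 ∧ z.1 ≤ x + L) ∧ (y ≤ z.2 ∧ z.2 ≤ y + h)) := by
      rintro z ⟨hz1, hz2⟩
      unfold blk at hz1
      simp only [Set.mem_ofPred_eq] at hz1
      push_cast at hz1
      exact ⟨hz2, by omega, by omega⟩
    exact ⟨p, q, hp, by push_cast at hq; omega, pa_of_jn hS (hS p ⟨hpb, hb⟩) hP⟩

lemma VX_iff_VC {x y : ℤ} {L h : ℕ} {Ω : Fc → Bool} :
    VX x y L h (fun z => Ω z = true) ↔ Pool.Agent.H89.Per.VC x y (L + 1) (h + 1) Ω := by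
  constructor
  · rintro ⟨p, q, hp, hq, hP⟩
    have h1 := hP.left
    have h2 := hP.right
    refine ⟨p, q, ?_, ?_, hp, by push_cast; omega, h1.1, hP.jn ?_⟩
    · unfold blk; simp only [Set.mem_ofPred_eq]; push_cast; omega
    · unfold blk; simp only [Set.mem_ofPred_eq]; push_cast; omega
    · rintro z ⟨hz1, hz2, hz3⟩
      refine ⟨?_, hz1⟩
      unfold blk; simp only [Set.mem_ofPred_eq]; push_cast; omega
  · rintro ⟨p, q, hpb, hqb, hp, hq, hb, hP⟩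
    have hS : ∀ z, z ∈ {z | z ∈ blk x y (L + 1) (h + 1) ∧ Ω z = true} →
        (Ω z = true ∧ (x ≤ z.1 ∧ z.1 ≤ x + L) ∧ (y ≤ z.2 ∧ z.2 ≤ y + h)) := by
      rintro z ⟨hz1, hz2⟩
      unfold blk at hz1
      simp only [Set.mem_ofPred_eq] at hz1
      push_cast at hz1
      exact ⟨hz2, by omega, by omega⟩
    exact ⟨p, q, hp, by push_cast at hq; omega, pa_of_jn hS (hS p ⟨hpb, hb⟩) hP⟩

lemma AX_iff_ANN {c : Fc} {w : ℕ} {Ω : Fc → Bool} :
    AX c w (3 * w) (fun z => Ω z = true) ↔ ANN c w Ω := by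
  unfold AX ANN
  rw [HX_iff_HC, HX_iff_HC, VX_iff_VC, VX_iff_VC]
  have e1 : 2 * (3 * w) + 1 = 6 * w + 1 := by ring
  have e2 : 3 * w - w + 1 = 2 * w + 1 := by omega
  rw [e1, e2]
  push_cast
  rfl

lemma inA_iff_annS {c : Fc} {w : ℕ} {z : Fc} : inA c w (3 * w) z ↔ z ∈ annS c w := by
  unfold inA annS
  simp only [Set.mem_ofPred_eq]
  push_cast
  rfl

lemma Circ_inc (c : Fc) (w : ℕ) : Inc (fun C => Pool.Agent.H75.Lv.Circ c w C) := by
  intro ω ω' hω h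
  unfold Pool.Agent.H75.Lv.Circ at h ⊢
  rw [← AX_iff_ANN] at h ⊢
  refine h.mono fun z hz => ?_
  simp only [decide_eq_true_eq] at hz ⊢
  exact hω hz

/-- several circuits (any centres, FKG) -/
theorem circ_all : ∃ c0 : ℝ, 0 < c0 ∧ ∀ (n : ℕ) (ce : ℕ → Fc) (w : ℕ) (E : Finset Fc),
    (∀ i < n, ∀ f, f ∈ annS (ce i) w → f ∈ E) →
    c0 ^ n ≤ Pr E (fun C => ∀ i < n, Pool.Agent.H75.Lv.Circ (ce i) w C) := by
  obtain ⟨c, hc, H⟩ := Pr_AX 3
  refine ⟨c, hc, ?_⟩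
  intro n ce w E hE
  refine Pr_all E (fun i C => Pool.Agent.H75.Lv.Circ (ce i) w C) c hc.le n
    (fun i => Circ_inc (ce i) w) ?_
  intro i hi
  refine (H (ce i) w (3 * w) (by omega) (by omega) E ?_).trans (Pr_mono ?_)
  · intro z hz
    rw [mem_FA, inA_iff_annS] at hz
    exact hE i hi z hz
  · intro ω _ h
    unfold Pool.Agent.H75.Lv.Circ
    rw [← AX_iff_ANN]
    exact h.mono fun z hz => by simpa using hz

/-- **CIRC** (eight circuits) -/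
theorem circ : Pool.Agent.H75.Lv.CIRC := by
  obtain ⟨c, hc, H⟩ := circ_all
  refine ⟨c ^ 8, by positivity, 0, ?_⟩
  intro w _ ce E hE
  have h1 := H 8 (fun i => if hi : i < 8 then ce ⟨i, hi⟩ else ce 0) w E (by
    intro i hi f hf
    rw [dif_pos hi] at hf
    exact hE ⟨i, hi⟩ f hf)
  refine h1.trans (Pr_mono ?_)
  intro ω _ h d
  have := h d.1 d.2
  rw [dif_pos d.2] at this
  exact this

/-- **BLOCK**: a path from the inside to the outside of the annulus meets a black face of it. -/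
theorem ANN_block {c : Fc} {w : ℕ} {Ω : Fc → Bool} (H : ANN c w Ω) {T : Set Fc} {p q : Fc}
    (hp : p ∈ T) (hP : Jn T p q)
    (hpi : (c.1 - w < p.1 ∧ p.1 < c.1 + w) ∧ (c.2 - w < p.2 ∧ p.2 < c.2 + w))
    (hqo : q.1 < c.1 - 3 * w ∨ c.1 + 3 * w < q.1 ∨ q.2 < c.2 - 3 * w ∨ c.2 + 3 * w < q.2) :
    ∃ z ∈ T, Ω z = true ∧ z ∈ annS c w := by
  rw [← AX_iff_ANN] at H
  have hP' : Pa (fun z => z ∈ T) p q := pa_of_jn (fun z hz => hz) hp hP
  obtain ⟨z, h1, h2, h3⟩ := H.block (by omega) hP' hpi (by push_cast; exact hqo)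
  exact ⟨z, h1, h2, inA_iff_annS.1 h3⟩

end Pool.Agent.H52.Tri
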