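import Pool.Agent.H52.Tri.Evp
import Pool.Agent.H87.F5.Asm

set_option autoImplicit false

/-! MP_2e6055, module F5: EVR in the form of helper87. -/

namespace Pool.Agent.H52.Tri

/-- **EVR** -/
theorem evR : Pool.Agent.H87.F5.EVR := by
  intro K
  obtain ⟨pK, hpK, t0, H⟩ := evr K
  refine ⟨pK, hpK, t0, ?_⟩
  intro C U ω p v z0 R t b k e y hS ht hR c
  have hn := num7 hS
  have hr : ((R.toNat : ℕ) : ℤ) = R := Int.toNat_of_nonneg (by omega)
  have h := H C U ω p v z0 R t b k e y hS ht hR R.toNat hr c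
  have e1 : (2 * R).toNat = 2 * R.toNat := by omega
  have e2 : (4 * R - 1).toNat = 4 * R.toNat - 1 := by omega
  have e3 : (4 * R).toNat = 4 * R.toNat := by omega
  have e4 : (8 * R).toNat = 8 * R.toNat := by omega
  unfold Pool.Agent.H87.F5.Rg7
  rw [e1, e2, e3, e4]
  exact h

end Pool.Agent.H52.Tri
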