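import Mathlib
import Pool.Agent.H52.Tri.Scale

set_option autoImplicit false
open Finset

/-! Joint probability of finitely many long crossings: black ones in some boxes, white ones in other,
disjoint, boxes. -/

namespace Pool.Agent.H52.Tri

open Pool.Agent.H75.Perc

/-- a box `[x, x+L] × [y, y+h]` with the direction of the crossing (`hor = true`: from the left to the
right) -/
structure Bo where
  hor : Bool
  x : ℤ
  y : ℤ
  L : ℕ
  h : ℕ

/-- the box is crossed by faces of `D` in its direction -/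
def Bo.Cr (b : Bo) (D : ℤ × ℤ → Prop) : Prop :=
  if b.hor then HX b.x b.y b.L b.h D else VX b.x b.y b.L b.h D

/-- aspect ratio -/
def Bo.Rat (b : Bo) (K : ℕ) : Prop := if b.hor then b.L ≤ K * b.h else b.h ≤ K * b.L

/-- the faces of the box -/
noncomputable def Bo.F (b : Bo) : Finset (ℤ × ℤ) := Bxx b.x b.y b.L b.h

lemma Bo.mono (b : Bo) {D D' : ℤ × ℤ → Prop} (hD : ∀ z, z ∈ b.F → D z → D' z) (H : b.Cr D) :
    b.Cr D' := by
  unfold Bo.Cr at H ⊢
  split_ifs at H ⊢ with h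
  · obtain ⟨p, q, h1, h2, h3⟩ := H
    exact ⟨p, q, h1, h2, h3.mono fun z hz => ⟨hD z (mem_Bxx.2 hz.2) hz.1, hz.2⟩⟩
  · obtain ⟨p, q, h1, h2, h3⟩ := H
    exact ⟨p, q, h1, h2, h3.mono fun z hz => ⟨hD z (mem_Bxx.2 hz.2) hz.1, hz.2⟩⟩

/-- one box, faces off `U` black -/
lemma Pr_Bo (K : ℕ) : ∃ c : ℝ, 0 < c ∧ c ≤ 1 ∧ ∀ b : Bo, b.Rat K → ∀ U : Finset (ℤ × ℤ),
    c ≤ Pr U (fun ω => b.Cr (fun z => z ∈ ω ∨ z ∉ U)) := by
  obtain ⟨c1, hc1, H1⟩ := Pr_HX K
  obtain ⟨c2, hc2, H2⟩ := Pr_VX K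
  refine ⟨min (min c1 c2) 1, by positivity, min_le_right _ _, ?_⟩
  intro b hb U
  have hinc : Inc (fun ω => b.Cr (fun z => z ∈ ω)) := fun ω ω' hω h => b.mono (fun z _ hz => hω hz) h
  have h1 : min c1 c2 ≤ Pr b.F (fun ω => b.Cr (fun z => z ∈ ω)) := by
    unfold Bo.Rat at hb
    unfold Bo.Cr
    split_ifs at hb ⊢ with h
    · exact (min_le_left _ _).trans (H1 _ _ _ _ hb _ (subset_refl _))
    · exact (min_le_right _ _).trans (H2 _ _ _ _ hb _ (subset_refl _))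
  refine (min_le_left _ _).trans (h1.trans ((Pr_off U _ hinc).trans (Pr_mono ?_)))
  intro ω _ h
  refine b.mono ?_ h
  intro z _ hz
  rw [mem_union, mem_sdiff] at hz
  tauto

lemma Pr_Bo_all (K k : ℕ) : ∃ c : ℝ, 0 < c ∧ c ≤ 1 ∧ ∀ bs : ℕ → Bo, (∀ i < k, (bs i).Rat K) →
    ∀ U : Finset (ℤ × ℤ), c ≤ Pr U (fun ω => ∀ i < k, (bs i).Cr (fun z => z ∈ ω ∨ z ∉ U)) := by
  obtain ⟨c, hc, hc1, H⟩ := Pr_Bo K
  refine ⟨c ^ k, by positivity, pow_le_one₀ hc.le hc1, ?_⟩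
  intro bs hbs U
  refine Pr_all U (fun i ω => (bs i).Cr (fun z => z ∈ ω ∨ z ∉ U)) c hc.le k ?_ ?_
  · intro i ω ω' hω h
    refine (bs i).mono (fun z _ hz => ?_) h
    rcases hz with hz | hz
    · exact Or.inl (hω hz)
    · exact Or.inr hz
  · intro i hi; exact H _ (hbs i hi) U

/-- **Lanes.** `k` boxes are crossed by black faces and `l` other boxes by white faces (faces off `U`
are regarded as black in the first ones and as white in the second ones). -/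
theorem Pr_lanes (K k l : ℕ) : ∃ c : ℝ, 0 < c ∧ ∀ bs ws : ℕ → Bo, (∀ i < k, (bs i).Rat K) →
    (∀ j < l, (ws j).Rat K) → (∀ i < k, ∀ j < l, Disjoint (bs i).F (ws j).F) →
    ∀ U : Finset (ℤ × ℤ), c ≤ Pr U (fun ω => (∀ i < k, (bs i).Cr (fun z => z ∈ ω ∨ z ∉ U)) ∧
      ∀ j < l, (ws j).Cr (fun z => z ∉ ω)) := by
  classical
  obtain ⟨c1, hc1, _, H1⟩ := Pr_Bo_all K k
  obtain ⟨c2, hc2, _, H2⟩ := Pr_Bo_all K l
  refine ⟨c1 * c2, by positivity, ?_⟩
  intro bs ws hb hw hd U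
  set E1 := U ∩ (range k).biUnion (fun i => (bs i).F) with hE1
  set E2 := U ∩ (range l).biUnion (fun i => (ws i).F) with hE2
  have s1 : E1 ⊆ U := inter_subset_left
  have s2 : E2 ⊆ U := inter_subset_left
  have hdis : Disjoint E1 E2 := by
    rw [disjoint_left]
    intro z hz1 hz2
    rw [hE1, mem_inter, mem_biUnion] at hz1
    rw [hE2, mem_inter, mem_biUnion] at hz2
    obtain ⟨_, i, hi, hzi⟩ := hz1
    obtain ⟨_, j, hj, hzj⟩ := hz2
    exact (disjoint_left.1 (hd i (mem_range.1 hi) j (mem_range.1 hj))) hzi hzj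
  set A : Finset (ℤ × ℤ) → Prop := fun ω => ∀ i < k, (bs i).Cr (fun z => z ∈ ω ∨ z ∉ U) with hA
  set B : Finset (ℤ × ℤ) → Prop := fun ω => ∀ j < l, (ws j).Cr (fun z => z ∉ ω) with hB
  have key1 : ∀ ω i, i < k → ∀ z, z ∈ (bs i).F → ((z ∈ ω ∨ z ∉ U) ↔ (z ∈ ω ∩ E1 ∨ z ∉ U)) := by
    intro ω i hi z hz
    constructor
    · rintro (h | h)
      · by_cases hU : z ∈ U
        · left
          rw [mem_inter, hE1, mem_inter, mem_biUnion]
          exact ⟨h, hU, i, mem_range.2 hi, hz⟩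
        · exact Or.inr hU
      · exact Or.inr h
    · rintro (h | h)
      · exact Or.inl (mem_inter.1 h).1
      · exact Or.inr h
  have lA : ∀ ω, A ω ↔ A (ω ∩ E1) := by
    intro ω
    constructor
    · intro h i hi
      exact (bs i).mono (fun z hz h' => (key1 ω i hi z hz).1 h') (h i hi)
    · intro h i hi
      exact (bs i).mono (fun z hz h' => (key1 ω i hi z hz).2 h') (h i hi)
  have key2 : ∀ ω, ω ⊆ U → ∀ j, j < l → ∀ z, z ∈ (ws j).F → (z ∉ ω ↔ z ∉ ω ∩ E2) := by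
    intro ω hω j hj z hz
    rw [not_iff_not, mem_inter]
    constructor
    · intro h
      refine ⟨h, ?_⟩
      rw [hE2, mem_inter, mem_biUnion]
      exact ⟨hω h, j, mem_range.2 hj, hz⟩
    · intro h; exact h.1
  have lB : ∀ ω, ω ⊆ U → (B ω ↔ B (ω ∩ E2)) := by
    intro ω hω
    constructor
    · intro h j hj
      exact (ws j).mono (fun z hz h' => (key2 ω hω j hj z hz).1 h') (h j hj)
    · intro h j hj
      exact (ws j).mono (fun z hz h' => (key2 ω hω j hj z hz).2 h') (h j hj)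
  have e0 : Pr U (fun ω => A ω ∧ B ω) = Pr U (fun ω => A (ω ∩ E1) ∧ B (ω ∩ E2)) := by
    apply Pr_congr
    intro ω hω
    rw [← lA ω, ← lB ω hω]
  have e1 : Pr E1 A = Pr U A := by
    rw [← Pr_restrict s1]
    exact Pr_congr fun ω _ => (lA ω).symm
  have e2 : Pr E2 B = Pr U B := by
    rw [← Pr_restrict s2]
    exact Pr_congr fun ω hω => (lB ω hω).symm
  have h1 : c1 ≤ Pr U A := H1 bs hb U
  have h2 : c2 ≤ Pr U B := by
    refine (H2 ws hw U).trans ?_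
    rw [← Pool.Agent.H98.Tri.Pr_flip U B]
    apply Pr_mono
    intro ω _ h j hj
    refine (ws j).mono (fun z _ hz => ?_) (h j hj)
    rw [mem_sdiff]
    tauto
  show c1 * c2 ≤ Pr U (fun ω => A ω ∧ B ω)
  rw [e0, Pr_indep s1 s2 hdis, e1, e2]
  exact mul_le_mul h1 h2 hc2.le (Pr_nonneg _ _)

end Pool.Agent.H52.Tri
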