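import Mathlib
import Pool.Agent.H52.Tri.Lanes
import Pool.Agent.H52.Tri.Circ
import Pool.Agent.H53.Per.Chart

set_option autoImplicit false
open Finset

/-! Lanes in the charts of helper53. -/

namespace Pool.Agent.H52.Tri

open Pool.Agent.H75.Perc
open Pool.Agent.H7.UC (Fc adjF)
open Pool.Agent.H74.Tri (Jn)
open Pool.Agent.H53.Per (Ch)
open Pool.Agent.H75.Lv (mixc)

/-- chart rectangle `[a,b] × [c,d]` with a direction (`xd = true`: crossed in the `X` direction) -/
structure CB where
  xd : Bool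
  a : ℤ
  b : ℤ
  c : ℤ
  d : ℤ

/-- crossed by faces of `S` -/
def CB.Cr (r : CB) (C : Ch) (S : Set Fc) : Prop :=
  if r.xd = true then C.HX S r.a r.b r.c r.d else C.VX S r.a r.b r.c r.d

/-- proper, aspect ratio at most `K` -/
def CB.Rat (r : CB) (K : ℕ) : Prop := r.a ≤ r.b ∧ r.c ≤ r.d ∧
  if r.xd = true then r.b - r.a ≤ K * (r.d - r.c) else r.d - r.c ≤ K * (r.b - r.a)

/-- the box in the original coordinates -/
def CB.bo (r : CB) (C : Ch) : Bo :=
  if C.sw = true then
    ⟨!r.xd, C.c.1 + (if C.e2 = 1 then r.c else -r.d), C.c.2 + (if C.e1 = 1 then r.a else -r.b),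
      (r.d - r.c).toNat, (r.b - r.a).toNat⟩
  else
    ⟨r.xd, C.c.1 + (if C.e1 = 1 then r.a else -r.b), C.c.2 + (if C.e2 = 1 then r.c else -r.d),
      (r.b - r.a).toNat, (r.d - r.c).toNat⟩

lemma CB.mem_F (r : CB) (C : Ch) (h1 : r.a ≤ r.b) (h2 : r.c ≤ r.d) (z : Fc) :
    z ∈ (r.bo C).F ↔ z ∈ C.Rc r.a r.b r.c r.d := by
  obtain ⟨xd, a, b, c, d⟩ := r
  obtain ⟨sw, e1, e2, g1, g2, c1, c2⟩ := C
  simp only at h1 h2
  unfold Bo.F CB.bo Ch.Rc Ch.X Ch.Y
  rw [mem_Bxx]
  cases sw
  · simp only [Bool.false_eq_true, if_false, Set.mem_ofPred_eq]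
    rcases g1 with rfl | rfl <;> rcases g2 with rfl | rfl <;> norm_num <;> omega
  · simp only [if_true, Set.mem_ofPred_eq]
    rcases g1 with rfl | rfl <;> rcases g2 with rfl | rfl <;> norm_num <;> omega

lemma CB.rat_bo (r : CB) (C : Ch) (K : ℕ) (h : r.Rat K) : (r.bo C).Rat K := by
  obtain ⟨xd, a, b, c, d⟩ := r
  obtain ⟨sw, e1, e2, g1, g2, c1, c2⟩ := C
  obtain ⟨h1, h2, h3⟩ := h
  simp only at h1 h2 h3
  have e1 : ((b - a).toNat : ℤ) = b - a := Int.toNat_of_nonneg (by omega)
  have e2 : ((d - c).toNat : ℤ) = d - c := Int.toNat_of_nonneg (by omega)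
  unfold Bo.Rat CB.bo
  cases sw <;> cases xd <;>
    simp only [Bool.false_eq_true, if_false, if_true, Bool.not_false, Bool.not_true] at h3 ⊢ <;>
    (zify; rw [e1, e2]; exact h3)

/-- from the box to the chart rectangle -/
lemma CB.cr_of (r : CB) (C : Ch) (h1 : r.a ≤ r.b) (h2 : r.c ≤ r.d) {D : Fc → Prop} {S : Set Fc}
    (hD : ∀ z, z ∈ C.Rc r.a r.b r.c r.d → D z → z ∈ S) (H : (r.bo C).Cr D) : r.Cr C S := by
  have hmem := r.mem_F C h1 h2
  have key : ∀ p q : Fc, Pa (fun z => D z ∧ z ∈ (r.bo C).F) p q →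
      Jn (S ∩ C.Rc r.a r.b r.c r.d) p q := by
    intro p q hP
    refine hP.jn ?_
    intro z hz
    exact ⟨hD z ((hmem z).1 hz.2) hz.1, (hmem z).1 hz.2⟩
  -- a path between the two sides
  have gen : ∃ p q : Fc, Pa (fun z => D z ∧ z ∈ (r.bo C).F) p q ∧
      (r.xd = true → C.X p = r.a ∧ C.X q = r.b) ∧ (r.xd = false → C.Y p = r.c ∧ C.Y q = r.d) := by
    obtain ⟨xd, a, b, c, d⟩ := r
    obtain ⟨sw, e1, e2, g1, g2, c1, c2⟩ := C
    simp only at h1 h2
    have t1 : ((b - a).toNat : ℤ) = b - a := Int.toNat_of_nonneg (by omega)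
    have t2 : ((d - c).toNat : ℤ) = d - c := Int.toNat_of_nonneg (by omega)
    cases sw
    · cases xd
      · -- Y direction, second coordinate
        unfold Bo.Cr CB.bo at H
        simp only [Bool.false_eq_true, if_false] at H
        obtain ⟨p, q, hp, hq, hP⟩ := H
        have hP' : Pa (fun z => D z ∧ z ∈ ((⟨false, a, b, c, d⟩ : CB).bo
            ⟨false, e1, e2, g1, g2, c1, c2⟩).F) p q := by
          refine hP.mono fun z hz => ⟨hz.1, ?_⟩
          unfold Bo.F CB.bo
          rw [mem_Bxx]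
          simp only [Bool.false_eq_true, if_false]
          exact hz.2
        unfold Ch.X Ch.Y
        simp only [Bool.false_eq_true, if_false, false_implies, true_and, true_implies]
        rcases g2 with rfl | rfl
        · simp only [if_true] at hp hq
          exact ⟨p, q, hP', by omega, by omega⟩
        · norm_num at hp hq
          exact ⟨q, p, hP'.symm, by omega, by omega⟩
      · unfold Bo.Cr CB.bo at H
        simp only [Bool.false_eq_true, if_false, if_true] at H
        obtain ⟨p, q, hp, hq, hP⟩ := H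
        have hP' : Pa (fun z => D z ∧ z ∈ ((⟨true, a, b, c, d⟩ : CB).bo
            ⟨false, e1, e2, g1, g2, c1, c2⟩).F) p q := by
          refine hP.mono fun z hz => ⟨hz.1, ?_⟩
          unfold Bo.F CB.bo
          rw [mem_Bxx]
          simp only [Bool.false_eq_true, if_false]
          exact hz.2
        unfold Ch.X Ch.Y
        simp only [Bool.false_eq_true, if_false, true_implies, Bool.true_eq_false, false_implies, and_true]
        rcases g1 with rfl | rfl
        · simp only [if_true] at hp hq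
          exact ⟨p, q, hP', by omega, by omega⟩
        · norm_num at hp hq
          exact ⟨q, p, hP'.symm, by omega, by omega⟩
    · cases xd
      · -- Y direction, first coordinate
        unfold Bo.Cr CB.bo at H
        simp only [if_true, Bool.not_false] at H
        obtain ⟨p, q, hp, hq, hP⟩ := H
        have hP' : Pa (fun z => D z ∧ z ∈ ((⟨false, a, b, c, d⟩ : CB).bo
            ⟨true, e1, e2, g1, g2, c1, c2⟩).F) p q := by
          refine hP.mono fun z hz => ⟨hz.1, ?_⟩
          unfold Bo.F CB.bo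
          rw [mem_Bxx]
          simp only [if_true]
          exact hz.2
        unfold Ch.X Ch.Y
        simp only [Bool.false_eq_true, if_true, false_implies, true_and, true_implies]
        rcases g2 with rfl | rfl
        · simp only [if_true] at hp hq
          exact ⟨p, q, hP', by omega, by omega⟩
        · norm_num at hp hq
          exact ⟨q, p, hP'.symm, by omega, by omega⟩
      · unfold Bo.Cr CB.bo at H
        simp only [if_true, Bool.not_true, Bool.false_eq_true, if_false] at H
        obtain ⟨p, q, hp, hq, hP⟩ := H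
        have hP' : Pa (fun z => D z ∧ z ∈ ((⟨true, a, b, c, d⟩ : CB).bo
            ⟨true, e1, e2, g1, g2, c1, c2⟩).F) p q := by
          refine hP.mono fun z hz => ⟨hz.1, ?_⟩
          unfold Bo.F CB.bo
          rw [mem_Bxx]
          simp only [if_true]
          exact hz.2
        unfold Ch.X Ch.Y
        simp only [if_true, true_implies, Bool.true_eq_false, false_implies, and_true]
        rcases g1 with rfl | rfl
        · simp only [if_true] at hp hq
          exact ⟨p, q, hP', by omega, by omega⟩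
        · norm_num at hp hq
          exact ⟨q, p, hP'.symm, by omega, by omega⟩
  obtain ⟨p, q, hP, hx, hy⟩ := gen
  have hJ := key p q hP
  have hp := (hmem p).1 hP.left.2
  have hq := (hmem q).1 hP.right.2
  have hpS := hD p hp hP.left.1
  obtain ⟨p1, p2, p3, p4⟩ := hp
  obtain ⟨q1, q2, q3, q4⟩ := hq
  unfold CB.Cr
  cases hxd : r.xd
  · rw [if_neg (by simp)]
    exact ⟨p, q, hpS, (hy hxd).1, p1, p2, (hy hxd).2, q1, q2, hJ⟩
  · rw [if_pos rfl]
    exact ⟨p, q, hpS, (hx hxd).1, p3, p4, (hx hxd).2, q3, q4, hJ⟩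

/-- **Lanes in charts.** `k` chart rectangles are crossed by black faces and `l` other chart rectangles
by white faces; the rectangles are in `U`. -/
theorem chart_lanes (K k l : ℕ) : ∃ c0 : ℝ, 0 < c0 ∧ ∀ (C : Ch) (bs ws : ℕ → CB),
    (∀ i < k, (bs i).Rat K) → (∀ j < l, (ws j).Rat K) →
    (∀ i < k, ∀ j < l, Disjoint (C.Rc (bs i).a (bs i).b (bs i).c (bs i).d)
      (C.Rc (ws j).a (ws j).b (ws j).c (ws j).d)) →
    ∀ (U : Finset Fc) (col : Fc → Bool),
    (∀ i < k, C.Rc (bs i).a (bs i).b (bs i).c (bs i).d ⊆ ↑U) →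
    (∀ j < l, C.Rc (ws j).a (ws j).b (ws j).c (ws j).d ⊆ ↑U) →
    c0 ≤ Pr U (fun w => (∀ i < k, (bs i).Cr C {f | mixc U w col f = true}) ∧
      ∀ j < l, (ws j).Cr C {f | mixc U w col f = false}) := by
  obtain ⟨c0, hc0, H⟩ := Pr_lanes K k l
  refine ⟨c0, hc0, ?_⟩
  intro C bs ws hb hw hd U col hbU hwU
  refine (H (fun i => (bs i).bo C) (fun j => (ws j).bo C) (fun i hi => (bs i).rat_bo C K (hb i hi))
    (fun j hj => (ws j).rat_bo C K (hw j hj)) ?_ U).trans (Pr_mono ?_)
  · intro i hi j hj
    rw [Finset.disjoint_left]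
    intro z hz1 hz2
    rw [(bs i).mem_F C (hb i hi).1 (hb i hi).2.1] at hz1
    rw [(ws j).mem_F C (hw j hj).1 (hw j hj).2.1] at hz2
    exact (Set.disjoint_left.1 (hd i hi j hj)) hz1 hz2
  · rintro w _ ⟨h1, h2⟩
    refine ⟨fun i hi => (bs i).cr_of C (hb i hi).1 (hb i hi).2.1 ?_ (h1 i hi),
      fun j hj => (ws j).cr_of C (hw j hj).1 (hw j hj).2.1 ?_ (h2 j hj)⟩
    · intro z hz hz'
      have hzU : z ∈ U := by exact_mod_cast hbU i hi hz
      show mixc U w col z = true
      unfold mixc
      rw [if_pos hzU]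
      rcases hz' with h | h
      · simpa using h
      · exact absurd hzU h
    · intro z hz hz'
      have hzU : z ∈ U := by exact_mod_cast hwU j hj hz
      show mixc U w col z = false
      unfold mixc
      rw [if_pos hzU]
      simpa using hz'

end Pool.Agent.H52.Tri
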