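import Mathlib
import Pool.Agent.H52.Tri.LanesC
import Pool.Agent.H53.Per.Tmp
import Pool.Agent.H98.Per.T3x

set_option autoImplicit false
open Finset

/-! MP_2e6055, module F5: colour-monotone events, local events, the two-sector template. -/

namespace Pool.Agent.H52.Tri

open Pool.Agent.H75.Perc
open Pool.Agent.H7.UC (Fc adjF)
open Pool.Agent.H74.Tri (Jn Pos ph)
open Pool.Agent.H75.Lv (mixc Bx)
open Pool.Agent.H53.Per
open Pool.Agent.H55.Lane (Sp)

/-! ## Events of colourings -/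

/-- the event only depends on the colours of the faces in `F` -/
def LocE (E : (Fc → Bool) → Prop) (F : Set Fc) : Prop :=
  ∀ ω ω' : Fc → Bool, (∀ f ∈ F, ω f = ω' f) → E ω → E ω'

/-- monotone in the colour `c` -/
def MonE (c : Bool) (E : (Fc → Bool) → Prop) : Prop :=
  ∀ ω ω' : Fc → Bool, (∀ f, ω f = c → ω' f = c) → E ω → E ω'

lemma LocE.and {E1 E2 : (Fc → Bool) → Prop} {F1 F2 : Set Fc} (h1 : LocE E1 F1) (h2 : LocE E2 F2) :
    LocE (fun ω => E1 ω ∧ E2 ω) (F1 ∪ F2) :=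
  fun ω ω' h hE => ⟨h1 ω ω' (fun f hf => h f (Or.inl hf)) hE.1,
    h2 ω ω' (fun f hf => h f (Or.inr hf)) hE.2⟩

lemma LocE.mono {E : (Fc → Bool) → Prop} {F1 F2 : Set Fc} (h : LocE E F1) (hF : F1 ⊆ F2) :
    LocE E F2 := fun ω ω' h' hE => h ω ω' (fun f hf => h' f (hF hf)) hE

lemma MonE.and {c : Bool} {E1 E2 : (Fc → Bool) → Prop} (h1 : MonE c E1) (h2 : MonE c E2) :
    MonE c (fun ω => E1 ω ∧ E2 ω) :=
  fun ω ω' h hE => ⟨h1 ω ω' h hE.1, h2 ω ω' h hE.2⟩

lemma mixc_flip (U w : Finset Fc) (col : Fc → Bool) (f : Fc) (hf : f ∈ U) :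
    mixc U (U \ w) col f = !(mixc U w col f) := by
  unfold mixc
  rw [if_pos hf, if_pos hf]
  by_cases h : f ∈ w <;> simp [h, hf]

/-- FKG for events which are monotone in the same colour. -/
theorem Pr_fkg (U : Finset Fc) (col : Fc → Bool) (c : Bool) {E1 E2 : (Fc → Bool) → Prop}
    (h1 : MonE c E1) (h2 : MonE c E2) :
    Pr U (fun w => E1 (mixc U w col)) * Pr U (fun w => E2 (mixc U w col)) ≤
      Pr U (fun w => E1 (mixc U w col) ∧ E2 (mixc U w col)) := by
  cases c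
  · rw [← Pool.Agent.H98.Tri.Pr_flip U (fun w => E1 (mixc U w col)),
      ← Pool.Agent.H98.Tri.Pr_flip U (fun w => E2 (mixc U w col)),
      ← Pool.Agent.H98.Tri.Pr_flip U (fun w => E1 (mixc U w col) ∧ E2 (mixc U w col))]
    have key : ∀ {E : (Fc → Bool) → Prop}, MonE false E → Inc (fun w => E (mixc U (U \ w) col)) := by
      intro E hE w w' hw h
      refine hE _ _ ?_ h
      intro f hf
      unfold mixc at hf ⊢
      split_ifs at hf ⊢ with hU
      · simp only [decide_eq_false_iff_not, mem_sdiff] at hf ⊢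
        have := @hw f
        tauto
      · exact hf
    exact Pr_harris U (key h1) (key h2)
  · have key : ∀ {E : (Fc → Bool) → Prop}, MonE true E → Inc (fun w => E (mixc U w col)) := by
      intro E hE w w' hw h
      refine hE _ _ ?_ h
      intro f hf
      unfold mixc at hf ⊢
      split_ifs at hf ⊢ with hU
      · simp only [decide_eq_true_eq] at hf ⊢
        exact hw hf
      · exact hf
    exact Pr_harris U (key h1) (key h2)

/-- FKG for a list of events. -/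
theorem Pr_list {ι : Type*} (U : Finset Fc) (col : Fc → Bool) (c : Bool)
    (E : ι → (Fc → Bool) → Prop) (hE : ∀ i, MonE c (E i)) (q : ℝ) (hq : 0 ≤ q) (l : List ι)
    (h : ∀ i ∈ l, q ≤ Pr U (fun w => E i (mixc U w col))) :
    q ^ l.length ≤ Pr U (fun w => ∀ i ∈ l, E i (mixc U w col)) := by
  induction l with
  | nil =>
    rw [List.length_nil, pow_zero, ← Pr_true U]
    exact Pr_mono fun w _ _ i hi => absurd hi (List.not_mem_nil)
  | cons i l ih =>
    have h1 := h i (List.mem_cons_self)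
    have h2 := ih fun j hj => h j (List.mem_cons_of_mem _ hj)
    have hm : MonE c (fun ω => ∀ j ∈ l, E j ω) := fun ω ω' hω H j hj => hE j ω ω' hω (H j hj)
    have h3 := Pr_fkg U col c (hE i) hm
    rw [List.length_cons, pow_succ]
    calc q ^ l.length * q ≤ Pr U (fun w => ∀ j ∈ l, E j (mixc U w col)) *
          Pr U (fun w => E i (mixc U w col)) := mul_le_mul h2 h1 hq (Pr_nonneg _ _)
      _ = Pr U (fun w => E i (mixc U w col)) * Pr U (fun w => ∀ j ∈ l, E j (mixc U w col)) :=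
        mul_comm _ _
      _ ≤ _ := h3
      _ ≤ _ := Pr_mono fun w _ hw j hj => by
        rcases List.mem_cons.1 hj with rfl | hj
        · exact hw.1
        · exact hw.2 j hj

/-- Independence of local events. -/
theorem Pr_locE (U : Finset Fc) (col : Fc → Bool) {E1 E2 : (Fc → Bool) → Prop} {F1 F2 : Set Fc}
    (h1 : LocE E1 F1) (h2 : LocE E2 F2) (hd : ∀ f ∈ U, f ∈ F1 → f ∉ F2) :
    Pr U (fun w => E1 (mixc U w col) ∧ E2 (mixc U w col)) =
      Pr U (fun w => E1 (mixc U w col)) * Pr U (fun w => E2 (mixc U w col)) := by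
  classical
  set G1 := U.filter (fun f => f ∈ F1) with hG1
  set G2 := U.filter (fun f => f ∈ F2) with hG2
  have key : ∀ {E : (Fc → Bool) → Prop} {F : Set Fc}, LocE E F → ∀ w,
      (E (mixc U w col) ↔ E (mixc U (w ∩ U.filter (fun f => f ∈ F)) col)) := by
    intro E F hE w
    have hh : ∀ f ∈ F, mixc U w col f = mixc U (w ∩ U.filter (fun f => f ∈ F)) col f := by
      intro f hf
      unfold mixc
      split_ifs with hU
      · congr 1
        rw [mem_inter, mem_filter]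
        exact propext ⟨fun h => ⟨h, hU, hf⟩, fun h => h.1⟩
      · rfl
    exact ⟨hE _ _ hh, hE _ _ fun f hf => (hh f hf).symm⟩
  have e0 : Pr U (fun w => E1 (mixc U w col) ∧ E2 (mixc U w col)) =
      Pr U (fun w => E1 (mixc U (w ∩ G1) col) ∧ E2 (mixc U (w ∩ G2) col)) := by
    apply Pr_congr
    intro w _
    rw [key h1 w, key h2 w]
  have s1 : G1 ⊆ U := filter_subset _ _
  have s2 : G2 ⊆ U := filter_subset _ _
  have hdis : Disjoint G1 G2 := by
    rw [disjoint_left]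
    intro f hf1 hf2
    rw [hG1, mem_filter] at hf1
    rw [hG2, mem_filter] at hf2
    exact hd f hf1.1 hf1.2 hf2.2
  rw [e0, Pr_indep s1 s2 hdis (fun w => E1 (mixc U w col)) (fun w => E2 (mixc U w col)),
    ← Pr_restrict s1 (fun w => E1 (mixc U w col)), ← Pr_restrict s2 (fun w => E2 (mixc U w col))]
  congr 1
  · exact Pr_congr fun w _ => (key h1 w).symm
  · exact Pr_congr fun w _ => (key h2 w).symm

/-! ## Strips -/

lemma CrC_mono {C : Ch} {S T : Set Fc} {s : Sp} (h : ∀ f, InC C s f → f ∈ S → f ∈ T)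
    (H : CrC C S s) : CrC C T s := by
  have hin : ∀ f, f ∈ C.Rc s.x0 s.x1 s.y0 s.y1 → InC C s f :=
    fun f hf => ⟨⟨hf.1, hf.2.1⟩, hf.2.2⟩
  unfold CrC at H ⊢
  split_ifs at H ⊢ with hs
  · obtain ⟨u, v, h1, h2, h3, h4, h5, h6, h7, h8⟩ := H
    by_cases hx : s.x0 ≤ s.x1
    · refine ⟨u, v, h u ⟨⟨h2 ▸ le_rfl, h2 ▸ hx⟩, h3, h4⟩ h1, h2, h3, h4, h5, h6, h7,
        h8.mono ?_⟩
      rintro f ⟨hf, hf'⟩
      exact ⟨h f (hin f hf') hf, hf'⟩
    · -- the rectangle is empty: the path is trivial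
      have : u = v := by
        cases h8 with
        | refl => rfl
        | tail _ hb =>
          have := hb.1.2
          obtain ⟨g1, g2, _, _⟩ := this
          omega
      subst this
      omega
  · obtain ⟨u, v, h1, h2, h3, h4, h5, h6, h7, h8⟩ := H
    by_cases hx : s.y0 ≤ s.y1
    · refine ⟨u, v, h u ⟨⟨h3, h4⟩, h2 ▸ le_rfl, h2 ▸ hx⟩ h1, h2, h3, h4, h5, h6, h7,
        h8.mono ?_⟩
      rintro f ⟨hf, hf'⟩
      exact ⟨h f (hin f hf') hf, hf'⟩
    · have : u = v := by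
        cases h8 with
        | refl => rfl
        | tail _ hb =>
          have := hb.1.2
          obtain ⟨_, _, g1, g2⟩ := this
          omega
      subst this
      omega

lemma MonE_CrC (C : Ch) (c : Bool) (s : Sp) : MonE c (fun ω => CrC C {f | ω f = c} s) :=
  fun _ _ h H => CrC_mono (fun f _ hf => h f hf) H

lemma LocE_CrC (C : Ch) (c : Bool) (s : Sp) :
    LocE (fun ω => CrC C {f | ω f = c} s) {f | InC C s f} :=
  fun ω ω' h H => CrC_mono (fun f hf hf' => by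
    show ω' f = c
    rw [← h f hf]
    exact hf') H

/-- One strip of a chart. -/
theorem Pr_sp (K : ℕ) : ∃ q : ℝ, 0 < q ∧ q ≤ 1 ∧ ∀ (C : Ch) (U : Finset Fc) (col : Fc → Bool)
    (c : Bool) (s : Sp), s.Ok K → (∀ f, InC C s f → f ∈ U) →
    q ≤ Pr U (fun w => CrC C {f | mixc U w col f = c} s) := by
  obtain ⟨q, hq, hq1, H⟩ := Pr_Bo K
  refine ⟨q, hq, hq1, ?_⟩
  intro C U col c s hs hU
  set r : CB := ⟨s.hor, s.x0, s.x1, s.y0, s.y1⟩ with hr
  have hrat : r.Rat K := by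
    obtain ⟨h1, h2, h3, h4⟩ := hs
    refine ⟨h1, h2, ?_⟩
    show if s.hor = true then s.x1 - s.x0 ≤ K * (s.y1 - s.y0) else s.y1 - s.y0 ≤ K * (s.x1 - s.x0)
    split_ifs with h
    · exact h3 h
    · exact h4 (by simpa using h)
  have hmem : ∀ z, z ∈ C.Rc r.a r.b r.c r.d → z ∈ U :=
    fun z hz => hU z ⟨⟨hz.1, hz.2.1⟩, hz.2.2⟩
  have h1 := H (r.bo C) (r.rat_bo C K hrat) U
  cases c
  · rw [← Pool.Agent.H98.Tri.Pr_flip U (fun w => CrC C {f | mixc U w col f = false} s)]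
    refine h1.trans (Pr_mono ?_)
    intro w _ h2
    refine r.cr_of C hrat.1 hrat.2.1 ?_ h2
    intro z hz hz'
    have hzU := hmem z hz
    show mixc U (U \ w) col z = false
    rw [mixc_flip _ _ _ _ hzU]
    unfold mixc
    rw [if_pos hzU]
    rcases hz' with h | h
    · simpa using h
    · exact absurd hzU h
  · refine h1.trans (Pr_mono ?_)
    intro w _ h2
    refine r.cr_of C hrat.1 hrat.2.1 ?_ h2
    intro z hz hz'
    have hzU := hmem z hz
    show mixc U w col z = true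
    unfold mixc
    rw [if_pos hzU]
    rcases hz' with h | h
    · simpa using h
    · exact absurd hzU h

/-! ## Sectors -/

lemma MonE_RayE (C : Ch) (U : Finset Fc) (p : Pos) (t y e : ℤ) (c : Bool) :
    MonE c (RayE C U p t y e c) := by
  rintro ω ω' h ⟨f, g, h1, h2, h3, h4, h5, h6, h7⟩
  refine ⟨f, g, h1, h2, h3, h4, h f h5, h6.mono ?_, h7⟩
  rintro a ⟨ha, ha'⟩
  exact ⟨ha, h a ha'⟩

lemma LocE_RayE (C : Ch) (U : Finset Fc) (p : Pos) (t y e : ℤ) (c : Bool) :
    LocE (RayE C U p t y e c) (Sect C U p t y e) := by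
  rintro ω ω' h ⟨f, g, h1, h2, h3, h4, h5, h6, h7⟩
  refine ⟨f, g, h1, h2, h3, h4, (h f h1) ▸ h5, h6.mono ?_, h7⟩
  rintro a ⟨ha, ha'⟩
  exact ⟨ha, (h a ha) ▸ ha'⟩

/-- A face next to the ray on the side `e` is not in the sector of the other side. -/
theorem strip_sect {C : Ch} {U : Finset Fc} {ω : Fc → Bool} {p : Pos} {v : Fc} {R t y : ℤ}
    (h : Ent C U ω p v R t y) {e : ℤ} (he : e = 1 ∨ e = -1) {f : Fc}
    (h1 : 1 ≤ e * (C.Y f - y)) (h2 : e * (C.Y f - y) ≤ t) (h3 : C.X f < C.X (ph p)) :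
    f ∉ Sect C U p t y (-e) := by
  intro hf
  obtain ⟨hA, -⟩ := id hf
  obtain ⟨a1, a2, a3, a4⟩ := hA
  have t1 := h.t1
  have tR := h.tR
  have hx := h.x
  have y1 := h.y1
  have y2 := h.y2
  have y3 := h.y3
  have a3' := a3
  rw [C.mem_Bx] at a2 a3
  rw [abs_le, abs_le] at a2
  rw [abs_le] at y1 y2
  have y4 : |y - C.Y v| < R - t := by linarith
  rw [abs_lt] at y4
  have hYf : |C.Y f - C.Y (ph p)| ≤ 3 * t := by
    rw [abs_le]
    rcases he with rfl | rfl
    · constructor <;> linarith [y2.1, y2.2]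
    · constructor <;> linarith [y2.1, y2.2]
  rw [abs_le] at hYf
  have hX : C.X f ≤ C.X (ph p) - 10 * t := by
    by_contra hcon
    apply a3
    rw [abs_le, abs_le]
    omega
  -- the rectangle next to the ray
  have hrect : ∀ g : Fc, C.X (ph p) - 40 * t ≤ C.X g → C.X g ≤ C.X (ph p) - 10 * t →
      1 ≤ e * (C.Y g - y) → e * (C.Y g - y) ≤ t → g ∈ Anr C U p t y := by
    intro g g1 g2 g3 g4
    have hYg : |C.Y g - C.Y (ph p)| ≤ 3 * t := by
      rw [abs_le]
      rcases he with rfl | rfl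
      · constructor <;> linarith [y2.1, y2.2]
      · constructor <;> linarith [y2.1, y2.2]
    rw [abs_le] at hYg
    refine ⟨h.box ?_, ?_, ?_, ?_⟩
    · rw [C.mem_Bx, abs_le, abs_le]
      rcases he with rfl | rfl
      · omega
      · omega
    · rw [C.mem_Bx, abs_le, abs_le]; omega
    · rw [C.mem_Bx, abs_le, abs_le]; omega
    · rintro ⟨g5, _⟩
      rw [g5] at g3
      simp at g3
  have hbase : C.X (sbase C p t y e) = C.X (ph p) - 10 * t ∧ C.Y (sbase C p t y e) = y + e := by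
    unfold sbase
    exact ⟨C.X_pt _ _, C.Y_pt _ _⟩
  have hee : e * e = 1 := by rcases he with rfl | rfl <;> norm_num
  have hfS : f ∈ Sect C U p t y e := by
    refine ⟨⟨a1, ?_, a3', a4⟩, ?_⟩
    · rw [C.mem_Bx, abs_le, abs_le]; exact a2
    · rcases he with rfl | rfl
      · refine C.jn_rect (a := C.X (ph p) - 40 * t) (b := C.X (ph p) - 10 * t) (c := y + 1)
          (d := y + t) ?_ ?_ ?_
        · rintro g ⟨g1, g2, g3, g4⟩
          exact hrect g g1 g2 (by linarith) (by linarith)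
        · refine ⟨?_, ?_, ?_, ?_⟩ <;> (first | rw [hbase.1] | rw [hbase.2]) <;> omega
        · refine ⟨?_, ?_, ?_, ?_⟩ <;> omega
      · refine C.jn_rect (a := C.X (ph p) - 40 * t) (b := C.X (ph p) - 10 * t) (c := y - t)
          (d := y - 1) ?_ ?_ ?_
        · rintro g ⟨g1, g2, g3, g4⟩
          exact hrect g g1 g2 (by linarith) (by linarith)
        · refine ⟨?_, ?_, ?_, ?_⟩ <;> (first | rw [hbase.1] | rw [hbase.2]) <;> omega
        · refine ⟨?_, ?_, ?_, ?_⟩ <;> omega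
  have hdis := Pool.Agent.H98.Per.t3A C U ω p v R t y h
  rw [Set.disjoint_left] at hdis
  rcases he with rfl | rfl
  · exact hdis hfS hf
  · rw [neg_neg] at hf
    exact hdis hf hfS

/-- **The two-sector template.** -/
theorem tmpl (K m n : ℕ) : ∃ pK : ℝ, 0 < pK ∧ ∃ t0 : ℤ, ∀ (C : Ch) (U : Finset Fc)
    (ω : Fc → Bool) (p : Pos) (v : Fc) (R t y : ℤ), Ent C U ω p v R t y → t0 ≤ t →
    ∀ L M : List Sp, L.length ≤ m → M.length ≤ n →
    (∀ s ∈ L, s.Ok K) → (∀ s ∈ M, s.Ok K) →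
    (∀ s ∈ L, ∀ f, InC C s f → f ∈ U) → (∀ s ∈ M, ∀ f, InC C s f → f ∈ U) →
    (∀ s ∈ L, ∀ s' ∈ M, ∀ f, InC C s f → ¬ InC C s' f) →
    (∀ s ∈ L, ∀ f, InC C s f → f ∉ Sect C U p t y 1) →
    (∀ s ∈ M, ∀ f, InC C s f → f ∉ Sect C U p t y (-1)) → ∀ c : Bool,
    pK ≤ Pr U (fun w => RayE C U p t y (-1) c (mixc U w ω) ∧ RayE C U p t y 1 (!c) (mixc U w ω) ∧
      (∀ s ∈ L, CrC C {f | mixc U w ω f = c} s) ∧ ∀ s ∈ M, CrC C {f | mixc U w ω f = !c} s) := by
  obtain ⟨c0, hc0, t0, H3⟩ := Pool.Agent.H98.Per.t3C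
  obtain ⟨q, hq, hq1, Hs⟩ := Pr_sp K
  refine ⟨(c0 * q ^ m) * (c0 * q ^ n), by positivity, t0, ?_⟩
  intro C U ω p v R t y hE ht L M hLm hMn hLok hMok hLU hMU hLM hL1 hM1 c
  have one : ∀ (N : List Sp) (k : ℕ) (e : ℤ) (d : Bool), N.length ≤ k → (e = 1 ∨ e = -1) →
      (∀ s ∈ N, s.Ok K) → (∀ s ∈ N, ∀ f, InC C s f → f ∈ U) →
      c0 * q ^ k ≤ Pr U (fun w => RayE C U p t y e d (mixc U w ω) ∧
        ∀ s ∈ N, CrC C {f | mixc U w ω f = d} s) := by
    intro N k e d hN he hok hNU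
    have h1 := H3 C U ω p v R t y hE ht e d he
    have h2 : q ^ k ≤ Pr U (fun w => ∀ s ∈ N, CrC C {f | mixc U w ω f = d} s) :=
      (pow_le_pow_of_le_one hq.le hq1 hN).trans
        (Pr_list U ω d (fun (s : Sp) ω' => CrC C {f | ω' f = d} s) (fun s => MonE_CrC C d s) q
          hq.le N fun s hs => Hs C U ω d s (hok s hs) (hNU s hs))
    refine (mul_le_mul h1 h2 (by positivity) (Pr_nonneg _ _)).trans ?_
    exact Pr_fkg U ω d (MonE_RayE C U p t y e d)
      (E2 := fun ω' => ∀ s ∈ N, CrC C {f | ω' f = d} s)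
      (fun ω1 ω2 hω HH s hs => MonE_CrC C d s ω1 ω2 hω (HH s hs))
  have hl : ∀ (N : List Sp) (e : ℤ) (d : Bool),
      LocE (fun ω' => RayE C U p t y e d ω' ∧ ∀ s ∈ N, CrC C {f | ω' f = d} s)
        (Sect C U p t y e ∪ {f | ∃ s ∈ N, InC C s f}) := by
    intro N e d
    refine LocE.and (LocE_RayE C U p t y e d) ?_
    intro ω1 ω2 hω HH s hs
    exact LocE_CrC C d s ω1 ω2 (fun f hf => hω f ⟨s, hs, hf⟩) (HH s hs)
  have hdis := Pool.Agent.H98.Per.t3A C U ω p v R t y hE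
  rw [Set.disjoint_left] at hdis
  have key := Pr_locE U ω (hl L (-1) c) (hl M 1 (!c)) (by
    rintro f _ (h1 | ⟨s, hs, h1⟩) (h2 | ⟨s', hs', h2⟩)
    · exact hdis h2 h1
    · exact hM1 s' hs' f h2 h1
    · exact hL1 s hs f h1 h2
    · exact hLM s hs s' hs' f h1 h2)
  refine le_trans ?_ (le_trans (le_of_eq key.symm) (Pr_mono ?_))
  · exact mul_le_mul (one L m (-1) c hLm (Or.inr rfl) hLok hLU)
      (one M n 1 (!c) hMn (Or.inl rfl) hMok hMU) (by positivity) (Pr_nonneg _ _)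
  · rintro w _ ⟨⟨h1, h2⟩, h3, h4⟩
    exact ⟨h1, h3, h2, h4⟩

end Pool.Agent.H52.Tri
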