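import Mathlib
import Pool.Agent.H52.Tri.Evt
import Pool.Agent.H98.Per.V4

set_option autoImplicit false
open Finset

/-! MP_2e6055, module F5: EVP7, EVR, EVP4. -/

namespace Pool.Agent.H52.Tri

open Pool.Agent.H75.Perc
open Pool.Agent.H7.UC (Fc adjF)
open Pool.Agent.H74.Tri (Jn Pos ph)
open Pool.Agent.H75.Lv (mixc Bx)
open Pool.Agent.H53.Per
open Pool.Agent.H55.Lane (Sp)

lemma ok_of {K : ℕ} {s : Sp} {t B : ℤ} (hB : B ≤ K * (t - 1)) (h1 : s.x0 ≤ s.x1)
    (h2 : s.y0 ≤ s.y1) (h3 : s.hor = true → s.x1 - s.x0 ≤ B ∧ s.y1 - s.y0 = t - 1)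
    (h4 : s.hor = false → s.y1 - s.y0 ≤ B ∧ s.x1 - s.x0 = t - 1) : s.Ok K := by
  refine ⟨h1, h2, fun h => ?_, fun h => ?_⟩
  · rw [(h3 h).2]; exact (h3 h).1.trans hB
  · rw [(h4 h).2]; exact (h4 h).1.trans hB

lemma two_le {K : ℕ} {t R : ℤ} (ht : 2 ≤ t) (hR : R ≤ K * t) : 2 * R ≤ ((4 * K : ℕ) : ℤ) * (t - 1) := by
  have hK : (0 : ℤ) ≤ K := Int.natCast_nonneg K
  push_cast
  nlinarith

section seven

variable {C : Ch} {U : Finset Fc} {ω : Fc → Bool} {p : Pos} {v z0 : Fc} {R t b k e y : ℤ}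

/-- the numbers of the first template, without absolute values -/
lemma num7 (h : Sit7 C U ω p v z0 R t b k e y) :
    2 ≤ t ∧ 100 * t ≤ k ∧ 4 * k ≤ e ∧ 8 * e ≤ b ∧ R = 4 * b ∧ (-e ≤ C.X v ∧ C.X v ≤ e) ∧
    (-e ≤ C.Y v ∧ C.Y v ≤ e) ∧ C.X (ph p) = C.X v + R ∧
    (-R ≤ C.Y (ph p) - C.Y v ∧ C.Y (ph p) - C.Y v ≤ R) ∧ 0 ≤ C.Y (ph p) ∧ 0 ≤ y ∧
    (-(2 * t) ≤ C.Y (ph p) - y ∧ C.Y (ph p) - y ≤ 2 * t) ∧
    (-(R - t) < y - C.Y v ∧ y - C.Y v < R - t) := by
  obtain ⟨t2, tk, ke, eb, bR, hv1, hv2, hx1, hx2, hx0, hy0, hy1, hy2⟩ := h.num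
  have hy3 : |y - C.Y v| < R - t := by linarith
  rw [abs_le] at hv1 hv2 hx2 hy1
  rw [abs_lt] at hy3
  exact ⟨t2, tk, ke, eb, bR, hv1, hv2, hx1, hx2, hx0, hy0, hy1, hy3⟩

lemma U7L (h : Sit7 C U ω p v z0 R t b k e y) :
    ∀ s ∈ L7 t b k e (C.X (ph p)) y, ∀ f, InC C s f → f ∈ Bx v R := by
  intro s hs f hf
  have hn := num7 h
  rw [C.mem_Bx, abs_le, abs_le]
  simp only [L7, List.mem_cons, List.not_mem_nil, or_false] at hs
  rcases hs with rfl | rfl | rfl | rfl | rfl | rfl | rfl <;>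
    (unfold InC Sp.In at hf; simp only at hf; omega)

lemma U7R (h : Sit7 C U ω p v z0 R t b k e y) :
    ∀ s ∈ R7 t b k e (C.X (ph p)) y, ∀ f, InC C s f → f ∈ Bx v R := by
  intro s hs f hf
  have hn := num7 h
  rw [C.mem_Bx, abs_le, abs_le]
  simp only [R7, List.mem_cons, List.not_mem_nil, or_false] at hs
  rcases hs with rfl | rfl | rfl | rfl | rfl | rfl | rfl <;>
    (unfold InC Sp.In at hf; simp only at hf; omega)

lemma ok7L (h : Sit7 C U ω p v z0 R t b k e y) {K : ℕ} (hK : R ≤ K * t) :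
    ∀ s ∈ L7 t b k e (C.X (ph p)) y, s.Ok (4 * K) := by
  intro s hs
  have hn := num7 h
  have h2 := two_le hn.1 hK
  simp only [L7, List.mem_cons, List.not_mem_nil, or_false] at hs
  rcases hs with rfl | rfl | rfl | rfl | rfl | rfl | rfl <;>
    (refine ok_of h2 ?_ ?_ (fun h => ?_) (fun h => ?_) <;> simp only at h ⊢ <;>
      first | omega | exact absurd h (by decide))

lemma ok7R (h : Sit7 C U ω p v z0 R t b k e y) {K : ℕ} (hK : R ≤ K * t) :
    ∀ s ∈ R7 t b k e (C.X (ph p)) y, s.Ok (4 * K) := by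
  intro s hs
  have hn := num7 h
  have h2 := two_le hn.1 hK
  simp only [R7, List.mem_cons, List.not_mem_nil, or_false] at hs
  rcases hs with rfl | rfl | rfl | rfl | rfl | rfl | rfl <;>
    (refine ok_of h2 ?_ ?_ (fun h => ?_) (fun h => ?_) <;> simp only at h ⊢ <;>
      first | omega | exact absurd h (by decide))

lemma dis7 (h : Sit7 C U ω p v z0 R t b k e y) :
    ∀ s ∈ L7 t b k e (C.X (ph p)) y, ∀ s' ∈ R7 t b k e (C.X (ph p)) y, ∀ f, InC C s f →
      ¬ InC C s' f := by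
  intro s hs s' hs' f hf hf'
  have hn := num7 h
  simp only [L7, List.mem_cons, List.not_mem_nil, or_false] at hs
  simp only [R7, List.mem_cons, List.not_mem_nil, or_false] at hs'
  rcases hs with rfl | rfl | rfl | rfl | rfl | rfl | rfl <;>
    rcases hs' with rfl | rfl | rfl | rfl | rfl | rfl | rfl <;>
    (unfold InC Sp.In at hf hf'; simp only at hf hf'; omega)

lemma sec7L (h : Sit7 C U ω p v z0 R t b k e y) :
    ∀ s ∈ L7 t b k e (C.X (ph p)) y, ∀ f, InC C s f → f ∉ Sect C U p t y 1 := by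
  intro s hs f hf
  have hn := num7 h
  simp only [L7, List.mem_cons, List.not_mem_nil, or_false] at hs
  rcases hs with rfl | hs
  · unfold InC Sp.In at hf
    simp only at hf
    have := strip_sect h.ent (e := -1) (Or.inr rfl) (f := f) (by omega) (by omega) (by omega)
    rwa [neg_neg] at this
  · rintro ⟨⟨_, h2, _⟩, _⟩
    rw [C.mem_Bx, abs_le, abs_le] at h2
    rcases hs with rfl | rfl | rfl | rfl | rfl | rfl <;>
      (unfold InC Sp.In at hf; simp only at hf; omega)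

lemma sec7R (h : Sit7 C U ω p v z0 R t b k e y) :
    ∀ s ∈ R7 t b k e (C.X (ph p)) y, ∀ f, InC C s f → f ∉ Sect C U p t y (-1) := by
  intro s hs f hf
  have hn := num7 h
  simp only [R7, List.mem_cons, List.not_mem_nil, or_false] at hs
  rcases hs with rfl | hs
  · unfold InC Sp.In at hf
    simp only at hf
    exact strip_sect h.ent (e := 1) (Or.inl rfl) (f := f) (by omega) (by omega) (by omega)
  · rintro ⟨⟨_, h2, _⟩, _⟩
    rw [C.mem_Bx, abs_le, abs_le] at h2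
    rcases hs with rfl | rfl | rfl | rfl | rfl | rfl <;>
      (unfold InC Sp.In at hf; simp only at hf; omega)

/-- the event of the first template only depends on the faces in `Bx v (R + 40 t)` -/
lemma LocE_Ev7 (h : Sit7 C U ω p v z0 R t b k e y) (c : Bool) :
    LocE (Ev7 C U p t b k e y c) {f | f ∈ Bx v (R + 40 * t)} := by
  have hn := num7 h
  have hS : ∀ e', Sect C U p t y e' ⊆ {f | f ∈ Bx v (R + 40 * t)} := by
    rintro e' f ⟨⟨_, h2, _⟩, _⟩
    show f ∈ Bx v (R + 40 * t)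
    rw [C.mem_Bx, abs_le, abs_le] at h2 ⊢
    omega
  have hB : ∀ f, f ∈ Bx v R → f ∈ Bx v (R + 40 * t) := by
    intro f hf
    rw [C.mem_Bx, abs_le, abs_le] at hf ⊢
    omega
  rintro ω1 ω2 hω ⟨h1, h2, h3, h4⟩
  refine ⟨((LocE_RayE C U p t y (-1) c).mono (hS _)) ω1 ω2 hω h1,
    ((LocE_RayE C U p t y 1 (!c)).mono (hS _)) ω1 ω2 hω h2, fun s hs => ?_, fun s hs => ?_⟩
  · exact LocE_CrC C c s ω1 ω2 (fun f hf => hω f (hB f (U7L h s hs f hf))) (h3 s hs)
  · exact LocE_CrC C (!c) s ω1 ω2 (fun f hf => hω f (hB f (U7R h s hs f hf))) (h4 s hs)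

end seven

/-- **EVP7** -/
theorem evp7 : EVP7 := by
  intro K
  obtain ⟨pK, hpK, t0, H⟩ := tmpl (4 * K) 7 7
  refine ⟨pK, hpK, t0, ?_⟩
  intro C U ω p v z0 R t b k e y hS ht hR c
  exact H C U ω p v R t y hS.ent ht (L7 t b k e (C.X (ph p)) y) (R7 t b k e (C.X (ph p)) y)
    le_rfl le_rfl (ok7L hS hR) (ok7R hS hR)
    (fun s hs f hf => hS.ent.box (U7L hS s hs f hf)) (fun s hs f hf => hS.ent.box (U7R hS s hs f hf))
    (dis7 hS) (sec7L hS) (sec7R hS) c

lemma LocE_AX (v : Fc) {w W : ℕ} (hw : w ≤ W) (U : Finset Fc) (c : Bool) :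
    LocE (fun ω => AX v w W (fun z => z ∈ U → ω z = c)) {z | inA v w W z} := by
  intro ω ω' h H
  refine AX_congr hw ?_ H
  intro z hz h1 h2
  rw [← h z hz]
  exact h1 h2

/-- **EVR**: the event of the first template together with a black ring in `A(v; 2R, 4R - 1)` and a
white ring in `A(v; 4R, 8R)`. -/
theorem evr (K : ℕ) : ∃ pK : ℝ, 0 < pK ∧ ∃ t0 : ℤ, ∀ (C : Ch) (U : Finset Fc) (ω : Fc → Bool)
    (p : Pos) (v z0 : Fc) (R t b k e y : ℤ), Sit7 C U ω p v z0 R t b k e y → t0 ≤ t →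
    R ≤ K * t → ∀ r : ℕ, (r : ℤ) = R → ∀ c : Bool,
    pK ≤ Pr U (fun w => Ev7 C U p t b k e y c (mixc U w ω) ∧
      AX v (2 * r) (4 * r - 1) (fun z => z ∈ U → mixc U w ω z = true) ∧
      AX v (4 * r) (8 * r) (fun z => z ∈ U → mixc U w ω z = false)) := by
  obtain ⟨p0, hp0, t0, H0⟩ := evp7 K
  obtain ⟨c1, hc1, H1⟩ := Pr_AX_off 5
  obtain ⟨c2, hc2, H2⟩ := Pr_AX_white 4
  refine ⟨p0 * (c1 * c2), by positivity, t0, ?_⟩
  intro C U ω p v z0 R t b k e y hS ht hR r hr c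
  have hn := num7 hS
  have hr2 : 100 ≤ r := by
    have : (100 : ℤ) ≤ r := by omega
    exact_mod_cast this
  have e1 : p0 ≤ Pr U (fun w => Ev7 C U p t b k e y c (mixc U w ω)) :=
    H0 C U ω p v z0 R t b k e y hS ht hR c
  have e2 : c1 ≤ Pr U (fun w => AX v (2 * r) (4 * r - 1) (fun z => z ∈ U → mixc U w ω z = true)) := by
    refine (H1 v (2 * r) (4 * r - 1) (by omega) (by omega) U).trans (Pr_mono ?_)
    intro w _ h
    refine h.mono ?_
    intro z hz hzU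
    unfold mixc
    rw [if_pos hzU]
    rcases hz with hz | hz
    · simpa using hz
    · exact absurd hzU hz
  have e3 : c2 ≤ Pr U (fun w => AX v (4 * r) (8 * r) (fun z => z ∈ U → mixc U w ω z = false)) := by
    refine (H2 v (4 * r) (8 * r) (by omega) (by omega) U).trans (Pr_mono ?_)
    intro w _ h
    refine h.mono ?_
    intro z hz hzU
    unfold mixc
    rw [if_pos hzU]
    simpa using hz
  have l1 := LocE_Ev7 hS c
  have l2 := LocE_AX v (show 2 * r ≤ 4 * r - 1 by omega) U true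
  have l3 := LocE_AX v (show 4 * r ≤ 8 * r by omega) U false
  have k1 := Pr_locE U ω l2 l3 (by
    intro z _ h1 h2
    have h1' : inA v (2 * r) (4 * r - 1) z := h1
    have h2' : inA v (4 * r) (8 * r) z := h2
    unfold inA at h1' h2'
    omega)
  have k2 := Pr_locE U ω l1 (LocE.and l2 l3) (by
    intro z _ h1 h2
    have h1' : z ∈ Bx v (R + 40 * t) := h1
    rw [Pool.Agent.H75.Lv.mem_Bx, abs_le, abs_le] at h1'
    rcases h2 with h2 | h2
    · have h2' : inA v (2 * r) (4 * r - 1) z := h2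
      unfold inA at h2'
      omega
    · have h2' : inA v (4 * r) (8 * r) z := h2
      unfold inA at h2'
      omega)
  rw [k1] at k2
  refine le_trans ?_ (le_of_eq k2.symm)
  exact mul_le_mul e1 (mul_le_mul e2 e3 hc2.le (Pr_nonneg _ _)) (by positivity) (Pr_nonneg _ _)

section four

variable {C : Ch} {U : Finset Fc} {ω : Fc → Bool} {p : Pos} {z0 v : Fc} {e t b r y : ℤ}

/-- the numbers of the second template -/
lemma num4 (h : Sit4 C U ω p z0 v e t b r y) :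
    2 ≤ t ∧ 10 * t ≤ r ∧ 1000 * t ≤ e ∧ 100 * r ≤ e + 100 ∧ b = e / 2 ∧
    (-(e / 8) ≤ C.X v ∧ C.X v ≤ e / 8) ∧ (-(e / 8) ≤ C.Y v ∧ C.Y v ≤ e / 8) ∧
    C.X z0 = 0 ∧ C.Y z0 = 0 ∧ C.X (ph p) = e ∧
    (-e ≤ C.Y (ph p) ∧ C.Y (ph p) ≤ e) ∧ 0 ≤ C.Y (ph p) ∧ 0 ≤ y ∧
    (-(2 * t) ≤ C.Y (ph p) - y ∧ C.Y (ph p) - y ≤ 2 * t) ∧ y < e - t := by
  have hX : C.X z0 = 0 := by rw [← h.c]; exact C.X_c
  have hY : C.Y z0 = 0 := by rw [← h.c]; exact C.Y_c
  have h1 := h.ent.x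
  have h2 := h.ent.y1
  have h3 := h.ent.y2
  have h4 := h.ent.y3
  have h5 := h.hv1
  have h6 := h.hv2
  have h7 := le_abs_self y
  rw [hX] at h1
  rw [hY] at h2 h4
  rw [sub_zero] at h2 h4
  rw [abs_le] at h2 h3 h5 h6
  exact ⟨h.t2, h.tr, h.te, h.re, h.hb, h5, h6, hX, hY, by omega, h2, h.hx0, h.hy0, h3, by omega⟩

lemma U4L (h : Sit4 C U ω p z0 v e t b r y) :
    ∀ s ∈ L4 t b r (C.X (ph p)) y (C.X v) (C.Y v), ∀ f, InC C s f → f ∈ Bx z0 e := by
  intro s hs f hf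
  have hn := num4 h
  rw [C.mem_Bx, abs_le, abs_le]
  simp only [L4, List.mem_cons, List.not_mem_nil, or_false] at hs
  rcases hs with rfl | rfl | rfl | rfl <;>
    (unfold InC Sp.In at hf; simp only at hf; omega)

lemma U4R (h : Sit4 C U ω p z0 v e t b r y) :
    ∀ s ∈ R4 t b r (C.X (ph p)) y (C.X v) (C.Y v), ∀ f, InC C s f → f ∈ Bx z0 e := by
  intro s hs f hf
  have hn := num4 h
  rw [C.mem_Bx, abs_le, abs_le]
  simp only [R4, List.mem_cons, List.not_mem_nil, or_false] at hs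
  rcases hs with rfl | rfl | rfl | rfl <;>
    (unfold InC Sp.In at hf; simp only at hf; omega)

lemma ok4L (h : Sit4 C U ω p z0 v e t b r y) {K : ℕ} (hK : e ≤ K * t) :
    ∀ s ∈ L4 t b r (C.X (ph p)) y (C.X v) (C.Y v), s.Ok (4 * K) := by
  intro s hs
  have hn := num4 h
  have h2 := two_le hn.1 hK
  simp only [L4, List.mem_cons, List.not_mem_nil, or_false] at hs
  rcases hs with rfl | rfl | rfl | rfl <;>
    (refine ok_of h2 ?_ ?_ (fun h => ?_) (fun h => ?_) <;> simp only at h ⊢ <;>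
      first | omega | exact absurd h (by decide))

lemma ok4R (h : Sit4 C U ω p z0 v e t b r y) {K : ℕ} (hK : e ≤ K * t) :
    ∀ s ∈ R4 t b r (C.X (ph p)) y (C.X v) (C.Y v), s.Ok (4 * K) := by
  intro s hs
  have hn := num4 h
  have h2 := two_le hn.1 hK
  simp only [R4, List.mem_cons, List.not_mem_nil, or_false] at hs
  rcases hs with rfl | rfl | rfl | rfl <;>
    (refine ok_of h2 ?_ ?_ (fun h => ?_) (fun h => ?_) <;> simp only at h ⊢ <;>
      first | omega | exact absurd h (by decide))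

lemma dis4 (h : Sit4 C U ω p z0 v e t b r y) :
    ∀ s ∈ L4 t b r (C.X (ph p)) y (C.X v) (C.Y v),
    ∀ s' ∈ R4 t b r (C.X (ph p)) y (C.X v) (C.Y v), ∀ f, InC C s f → ¬ InC C s' f := by
  intro s hs s' hs' f hf hf'
  have hn := num4 h
  simp only [L4, List.mem_cons, List.not_mem_nil, or_false] at hs
  simp only [R4, List.mem_cons, List.not_mem_nil, or_false] at hs'
  rcases hs with rfl | rfl | rfl | rfl <;>
    rcases hs' with rfl | rfl | rfl | rfl <;>
    (unfold InC Sp.In at hf hf'; simp only at hf hf'; omega)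

lemma sec4L (h : Sit4 C U ω p z0 v e t b r y) :
    ∀ s ∈ L4 t b r (C.X (ph p)) y (C.X v) (C.Y v), ∀ f, InC C s f → f ∉ Sect C U p t y 1 := by
  intro s hs f hf
  have hn := num4 h
  simp only [L4, List.mem_cons, List.not_mem_nil, or_false] at hs
  rcases hs with rfl | hs
  · unfold InC Sp.In at hf
    simp only at hf
    have := strip_sect h.ent (e := -1) (Or.inr rfl) (f := f) (by omega) (by omega) (by omega)
    rwa [neg_neg] at this
  · rintro ⟨⟨_, h2, _⟩, _⟩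
    rw [C.mem_Bx, abs_le, abs_le] at h2
    rcases hs with rfl | rfl | rfl <;>
      (unfold InC Sp.In at hf; simp only at hf; omega)

lemma sec4R (h : Sit4 C U ω p z0 v e t b r y) :
    ∀ s ∈ R4 t b r (C.X (ph p)) y (C.X v) (C.Y v), ∀ f, InC C s f →
      f ∉ Sect C U p t y (-1) := by
  intro s hs f hf
  have hn := num4 h
  simp only [R4, List.mem_cons, List.not_mem_nil, or_false] at hs
  rcases hs with rfl | hs
  · unfold InC Sp.In at hf
    simp only at hf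
    exact strip_sect h.ent (e := 1) (Or.inl rfl) (f := f) (by omega) (by omega) (by omega)
  · rintro ⟨⟨_, h2, _⟩, _⟩
    rw [C.mem_Bx, abs_le, abs_le] at h2
    rcases hs with rfl | rfl | rfl <;>
      (unfold InC Sp.In at hf; simp only at hf; omega)

end four

/-- **EVP4** -/
theorem evp4 : Pool.Agent.H98.Per.EVP4 := by
  intro K
  obtain ⟨pK, hpK, t0, H⟩ := tmpl (4 * K) 4 4
  refine ⟨pK, hpK, t0, ?_⟩
  intro C U ω p z0 v e t b r y hS ht hR c
  exact H C U ω p z0 e t y hS.ent ht (L4 t b r (C.X (ph p)) y (C.X v) (C.Y v))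
    (R4 t b r (C.X (ph p)) y (C.X v) (C.Y v))
    le_rfl le_rfl (ok4L hS hR) (ok4R hS hR)
    (fun s hs f hf => hS.ent.box (U4L hS s hs f hf)) (fun s hs f hf => hS.ent.box (U4R hS s hs f hf))
    (dis4 hS) (sec4L hS) (sec4R hS) c

end Pool.Agent.H52.Tri
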